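import Pool.Agent.Lib.MP_abcfcd_nt.Lgrp

/-!
# Base file of block X: the fields `ℚ(√-7)` and `ℚ₇(√-7)`, integrality, the form, weight bases
-/

set_option autoImplicit false

open Matrix

namespace Pool.Agent.MPabcfcd.Loc

instance fact7 : Fact (Nat.Prime 7) := ⟨by norm_num⟩

/-- The field of `7`-adic numbers. -/
abbrev Q7 : Type := ℚ_[p7]

/-- The ring of `7`-adic integers. -/
abbrev Z7 : Type := ℤ_[p7]

theorem cast_p7 : ((p7 : ℕ) : ℝ) = 7 := by
  show ((7 : ℕ) : ℝ) = 7
  norm_num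

instance factQ : Fact (∀ r : ℚ, r ^ 2 ≠ (-7 : ℚ) + 0 * r) := ⟨fun r h => by nlinarith [sq_nonneg r]⟩

theorem norm_seven : ‖(7 : Q7)‖ = 1 / 7 := by
  have h := Padic.norm_p (p := (p7 : ℕ))
  have h2 : ((p7 : ℕ) : Q7) = 7 := by
    show ((7 : ℕ) : Q7) = 7
    norm_num
  rw [h2, cast_p7] at h
  rw [h, one_div]

instance factQ7 : Fact (∀ r : Q7, r ^ 2 ≠ (-7 : Q7) + 0 * r) := ⟨fun r h => by
  rw [zero_mul, add_zero] at h
  have h1 : ‖r‖ ^ 2 = 1 / 7 := by rw [← norm_pow, h, norm_neg, norm_seven]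
  have hr : r ≠ 0 := by
    rintro rfl
    norm_num at h1
  have h2 := Padic.norm_eq_zpow_neg_valuation hr
  rw [h2, cast_p7, ← zpow_natCast, ← _root_.zpow_mul, one_div,
    ← _root_.zpow_neg_one] at h1
  have h4 := zpow_right_injective₀ (by norm_num : (0 : ℝ) < 7) (by norm_num) h1
  push_cast at h4
  omega⟩

section general

variable {R : Type} [CommRing R]

/-- The element `√-7`. -/
def wE : E7 R := ⟨0, 1⟩

@[simp] theorem wE_re : (wE : E7 R).re = 0 := rfl

@[simp] theorem wE_im : (wE : E7 R).im = 1 := rfl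

theorem wE_sq : (wE : E7 R) * wE = -7 := by
  ext
  · simp [wE, QuadraticAlgebra.re_ofNat]
  · simp [wE, QuadraticAlgebra.im_ofNat]

theorem star_wE : star (wE : E7 R) = -wE := by
  ext
  · simp
  · simp

instance [CharZero R] : CharZero (E7 R) := ⟨fun m n h => by
  have h2 := congrArg QuadraticAlgebra.re h
  simpa using h2⟩

/-- The adjoint of a matrix for the form `J7`. -/
def adj (Z : M7 (E7 R)) : M7 (E7 R) := J7 (E7 R) * Zᴴ * J7 (E7 R)

theorem adj_adj (Z : M7 (E7 R)) : adj (adj Z) = Z := by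
  unfold adj
  rw [Matrix.conjTranspose_mul, Matrix.conjTranspose_mul, J7_star,
    Matrix.conjTranspose_conjTranspose]
  calc J7 (E7 R) * (J7 (E7 R) * (Z * J7 (E7 R))) * J7 (E7 R)
      = (J7 (E7 R) * J7 (E7 R)) * Z * (J7 (E7 R) * J7 (E7 R)) := by
        simp only [Matrix.mul_assoc]
    _ = Z := by rw [J7_sq, Matrix.one_mul, Matrix.mul_one]

theorem adj_mul (A B : M7 (E7 R)) : adj (A * B) = adj B * adj A := by
  unfold adj
  rw [Matrix.conjTranspose_mul]
  calc J7 (E7 R) * (Bᴴ * Aᴴ) * J7 (E7 R)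
      = J7 (E7 R) * Bᴴ * 1 * Aᴴ * J7 (E7 R) := by
        simp only [Matrix.mul_assoc, Matrix.one_mul]
    _ = J7 (E7 R) * Bᴴ * J7 (E7 R) * (J7 (E7 R) * Aᴴ * J7 (E7 R)) := by
        rw [← J7_sq]
        simp only [Matrix.mul_assoc]

theorem adj_add (A B : M7 (E7 R)) : adj (A + B) = adj A + adj B := by
  unfold adj
  rw [Matrix.conjTranspose_add, mul_add, add_mul]

theorem adj_sub (A B : M7 (E7 R)) : adj (A - B) = adj A - adj B := by
  unfold adj
  rw [Matrix.conjTranspose_sub, mul_sub, sub_mul]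

theorem adj_smul (c : E7 R) (A : M7 (E7 R)) : adj (c • A) = star c • adj A := by
  unfold adj
  rw [Matrix.conjTranspose_smul, Matrix.mul_smul, Matrix.smul_mul]

@[simp] theorem adj_one : adj (1 : M7 (E7 R)) = 1 := by
  unfold adj
  rw [Matrix.conjTranspose_one, Matrix.mul_one, J7_sq]

theorem adj_pow (A : M7 (E7 R)) (k : ℕ) : adj (A ^ k) = adj A ^ k := by
  induction k with
  | zero => simp
  | succ k ih => rw [pow_succ, adj_mul, ih, pow_succ']

theorem adj_apply (Z : M7 (E7 R)) (i j : Fin 7) : adj Z i j = star (Z j.rev i.rev) := by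
  unfold adj
  rw [Matrix.mul_apply, Finset.sum_eq_single j.rev]
  · rw [Matrix.mul_apply, Finset.sum_eq_single i.rev]
    · simp [J7, Matrix.conjTranspose_apply]
    · intro b _ hb
      simp [J7, hb]
    · intro h
      exact absurd (Finset.mem_univ _) h
  · intro b _ hb
    have h : ¬ j = b.rev := fun h2 => hb (by rw [h2, Fin.rev_rev])
    simp [J7, h]
  · intro h
    exact absurd (Finset.mem_univ _) h

theorem sk_iff (Z : M7 (E7 R)) : Sk Z ↔ adj Z = -Z := by
  unfold Sk adj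
  constructor
  · intro h
    have h2 : Zᴴ * J7 (E7 R) = -(J7 (E7 R) * Z) := eq_neg_of_add_eq_zero_left h
    rw [Matrix.mul_assoc, h2, mul_neg, ← Matrix.mul_assoc, J7_sq, Matrix.one_mul]
  · intro h
    have h2 := congrArg (fun M => J7 (E7 R) * M) h
    simp only [mul_neg] at h2
    rw [Matrix.mul_assoc, ← Matrix.mul_assoc, J7_sq, Matrix.one_mul] at h2
    rw [h2, neg_add_cancel]

theorem trace_adj (Z : M7 (E7 R)) : Matrix.trace (adj Z) = star (Matrix.trace Z) := by
  unfold adj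
  rw [Matrix.trace_mul_comm, ← Matrix.mul_assoc, J7_sq, Matrix.one_mul,
    Matrix.trace_conjTranspose]

/-- The Hermitian form with the matrix `J7`. -/
def hf (x y : Fin 7 → E7 R) : E7 R := star x ⬝ᵥ (J7 (E7 R) *ᵥ y)

theorem hf_adj (A : M7 (E7 R)) (x y : Fin 7 → E7 R) : hf (A *ᵥ x) y = hf x (adj A *ᵥ y) := by
  unfold hf adj
  rw [Matrix.star_mulVec, ← Matrix.dotProduct_mulVec, Matrix.mulVec_mulVec, Matrix.mulVec_mulVec]
  congr 2
  rw [← Matrix.mul_assoc, ← Matrix.mul_assoc, J7_sq, Matrix.one_mul]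

theorem star_hf (x y : Fin 7 → E7 R) : star (hf x y) = hf y x := by
  unfold hf
  rw [← Matrix.star_dotProduct_star, star_star, Matrix.star_mulVec, J7_star,
    ← Matrix.dotProduct_mulVec]

theorem hf_add_left (x y z : Fin 7 → E7 R) : hf (x + y) z = hf x z + hf y z := by
  unfold hf
  rw [star_add, add_dotProduct]

theorem hf_add_right (x y z : Fin 7 → E7 R) : hf x (y + z) = hf x y + hf x z := by
  unfold hf
  rw [Matrix.mulVec_add, dotProduct_add]

theorem hf_smul_left (c : E7 R) (x y : Fin 7 → E7 R) : hf (c • x) y = star c * hf x y := by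
  unfold hf
  rw [star_smul, smul_dotProduct, smul_eq_mul]

theorem hf_smul_right (c : E7 R) (x y : Fin 7 → E7 R) : hf x (c • y) = c * hf x y := by
  unfold hf
  rw [Matrix.mulVec_smul, dotProduct_smul, smul_eq_mul]

@[simp] theorem hf_zero_left (x : Fin 7 → E7 R) : hf 0 x = 0 := by
  simp [hf]

@[simp] theorem hf_zero_right (x : Fin 7 → E7 R) : hf x 0 = 0 := by
  simp [hf]

theorem hf_apply (x y : Fin 7 → E7 R) : hf x y = ∑ j, star (x j) * y j.rev := by
  unfold hf dotProduct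
  refine Finset.sum_congr rfl fun j _ => ?_
  rw [Matrix.mulVec, dotProduct, Finset.sum_eq_single j.rev]
  · simp [J7]
  · intro b _ hb
    simp [J7, hb]
  · intro h
    exact absurd (Finset.mem_univ _) h

/-- A star-fixed element of `ℚ₇(√-7)` is in `ℚ₇`. -/
theorem eq_algebraMap_re {z : E7 Q7} (h : star z = z) : z = algebraMap Q7 (E7 Q7) z.re := by
  have h2 := congrArg QuadraticAlgebra.im h
  rw [QuadraticAlgebra.im_star] at h2
  have h3 : z.im = 0 := by
    have h4 : (2 : Q7) * z.im = 0 := by linear_combination -h2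
    exact (mul_eq_zero.1 h4).resolve_left (by norm_num)
  ext
  · simp
  · simpa using h3

/-! ### Integrality -/

/-- Integral elements of `ℚ₇(√-7)`. -/
def OO (z : E7 Q7) : Prop := ‖z.re‖ ≤ 1 ∧ ‖z.im‖ ≤ 1

theorem OO.add {y z : E7 Q7} (hy : OO y) (hz : OO z) : OO (y + z) :=
  ⟨(IsUltrametricDist.norm_add_le_max _ _).trans (max_le hy.1 hz.1),
    (IsUltrametricDist.norm_add_le_max _ _).trans (max_le hy.2 hz.2)⟩

theorem OO.neg {z : E7 Q7} (hz : OO z) : OO (-z) := by
  refine ⟨?_, ?_⟩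
  · rw [QuadraticAlgebra.re_neg, norm_neg]
    exact hz.1
  · rw [QuadraticAlgebra.im_neg, norm_neg]
    exact hz.2

theorem OO.sub {y z : E7 Q7} (hy : OO y) (hz : OO z) : OO (y - z) := by
  rw [sub_eq_add_neg]
  exact hy.add hz.neg

theorem OO.mul {y z : E7 Q7} (hy : OO y) (hz : OO z) : OO (y * z) := by
  have h7 : ‖(-7 : Q7)‖ ≤ 1 := by
    rw [norm_neg, norm_seven]
    norm_num
  refine ⟨?_, ?_⟩
  · rw [QuadraticAlgebra.re_mul]
    refine (IsUltrametricDist.norm_add_le_max _ _).trans (max_le ?_ ?_)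
    · rw [norm_mul]
      exact mul_le_one₀ hy.1 (norm_nonneg _) hz.1
    · rw [norm_mul, norm_mul]
      exact mul_le_one₀ (mul_le_one₀ h7 (norm_nonneg _) hy.2) (norm_nonneg _) hz.2
  · rw [QuadraticAlgebra.im_mul]
    refine (IsUltrametricDist.norm_add_le_max _ _).trans (max_le ?_ ?_)
    · refine (IsUltrametricDist.norm_add_le_max _ _).trans (max_le ?_ ?_)
      · rw [norm_mul]
        exact mul_le_one₀ hy.1 (norm_nonneg _) hz.2
      · rw [norm_mul]
        exact mul_le_one₀ hy.2 (norm_nonneg _) hz.1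
    · simp

theorem OO.star {z : E7 Q7} (hz : OO z) : OO (star z) := by
  refine ⟨?_, ?_⟩
  · rw [QuadraticAlgebra.re_star, zero_mul, add_zero]
    exact hz.1
  · rw [QuadraticAlgebra.im_star, norm_neg]
    exact hz.2

theorem OO_zero : OO 0 := by simp [OO]

theorem OO.sum {ι : Type} {s : Finset ι} {f : ι → E7 Q7} (h : ∀ i ∈ s, OO (f i)) :
    OO (∑ i ∈ s, f i) := by
  classical
  induction s using Finset.induction_on with
  | empty =>
    rw [Finset.sum_empty]
    exact OO_zero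
  | insert a s ha ih =>
    rw [Finset.sum_insert ha]
    exact (h a (Finset.mem_insert_self _ _)).add (ih fun i hi => h i (Finset.mem_insert_of_mem hi))

/-- The reduction of `ℤ₇[√-7]` modulo `√-7`. -/
noncomputable def rd : E7 Z7 →+* ZMod 7 where
  toFun z := (PadicInt.toZMod z.re : ZMod (p7 : ℕ))
  map_one' := map_one (PadicInt.toZMod (p := (p7 : ℕ)))
  map_zero' := map_zero (PadicInt.toZMod (p := (p7 : ℕ)))
  map_add' x y := map_add (PadicInt.toZMod (p := (p7 : ℕ))) _ _
  map_mul' x y := by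
    have h7 : (PadicInt.toZMod (-7 : Z7) : ZMod (p7 : ℕ)) = 0 := by
      rw [map_neg, map_ofNat]
      decide
    have h := map_add (PadicInt.toZMod (p := (p7 : ℕ))) (x.re * y.re) (-7 * x.im * y.im)
    rw [map_mul, map_mul, map_mul, h7, zero_mul, zero_mul, add_zero] at h
    exact h

/-- The reduction of `7`-adic integers modulo seven. -/
noncomputable def toZ : Z7 →+* ZMod 7 := (PadicInt.toZMod : ℤ_[p7] →+* ZMod (p7 : ℕ))

theorem rd_apply (z : E7 Z7) : rd z = toZ z.re := rfl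

theorem toZ_eq_zero {x : Z7} : toZ x = 0 ↔ ‖x‖ < 1 := by
  have h : toZ x = 0 ↔ x ∈ RingHom.ker (PadicInt.toZMod (p := (p7 : ℕ))) := Iff.rfl
  rw [h, PadicInt.ker_toZMod, PadicInt.maximalIdeal_eq_span_p, Ideal.mem_span_singleton,
    ← PadicInt.norm_lt_one_iff_dvd]

/-- The Legendre symbol modulo seven. -/
def leg (x : ZMod 7) : ℤ := (![0, 1, 1, -1, 1, -1, -1] : Fin 7 → ℤ) x

theorem leg_mul : ∀ x y : ZMod 7, leg (x * y) = leg x * leg y := by decide

theorem leg_eq_zero : ∀ x : ZMod 7, leg x = 0 ↔ x = 0 := by decide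

theorem leg_sq : ∀ x : ZMod 7, x ≠ 0 → leg (x * x) = 1 := by decide

/-- The classes of the norms of the seven eigenvectors of `B` modulo seven. -/
def dl : Fin 7 → ℤ := ![1, -1, 1, 1, 1, 1, 1]

/-- The matrix `B` modulo seven. -/
def B7 : Matrix (Fin 7) (Fin 7) (ZMod 7) := Bm.map (Int.castRingHom (ZMod 7))

/-- Inclusion of `ℤ₇[√-7]` in `ℚ₇(√-7)`. -/
noncomputable def io : E7 Z7 →+* E7 Q7 := E7.map (algebraMap Z7 Q7)

/-- Inclusion of matrices over `ℤ₇[√-7]`. -/
noncomputable def mio (B : M7 (E7 Z7)) : M7 (E7 Q7) := mapM (algebraMap Z7 Q7) B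

theorem exists_io {z : E7 Q7} (hz : OO z) : ∃ y : E7 Z7, io y = z :=
  ⟨⟨⟨z.re, hz.1⟩, ⟨z.im, hz.2⟩⟩, rfl⟩

theorem io_injective : Function.Injective io := fun x y h => by
  have h1 := congrArg QuadraticAlgebra.re h
  have h2 := congrArg QuadraticAlgebra.im h
  exact QuadraticAlgebra.ext (Subtype.ext h1) (Subtype.ext h2)

theorem io_star (z : E7 Z7) : io (star z) = star (io z) := E7.map_star _ _

theorem OO_io (z : E7 Z7) : OO (io z) := ⟨z.re.2, z.im.2⟩

/-! ### Weight bases -/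

end general

theorem isUnit_int {F : Type} [Field F] [CharZero F] : ∀ n : ℤ, n ≠ 0 → IsUnit (n : F) :=
  fun _ hn => isUnit_iff_ne_zero.2 (Int.cast_ne_zero.2 hn)

/-- A weight basis of `H`: the columns of the invertible matrix `P` are eigenvectors of `H` with
the integers `a i` as eigenvalues. -/
structure WB {R : Type} [CommRing R] (H : M7 (E7 R)) where
  /-- the matrix of the basis -/
  P : M7 (E7 R)
  /-- the inverse of `P` -/
  Q : M7 (E7 R)
  /-- the weights -/
  a : Fin 7 → ℤ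
  PQ : P * Q = 1
  QP : Q * P = 1
  HP : H * P = P * Matrix.diagonal (fun i => (a i : E7 R))

/-- The matrix of `T` in the weight basis. -/
def WB.co {R : Type} [CommRing R] {H : M7 (E7 R)} (w : WB H) (T : M7 (E7 R)) : M7 (E7 R) :=
  w.Q * T * w.P

end Pool.Agent.MPabcfcd.Loc
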