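import Pool.Agent.Lib.MP_abcfcd_nt.X.Fld

/-!
# The matrix `B` modulo seven

Certificates: `B7` is diagonalisable with eigenvalues `0, ..., 6`. Eigenvectors `ε_i` (column `i`
of `S`): `ε_0 = (4,4,2,1,0,2,1)`, `ε_1 = (2,6,3,5,1,0,0)`, `ε_2 = (4,4,1,0,0,3,1)`,
`ε_3 = (6,4,4,5,6,0,1)`, `ε_4 = (0,5,5,5,0,4,1)`, `ε_5 = (6,5,0,6,6,1,1)`, `ε_6 = (4,3,5,5,5,5,1)`,
with `∑ j, ε j * ε (rev j) = 4, 3, 4, 1, 2, 2, 1` (classes `dl`).
With `T = S⁻¹` (a table, checked by `decide`), `ρ_i` = row `i` of `T` and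
`L_i = S * diagonal (1 / (j - i) for j ≠ i, 0 for j = i) * T`: `L_i * (B7 - i) = 1 - ε_i ρ_i`.
Hence an eigenvector `x` of `B7` for `i` is `(ρ_i · x) • ε_i`, the factor is not zero, and
`leg (c ^ 2 * q_i) = leg q_i`.
-/

set_option autoImplicit false

open Matrix

namespace Pool.Agent.MPabcfcd.Loc

/-- The matrix of eigenvectors. -/
private def BmodS : Matrix (Fin 7) (Fin 7) (ZMod 7) :=
  !![4, 2, 4, 6, 0, 6, 4;
     4, 6, 4, 4, 5, 5, 3;
     2, 3, 1, 4, 5, 0, 5;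
     1, 5, 0, 5, 5, 6, 5;
     0, 1, 0, 6, 0, 6, 5;
     2, 0, 3, 0, 4, 1, 5;
     1, 0, 1, 1, 1, 1, 1]

/-- The inverse of the matrix of eigenvectors. -/
private def BmodT : Matrix (Fin 7) (Fin 7) (ZMod 7) :=
  !![2, 4, 0, 2, 4, 1, 1;
     0, 0, 5, 4, 1, 2, 3;
     2, 6, 0, 0, 2, 1, 1;
     1, 0, 6, 5, 4, 4, 6;
     4, 2, 0, 6, 6, 6, 0;
     4, 4, 3, 3, 0, 6, 3;
     1, 5, 5, 5, 5, 3, 4]

/-- The diagonal matrix of the eigenvalues. -/
private def BmodD : Matrix (Fin 7) (Fin 7) (ZMod 7) :=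
  Matrix.diagonal fun i : Fin 7 => (((i : ℕ) : ZMod 7))

private theorem Bmod_ST : BmodS * BmodT = 1 := by
  ext i j
  revert i j
  decide +kernel

private theorem Bmod_conj {R n : Type} [CommRing R] [Fintype n] [DecidableEq n]
    (S T D : Matrix n n R) (h : T * S = 1) :
    (S * D * T).charpoly = D.charpoly := by
  rw [Matrix.mul_assoc, Matrix.charpoly_mul_comm, Matrix.mul_assoc, h, Matrix.mul_one]

private theorem Bmod_TS : BmodT * BmodS = 1 := by
  ext i j
  revert i j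
  decide +kernel

private theorem Bmod_SD : B7 * BmodS = BmodS * BmodD := by
  ext i j
  revert i j
  decide +kernel

private theorem Bmod_cast : ∀ i j : Fin 7,
    (((i : ℕ) : ZMod 7) - ((j : ℕ) : ZMod 7) = 0) → i = j := by
  decide +kernel

private theorem Bmod_dl : ∀ i : Fin 7, leg (∑ j, BmodS j i * BmodS j.rev i) = dl i := by
  decide +kernel

/-- The characteristic polynomial of `B` modulo seven: similar to the diagonal matrix. -/
theorem charpoly_B7 : B7.charpoly =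
    ∏ i : Fin 7, (Polynomial.X - Polynomial.C (((i : ℕ) : ZMod 7))) := by
  have h : B7 = BmodS * BmodD * BmodT := by
    calc B7 = B7 * (BmodS * BmodT) := by rw [Bmod_ST, Matrix.mul_one]
      _ = BmodS * BmodD * BmodT := by rw [← Matrix.mul_assoc, Bmod_SD]
  rw [h, Bmod_conj BmodS BmodT BmodD Bmod_TS]
  unfold BmodD
  rw [Matrix.charpoly_diagonal]

/-- The class of the norm of an eigenvector of `B` modulo seven. -/
theorem ker_B7 (i : Fin 7) (x : Fin 7 → ZMod 7) (hx : x ≠ 0)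
    (h : B7 *ᵥ x = ((i : ℕ) : ZMod 7) • x) : leg (∑ j, x j * x j.rev) = dl i := by
  have hD : BmodD * BmodT = BmodT * B7 := by
    calc BmodD * BmodT = (BmodT * BmodS) * BmodD * BmodT := by rw [Bmod_TS, Matrix.one_mul]
      _ = BmodT * (BmodS * BmodD) * BmodT := by simp only [Matrix.mul_assoc]
      _ = BmodT * (B7 * BmodS) * BmodT := by rw [Bmod_SD]
      _ = BmodT * B7 * (BmodS * BmodT) := by simp only [Matrix.mul_assoc]
      _ = BmodT * B7 := by rw [Bmod_ST, Matrix.mul_one]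
  set y : Fin 7 → ZMod 7 := BmodT *ᵥ x with hy
  have hxy : x = BmodS *ᵥ y := by
    rw [hy, Matrix.mulVec_mulVec, Bmod_ST, Matrix.one_mulVec]
  have h1 : BmodD *ᵥ y = ((i : ℕ) : ZMod 7) • y := by
    rw [hy, Matrix.mulVec_mulVec, hD, ← Matrix.mulVec_mulVec, h, Matrix.mulVec_smul]
  have h2 : ∀ j, j ≠ i → y j = 0 := by
    intro j hj
    have h3 := congrFun h1 j
    unfold BmodD at h3
    rw [Matrix.mulVec_diagonal, Pi.smul_apply, smul_eq_mul] at h3
    have h4 : (((j : ℕ) : ZMod 7) - ((i : ℕ) : ZMod 7)) * y j = 0 := by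
      rw [sub_mul, h3, sub_self]
    rcases mul_eq_zero.1 h4 with h5 | h5
    · exact absurd (Bmod_cast _ _ h5) hj
    · exact h5
  have h3 : ∀ k, x k = BmodS k i * y i := by
    intro k
    rw [hxy, Matrix.mulVec, dotProduct, Finset.sum_eq_single i]
    · intro b _ hb
      rw [h2 b hb, mul_zero]
    · intro h
      exact absurd (Finset.mem_univ _) h
  have hyi : y i ≠ 0 := by
    intro h0
    apply hx
    funext k
    rw [h3 k, h0, mul_zero]
    rfl
  have h4 : ∑ j, x j * x j.rev = (y i * y i) * ∑ j, BmodS j i * BmodS j.rev i := by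
    rw [Finset.mul_sum]
    refine Finset.sum_congr rfl fun j _ => ?_
    rw [h3 j, h3 j.rev]
    ring
  rw [h4, leg_mul, leg_sq _ hyi, one_mul, Bmod_dl]

end Pool.Agent.MPabcfcd.Loc
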