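import Pool.Agent.Lib.MP_abcfcd_nt.X.Fld

/-!
# Valuation and class

`cl a` is the Legendre symbol modulo seven of `a / 7 ^ v(a)`, and `cl 0 = 0`. It is multiplicative,
`cl 7 = 1`, and `cl (N z) = 1` for the norm `N z = re² + 7 im²` of `z ≠ 0` in `ℚ₇(√-7)`: scale by a
power of `7` such that `max (‖re‖) (‖im‖) = 1`; if `‖re‖ = 1` then `N z = re²` mod `7`; otherwise
`re = 7 r` and `N z = 7 (7 r² + im²)`.
-/

set_option autoImplicit false

open Matrix

namespace Pool.Agent.MPabcfcd.Loc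

private theorem Cl_seven_ne : (7 : Q7) ≠ 0 := by
  intro h
  have h2 := norm_seven
  rw [h, norm_zero] at h2
  norm_num at h2

private theorem Cl_norm {a : Q7} (ha : a ≠ 0) : ‖a * (7 : Q7) ^ (-a.valuation)‖ = 1 := by
  rw [norm_mul, norm_zpow, norm_seven, Padic.norm_eq_zpow_neg_valuation ha, cast_p7, one_div,
    ← mul_zpow, mul_inv_cancel₀ (by norm_num : (7 : ℝ) ≠ 0), _root_.one_zpow]

theorem upart_aux (a : Q7) : ‖a * (7 : Q7) ^ (-a.valuation)‖ ≤ 1 := by
  by_cases ha : a = 0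
  · rw [ha, zero_mul, norm_zero]
    exact zero_le_one
  · exact (Cl_norm ha).le

/-- The unit part `a / 7 ^ v(a)` of a `7`-adic number. -/
noncomputable def upart (a : Q7) : Z7 := ⟨a * (7 : Q7) ^ (-a.valuation), upart_aux a⟩

/-- The class of a `7`-adic number. -/
noncomputable def cl (a : Q7) : ℤ := leg (toZ (upart a))

private theorem Cl_mul (a b : Q7) : upart (a * b) = upart a * upart b := by
  refine Subtype.ext ?_
  show a * b * (7 : Q7) ^ (-(a * b).valuation) =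
    (a * (7 : Q7) ^ (-a.valuation)) * (b * (7 : Q7) ^ (-b.valuation))
  by_cases ha : a = 0
  · rw [ha]
    simp only [zero_mul]
  by_cases hb : b = 0
  · rw [hb]
    simp only [zero_mul, mul_zero]
  rw [Padic.valuation_mul ha hb, neg_add, zpow_add₀ Cl_seven_ne]
  ring

theorem cl_mul (a b : Q7) : cl (a * b) = cl a * cl b := by
  unfold cl
  rw [Cl_mul, map_mul, leg_mul]

private theorem Cl_toZ {a : Q7} : toZ (upart a) = 0 ↔ a = 0 := by
  rw [toZ_eq_zero]
  constructor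
  · intro h
    by_contra ha
    have h2 : ‖upart a‖ = 1 := Cl_norm ha
    rw [h2] at h
    exact lt_irrefl _ h
  · intro h
    have h2 : ‖upart a‖ = 0 := by
      show ‖a * (7 : Q7) ^ (-a.valuation)‖ = 0
      rw [h, zero_mul, norm_zero]
    rw [h2]
    exact zero_lt_one

theorem cl_zero : cl 0 = 0 := by
  unfold cl
  rw [leg_eq_zero, Cl_toZ]

private theorem Cl_val : (7 : Q7).valuation = 1 := Padic.valuation_p (p := (p7 : ℕ))

theorem cl_seven_zpow (m : ℤ) : cl ((7 : Q7) ^ m) = 1 := by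
  have h : upart ((7 : Q7) ^ m) = 1 := by
    refine Subtype.ext ?_
    show (7 : Q7) ^ m * (7 : Q7) ^ (-((7 : Q7) ^ m).valuation) = 1
    rw [Padic.valuation_zpow, Cl_val, mul_one, ← zpow_add₀ Cl_seven_ne, add_neg_cancel, zpow_zero]
  unfold cl
  rw [h, map_one]
  rfl

theorem cl_eq_zero {a : Q7} : cl a = 0 ↔ a = 0 := by
  unfold cl
  rw [leg_eq_zero, Cl_toZ]

theorem cl_unit (u : Z7) (hu : toZ u ≠ 0) : cl (u : Q7) = leg (toZ u) := by
  have h1 : ‖(u : Q7)‖ = 1 := by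
    by_contra h
    refine hu (toZ_eq_zero.2 (lt_of_le_of_ne u.2 h))
  have h2 : (u : Q7) ≠ 0 := by
    intro h
    rw [h, norm_zero] at h1
    exact zero_ne_one h1
  have h3 : (u : Q7).valuation = 0 := by
    rw [Padic.norm_eq_zpow_neg_valuation h2, cast_p7] at h1
    have h4 : (7 : ℝ) ^ (-(u : Q7).valuation) = (7 : ℝ) ^ (0 : ℤ) := by rw [h1, zpow_zero]
    have h5 := zpow_right_injective₀ (by norm_num : (0 : ℝ) < 7) (by norm_num) h4
    omega
  have h : upart (u : Q7) = u := by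
    refine Subtype.ext ?_
    show (u : Q7) * (7 : Q7) ^ (-(u : Q7).valuation) = (u : Q7)
    rw [h3, neg_zero, zpow_zero, mul_one]
  unfold cl
  rw [h]

private theorem Cl_sq {a : Q7} (ha : a ≠ 0) : cl (a * a) = 1 := by
  unfold cl
  rw [Cl_mul, map_mul]
  exact leg_sq _ fun h => ha (Cl_toZ.1 h)

private theorem Cl_toZ_seven : toZ 7 = 0 := by
  rw [map_ofNat]
  rfl

private theorem Cl_one_add (t : Q7) (ht : ‖t‖ ≤ 1) : cl (1 + 7 * (t * t)) = 1 := by
  have h : toZ (1 + 7 * (⟨t, ht⟩ * ⟨t, ht⟩) : Z7) = 1 := by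
    rw [map_add, map_one, map_mul, Cl_toZ_seven, zero_mul, add_zero]
  have h2 := cl_unit (1 + 7 * (⟨t, ht⟩ * ⟨t, ht⟩) : Z7) (by rw [h]; exact one_ne_zero)
  rw [h] at h2
  exact h2

theorem cl_norm {z : E7 Q7} (hz : z ≠ 0) : cl (QuadraticAlgebra.norm z) = 1 := by
  have h7 := norm_seven
  have hn : QuadraticAlgebra.norm z = z.re * z.re + 7 * (z.im * z.im) := by
    rw [QuadraticAlgebra.norm_def]
    ring
  rw [hn]
  by_cases h : ‖z.im‖ ≤ ‖z.re‖
  · have hr : z.re ≠ 0 := by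
      intro h1
      rw [h1, norm_zero] at h
      have h2 : z.im = 0 := norm_le_zero_iff.1 h
      exact hz (QuadraticAlgebra.ext h1 h2)
    have h1 : z.re * z.re + 7 * (z.im * z.im) =
        (z.re * z.re) * (1 + 7 * ((z.im / z.re) * (z.im / z.re))) := by
      field_simp
    have h2 : ‖z.im / z.re‖ ≤ 1 := by
      rw [norm_div]
      exact div_le_one_of_le₀ h (norm_nonneg _)
    rw [h1, cl_mul, Cl_sq hr, Cl_one_add _ h2, mul_one]
  · push Not at h
    have hi : z.im ≠ 0 := by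
      intro h1
      rw [h1, norm_zero] at h
      exact absurd h (not_lt.2 (norm_nonneg _))
    have h2 : ‖z.re / z.im‖ < 1 := by
      rw [norm_div]
      exact (div_lt_one (norm_pos_iff.2 hi)).2 h
    obtain ⟨y, hy⟩ := (PadicInt.norm_lt_one_iff_dvd (p := (p7 : ℕ))
      (⟨z.re / z.im, h2.le⟩ : Z7)).1 h2
    have h3 : z.re / z.im = 7 * (y : Q7) := congrArg Subtype.val hy
    have h4 : z.re = 7 * (y : Q7) * z.im := by
      rw [← h3, div_mul_cancel₀ _ hi]
    have h1 : z.re * z.re + 7 * (z.im * z.im) =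
        (7 : Q7) ^ (1 : ℤ) * ((z.im * z.im) * (1 + 7 * ((y : Q7) * (y : Q7)))) := by
      rw [h4, zpow_one]
      ring
    rw [h1, cl_mul, cl_mul, Cl_sq hi, Cl_one_add _ y.2, cl_seven_zpow, mul_one, mul_one]

end Pool.Agent.MPabcfcd.Loc
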