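import Pool.Agent.Lib.MP_abcfcd_nt.X.WtG

/-!
# The norm of the vector of weight zero

If there is exactly one index `z` with `a z = 0`, then by `WB.perm` there are three positive and
three negative weights. In the order (positive, negative, `z`) the Gram matrix is
`[[0, M, 0], [Mᴴ, 0, 0], [0, 0, g]]` (`gm_zero`), with `M` of size three, so
`det gm = - det M * star (det M) * g` and `det gm = - det P * star (det P)`. So
`g = y * star y` with `y = det P / det M`.
-/

set_option autoImplicit false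

open Matrix

namespace Pool.Agent.MPabcfcd.Loc

/-- The order (positive, negative, zero) of the weights. -/
private def gramFun (a : Fin 7 → ℤ) (σ : Equiv.Perm (Fin 7)) (z : Fin 7) :
    ({i // 0 < a i} ⊕ {i // 0 < a i}) ⊕ Unit → Fin 7
  | Sum.inl (Sum.inl i) => i
  | Sum.inl (Sum.inr i) => σ i
  | Sum.inr _ => z

private theorem gramFun_bij (a : Fin 7 → ℤ) (σ : Equiv.Perm (Fin 7)) (z : Fin 7)
    (hσ : ∀ i, a (σ i) = -a i) (hz : a z = 0) (h1 : ∀ i, a i = 0 → i = z) :
    Function.Bijective (gramFun a σ z) := by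
  constructor
  · rintro ((⟨i, hi⟩ | ⟨i, hi⟩) | x) ((⟨j, hj⟩ | ⟨j, hj⟩) | y) h
    all_goals simp only [gramFun] at h
    · subst h; rfl
    · exfalso
      rw [h, hσ] at hi
      omega
    · exfalso
      rw [h, hz] at hi
      omega
    · exfalso
      rw [← h, hσ] at hj
      omega
    · have h2 := σ.injective h
      subst h2; rfl
    · exfalso
      have h2 := hσ i
      rw [h, hz] at h2
      omega
    · exfalso
      rw [← h, hz] at hj
      omega
    · exfalso
      have h2 := hσ j
      rw [← h, hz] at h2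
      omega
    · rfl
  · intro j
    rcases lt_trichotomy (a j) 0 with h | h | h
    · have h2 := hσ (σ.symm j)
      rw [Equiv.apply_symm_apply] at h2
      exact ⟨Sum.inl (Sum.inr ⟨σ.symm j, by omega⟩), σ.apply_symm_apply j⟩
    · exact ⟨Sum.inr (), (h1 j h).symm⟩
    · exact ⟨Sum.inl (Sum.inl ⟨j, h⟩), rfl⟩

private theorem exists_gramEquiv (a : Fin 7 → ℤ) (σ : Equiv.Perm (Fin 7)) (z : Fin 7)
    (hσ : ∀ i, a (σ i) = -a i) (hz : a z = 0) (h1 : ∀ i, a i = 0 → i = z) :
    ∃ e : (Fin 3 ⊕ Fin 3) ⊕ Unit ≃ Fin 7, (∀ i, 0 < a (e (Sum.inl (Sum.inl i)))) ∧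
      (∀ i, a (e (Sum.inl (Sum.inr i))) < 0) ∧ e (Sum.inr ()) = z := by
  classical
  have hb := gramFun_bij a σ z hσ hz h1
  have hc : Fintype.card {i // 0 < a i} = 3 := by
    have h2 := Fintype.card_of_bijective hb
    simp only [Fintype.card_sum, Fintype.card_unit, Fintype.card_fin] at h2
    omega
  let ε : Fin 3 ≃ {i // 0 < a i} := (Fintype.equivFinOfCardEq hc).symm
  refine ⟨(Equiv.sumCongr (Equiv.sumCongr ε ε) (Equiv.refl Unit)).trans
    (Equiv.ofBijective _ hb), ?_, ?_, ?_⟩
  · intro i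
    exact (ε i).2
  · intro i
    show a (σ (ε i)) < 0
    rw [hσ]
    have := (ε i).2
    omega
  · rfl

private theorem det_anti {R : Type} [CommRing R] (M N : Matrix (Fin 3) (Fin 3) R) :
    (Matrix.fromBlocks 0 M N 0).det = -(M.det * N.det) := by
  have h := Matrix.det_permute' (Equiv.sumComm (Fin 3) (Fin 3)) (Matrix.fromBlocks 0 M N 0)
  have h2 : (Matrix.fromBlocks 0 M N 0).submatrix id (Equiv.sumComm (Fin 3) (Fin 3))
      = Matrix.fromBlocks M 0 0 N := by
    ext i j
    rcases i with i | i <;> rcases j with j | j <;> rfl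
  have h3 : Equiv.Perm.sign (Equiv.sumComm (Fin 3) (Fin 3) : Equiv.Perm (Fin 3 ⊕ Fin 3)) = -1 := by
    decide
  rw [h2, Matrix.det_fromBlocks_zero₂₁] at h
  rw [h, h3]
  simp

theorem zero_norm {H : M7 (E7 Q7)} (hH : Sk H) (w : WB H) (z : Fin 7) (hz : w.a z = 0)
    (h1 : ∀ i, w.a i = 0 → i = z) :
    ∃ y : E7 Q7, hf (fun k => w.P k z) (fun k => w.P k z) = y * star y := by
  obtain ⟨σ, hσ⟩ := w.perm hH
  obtain ⟨e, e1, e2, e3⟩ := exists_gramEquiv w.a σ z hσ hz h1
  have hZ : ∀ n : ℤ, n ≠ 0 → IsUnit (n : Q7) := isUnit_int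
  have hg := fun i j => w.gm_zero hZ hH i j
  have hst : ∀ i j, w.gm j i = star (w.gm i j) := by
    intro i j
    rw [w.gm_apply, w.gm_apply, star_hf]
  let M : Matrix (Fin 3) (Fin 3) (E7 Q7) := fun i j =>
    w.gm (e (Sum.inl (Sum.inl i))) (e (Sum.inl (Sum.inr j)))
  let g : Matrix Unit Unit (E7 Q7) := fun _ _ => w.gm z z
  have hsub : w.gm.submatrix e e = Matrix.fromBlocks (Matrix.fromBlocks 0 M Mᴴ 0) 0 0 g := by
    refine Matrix.ext fun i j => ?_
    rcases i with (i | i) | i <;> rcases j with (j | j) | j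
    · refine hg _ _ ?_
      have := e1 i
      have := e1 j
      omega
    · rfl
    · refine hg _ _ ?_
      have := e1 i
      have h3 : w.a (e (Sum.inr j)) = 0 := by
        rw [show e (Sum.inr j) = z from e3, hz]
      omega
    · exact hst _ _
    · refine hg _ _ ?_
      have := e2 i
      have := e2 j
      omega
    · refine hg _ _ ?_
      have := e2 i
      have h3 : w.a (e (Sum.inr j)) = 0 := by
        rw [show e (Sum.inr j) = z from e3, hz]
      omega
    · refine hg _ _ ?_
      have := e1 j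
      have h3 : w.a (e (Sum.inr i)) = 0 := by
        rw [show e (Sum.inr i) = z from e3, hz]
      omega
    · refine hg _ _ ?_
      have := e2 j
      have h3 : w.a (e (Sum.inr i)) = 0 := by
        rw [show e (Sum.inr i) = z from e3, hz]
      omega
    · show w.gm (e (Sum.inr i)) (e (Sum.inr j)) = w.gm z z
      rw [show e (Sum.inr i) = z from e3]
  have hgd : g.det = w.gm z z := Matrix.det_unique g
  have hdet : w.gm.det = -(M.det * star M.det) * w.gm z z := by
    rw [← Matrix.det_submatrix_equiv_self e w.gm, hsub, Matrix.det_fromBlocks_zero₂₁, det_anti,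
      Matrix.det_conjTranspose, hgd]
  rw [w.det_gm] at hdet
  have hP : w.P.det ≠ 0 := w.isUnit_det_P.ne_zero
  have hM : M.det ≠ 0 := by
    intro h0
    rw [h0, zero_mul, neg_zero, zero_mul, neg_eq_zero] at hdet
    rcases mul_eq_zero.1 hdet with h4 | h4
    · exact hP h4
    · exact hP (star_eq_zero.1 h4)
  refine ⟨w.P.det / M.det, ?_⟩
  rw [← w.gm_apply]
  have hM2 : star M.det ≠ 0 := fun h => hM (star_eq_zero.1 h)
  have hs : star (w.P.det / M.det) = star w.P.det / star M.det :=
    map_div₀ (starRingEnd (E7 Q7)) _ _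
  rw [hs, div_mul_div_comm, eq_div_iff (mul_ne_zero hM hM2)]
  linear_combination hdet

end Pool.Agent.MPabcfcd.Loc
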