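import Pool.Agent.Lib.MP_abcfcd_nt.X.WtB

/-!
# The Gram matrix of a weight basis
-/

set_option autoImplicit false

open Matrix

namespace Pool.Agent.MPabcfcd.Loc

section generic

variable {R : Type} [CommRing R] {H : M7 (E7 R)} (w : WB H)

/-- The Gram matrix of the weight basis. -/
def WB.gm : M7 (E7 R) := w.Pᴴ * J7 (E7 R) * w.P

theorem WB.gm_apply (i j : Fin 7) :
    w.gm i j = hf (fun k => w.P k i) (fun k => w.P k j) := by
  unfold WB.gm hf
  rw [Matrix.mul_assoc, Matrix.mul_apply]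
  unfold dotProduct
  refine Finset.sum_congr rfl fun k _ => ?_
  rw [Matrix.conjTranspose_apply, Matrix.mul_apply]
  rfl

theorem WB.hf_P (x y : Fin 7 → E7 R) : hf (w.P *ᵥ x) (w.P *ᵥ y) = star x ⬝ᵥ (w.gm *ᵥ y) := by
  unfold WB.gm hf
  rw [Matrix.star_mulVec, ← Matrix.dotProduct_mulVec, Matrix.mulVec_mulVec, Matrix.mulVec_mulVec]

/-- `star (a i) = a i`; `Hᴴ J = - J H` gives `(a i + a j) * gm i j = 0`. -/
theorem WB.gm_zero (hZ : ∀ n : ℤ, n ≠ 0 → IsUnit (n : R)) (hH : Sk H) (i j : Fin 7)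
    (h : w.a i + w.a j ≠ 0) : w.gm i j = 0 := by
  have hJH : J7 (E7 R) * H = -(Hᴴ * J7 (E7 R)) := eq_neg_of_add_eq_zero_right hH
  have h1 : w.gm * Matrix.diagonal (fun i => (w.a i : E7 R))
      = -(Matrix.diagonal (fun i => (w.a i : E7 R)) * w.gm) := by
    have e1 : w.gm * Matrix.diagonal (fun i => (w.a i : E7 R)) = w.Pᴴ * (J7 (E7 R) * H) * w.P := by
      unfold WB.gm
      rw [Matrix.mul_assoc (w.Pᴴ * J7 (E7 R)), ← w.HP]
      simp only [Matrix.mul_assoc]
    have e2 : w.Pᴴ * Hᴴ = Matrix.diagonal (fun i => (w.a i : E7 R)) * w.Pᴴ := by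
      rw [← Matrix.conjTranspose_mul, w.HP, Matrix.conjTranspose_mul,
        Matrix.diagonal_conjTranspose]
      congr 2
      funext i
      exact star_intCast _
    rw [e1, hJH, mul_neg, neg_mul, ← Matrix.mul_assoc, e2]
    unfold WB.gm
    simp only [Matrix.mul_assoc]
  have h2 := congrFun (congrFun h1 i) j
  rw [Matrix.mul_diagonal, Matrix.neg_apply, Matrix.diagonal_mul] at h2
  have h3 : ((w.a i + w.a j : ℤ) : E7 R) * w.gm i j = 0 := by
    push_cast
    linear_combination h2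
  have h4 : IsUnit ((w.a i + w.a j : ℤ) : E7 R) := by
    have h5 := (hZ _ h).map (algebraMap R (E7 R))
    rwa [map_intCast] at h5
  exact (h4.mul_right_eq_zero).1 h3

theorem det_J7 : (J7 (E7 R)).det = -1 := by
  have h1 : J7 (E7 R) = (Fin.revPerm : Equiv.Perm (Fin 7)).permMatrix (E7 R) := by
    ext1 i j
    simp only [J7, Matrix.of_apply, Equiv.Perm.permMatrix, PEquiv.toMatrix_apply,
      Equiv.toPEquiv_apply, Option.mem_def, Option.some.injEq, Fin.revPerm_apply]
    by_cases h : j = i.rev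
    · rw [if_pos h, if_pos h.symm]
    · rw [if_neg h, if_neg (Ne.symm h)]
  have h2 : Equiv.Perm.sign (Fin.revPerm : Equiv.Perm (Fin 7)) = -1 := by decide
  rw [h1, Matrix.det_permutation, h2]
  simp

theorem WB.det_gm : w.gm.det = -(w.P.det * star w.P.det) := by
  unfold WB.gm
  rw [Matrix.det_mul, Matrix.det_mul, det_J7, Matrix.det_conjTranspose]
  ring

theorem WB.isUnit_det_P : IsUnit w.P.det := by
  exact Matrix.isUnit_det_of_right_inverse w.PQ

end generic

section field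

variable {R : Type} [Field R] [CharZero R] [Fact (∀ r : R, r ^ 2 ≠ (-7 : R) + 0 * r)]
  {H : M7 (E7 R)} (w : WB H)

/-- `det gm ≠ 0`, so a term of the Leibniz formula is not zero. -/
theorem WB.perm (hH : Sk H) : ∃ σ : Equiv.Perm (Fin 7), ∀ i, w.a (σ i) = -w.a i := by
  have h1 : w.gm.det ≠ 0 := by
    rw [w.det_gm]
    have h2 : w.P.det ≠ 0 := w.isUnit_det_P.ne_zero
    have h3 : star w.P.det ≠ 0 := by
      rw [Ne, star_eq_zero]
      exact h2
    exact neg_ne_zero.2 (mul_ne_zero h2 h3)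
  rw [Matrix.det_apply] at h1
  obtain ⟨σ, -, hσ⟩ := Finset.exists_ne_zero_of_sum_ne_zero h1
  refine ⟨σ, fun i => ?_⟩
  by_contra hne
  apply hσ
  have h4 : w.gm (σ i) i = 0 := w.gm_zero isUnit_int hH _ _ fun h => hne (by linarith)
  have h5 : ∏ j, w.gm (σ j) j = 0 := Finset.prod_eq_zero (Finset.mem_univ i) h4
  have h6 : Equiv.Perm.sign σ • ∏ j, w.gm (σ j) j = 0 := by
    rw [h5, smul_zero]
  exact h6

end field

end Pool.Agent.MPabcfcd.Loc
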