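import Pool.Agent.Lib.MP_abcfcd_nt.X.Lead
import Pool.Agent.Lib.MP_abcfcd_nt.X.WtG

/-!
# A vector of highest weight with a nonzero moment

`co X ^ d ≠ 0`; it is supported on `a j - a l = -2 d` (`xi_pow`), so on `a j = -d`, `a l = d`. `gm` is
invertible (`WB.det_gm`, `det P` is a unit), so `gm * co X ^ d ≠ 0`, with a nonzero entry `(i, l)`,
`a l = d`, and `a i = d` (`gm_zero`): so `s x y = hf (P x) (X^d P y)` is not zero at some
`x = e_i`, `y = e_l` supported on the weight `d`. Polarisation: if `s v v = 0` for all `v` supported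
on the weight `d`, then `s x y + s y x = 0` and (with `√-7 y`) `√-7 (s x y - s y x) = 0`, so
`s x y = 0`.
-/

set_option autoImplicit false

open Matrix

namespace Pool.Agent.MPabcfcd.Loc

private theorem top_s {H : M7 (E7 Q7)} (w : WB H) (T : M7 (E7 Q7)) (x y : Fin 7 → E7 Q7) :
    hf (w.P *ᵥ x) (T *ᵥ (w.P *ᵥ y)) = star x ⬝ᵥ ((w.gm * w.co T) *ᵥ y) := by
  have h1 : T *ᵥ (w.P *ᵥ y) = w.P *ᵥ (w.co T *ᵥ y) := by
    rw [Matrix.mulVec_mulVec, Matrix.mulVec_mulVec]
    congr 1
    unfold WB.co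
    rw [← Matrix.mul_assoc, ← Matrix.mul_assoc, w.PQ, Matrix.one_mul]
  rw [h1, w.hf_P, Matrix.mulVec_mulVec]

private theorem top_gm {H : M7 (E7 Q7)} (w : WB H) : IsUnit w.gm := by
  rw [Matrix.isUnit_iff_isUnit_det, w.det_gm]
  exact (w.isUnit_det_P.mul w.isUnit_det_P.star).neg

theorem exists_top {H X : M7 (E7 Q7)} (hH : Sk H) (w : WB H) (d : ℕ) (hd : ∀ i, |w.a i| ≤ d)
    (hX2 : X ∈ gr H (-2)) (hXd : X ^ d ≠ 0) :
    ∃ x : Fin 7 → E7 Q7, (∀ i, w.a i ≠ d → x i = 0) ∧
      hf (w.P *ᵥ x) (X ^ d *ᵥ (w.P *ᵥ x)) ≠ 0 := by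
  have hZ : ∀ n : ℤ, n ≠ 0 → IsUnit (n : Q7) := isUnit_int
  have hC := (w.mem_gr_iff hZ X (-2)).1 hX2
  set C := w.co X with hCdef
  have hCd : w.co (X ^ d) = C ^ d := w.co_pow X d
  have hCd0 : C ^ d ≠ 0 := by
    intro h
    apply hXd
    have := w.P_co_Q (X ^ d)
    rw [hCd, h, Matrix.mul_zero, Matrix.zero_mul] at this
    exact this.symm
  have hne : w.gm * C ^ d ≠ 0 := by
    intro h
    apply hCd0
    obtain ⟨u, hu⟩ := top_gm w
    rw [← hu] at h
    have h2 := congrArg (fun M => ((u⁻¹ : (M7 (E7 Q7))ˣ) : M7 (E7 Q7)) * M) h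
    simpa [← Matrix.mul_assoc] using h2
  obtain ⟨i, l, hil⟩ : ∃ i l, (w.gm * C ^ d) i l ≠ 0 := by
    by_contra hcon
    push Not at hcon
    exact hne (by ext i l; simpa using congrArg QuadraticAlgebra.re (hcon i l)
                  ; simpa using congrArg QuadraticAlgebra.im (hcon i l))
  obtain ⟨j, hj1, hj2⟩ : ∃ j, w.gm i j ≠ 0 ∧ (C ^ d) j l ≠ 0 := by
    by_contra hcon
    push Not at hcon
    apply hil
    rw [Matrix.mul_apply]
    refine Finset.sum_eq_zero fun j _ => ?_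
    by_cases h : w.gm i j = 0
    · rw [h, zero_mul]
    · rw [hcon j h, mul_zero]
  have hjl : w.a j - w.a l = -2 * (d : ℤ) := by
    by_contra h
    exact hj2 (xi_pow hC d j l h)
  have hij : w.a i + w.a j = 0 := by
    by_contra h
    exact hj1 (w.gm_zero hZ hH i j h)
  have haj := abs_le.1 (hd j)
  have hal := abs_le.1 (hd l)
  have hl : w.a l = d := by omega
  have hi : w.a i = d := by omega
  by_contra hcon
  push Not at hcon
  have key : ∀ x : Fin 7 → E7 Q7, (∀ k, w.a k ≠ d → x k = 0) →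
      star x ⬝ᵥ ((w.gm * C ^ d) *ᵥ x) = 0 := by
    intro x hx
    have := hcon x hx
    rwa [top_s, hCd] at this
  set G := w.gm * C ^ d with hG
  have hs : ∀ (p q : Fin 7) (α β : E7 Q7),
      star (α • (Pi.single p 1 : Fin 7 → E7 Q7)) ⬝ᵥ (G *ᵥ (β • (Pi.single q 1 : Fin 7 → E7 Q7)))
        = star α * β * G p q := by
    intro p q α β
    rw [star_smul, smul_dotProduct, Matrix.mulVec_smul, dotProduct_smul, Matrix.mulVec_single_one]
    have : star (Pi.single p 1 : Fin 7 → E7 Q7) = Pi.single p 1 := by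
      ext k <;> by_cases hk : k = p
      · subst hk; simp
      · simp [hk]
      · subst hk; simp
      · simp [hk]
    rw [this, single_one_dotProduct]
    simp [smul_eq_mul, mul_assoc]
  have hz : ∀ α β : E7 Q7, star α * α * G i i + star α * β * G i l + star β * α * G l i +
      star β * β * G l l = 0 := by
    intro α β
    have h := key (α • (Pi.single i 1 : Fin 7 → E7 Q7) + β • (Pi.single l 1 : Fin 7 → E7 Q7)) (by
      intro k hk
      have h1 : k ≠ i := fun h => hk (h ▸ hi)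
      have h2 : k ≠ l := fun h => hk (h ▸ hl)
      simp [h1, h2])
    rw [star_add, Matrix.mulVec_add, add_dotProduct, dotProduct_add, dotProduct_add, hs, hs, hs,
      hs] at h
    linear_combination h
  have e1 := hz 1 0
  have e2 := hz 0 1
  have e3 := hz 1 1
  have e4 := hz 1 wE
  rw [star_wE] at e4
  simp only [star_one, star_zero, mul_zero, zero_mul, one_mul, mul_one, add_zero, zero_add]
    at e1 e2 e3 e4
  have hw : (wE : E7 Q7) * wE = -7 := wE_sq
  have e5 : (wE : E7 Q7) * (G i l - G l i) = 0 := by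
    linear_combination e4 - e1 + wE * wE * e2
  have e6 : (7 : E7 Q7) * (G i l - G l i) = 0 := by
    linear_combination (-wE) * e5 + (G i l - G l i) * hw
  have e7 : (14 : E7 Q7) * G i l = 0 := by
    linear_combination e6 + 7 * e3 - 7 * e1 - 7 * e2
  have h14 : (14 : E7 Q7) ≠ 0 := by
    exact_mod_cast (by norm_num : (14 : ℕ) ≠ 0)
  exact hil ((mul_eq_zero.1 e7).resolve_left h14)

end Pool.Agent.MPabcfcd.Loc
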