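import Pool.Agent.Lib.MP_abcfcd_nt.X.Mom
import Pool.Agent.Lib.MP_abcfcd_nt.X.Top
import Pool.Agent.Lib.MP_abcfcd_nt.X.Gram

/-!
# Theorem A: the vector

`x` by `exists_top`, `v = P x`; `moments` with `c = -7 √-7`. The moments vanish for `k < d` and the
moment `d` is `c^d hf v (X^d v) ≠ 0`. If `d ≥ 5` the moment `4` is `0 = 0 * star 0`. If `d = 4`:
`hf v (X^4 v) = hf (X² v) (X² v)` (`adj X = -X`), `X² v = P (co X ^ 2 x)` and `co X ^ 2 x` is supported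
on the weight `0`, so it is `y e_z` and `hf (X² v) (X² v) = star y * y * hf (P e_z) (P e_z)`, a norm by
`zero_norm`; and `c^4 = 7^6 = 7^3 * star (7^3)`.
-/

set_option autoImplicit false

open Matrix

namespace Pool.Agent.MPabcfcd.Loc

private theorem thmA_cne : (-7 * wE : E7 Q7) ≠ 0 := by
  intro h
  have h2 : (49 : E7 Q7) = 0 := by
    linear_combination wE * h + 7 * wE_sq (R := Q7)
  norm_num at h2

private theorem thmA_c4 : (-7 * wE : E7 Q7) ^ 4 = 7 ^ 3 * star (7 ^ 3) := by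
  have h := wE_sq (R := Q7)
  have hs : star (7 ^ 3 : E7 Q7) = 7 ^ 3 := by
    rw [star_pow]
    congr 1
    exact star_ofNat 7
  rw [hs]
  have h2 : (-7 * wE : E7 Q7) ^ 4 = 7 ^ 4 * ((wE * wE) * (wE * wE)) := by ring
  rw [h2, h]
  norm_num

private theorem thmA_mulP {H : M7 (E7 Q7)} (w : WB H) (T : M7 (E7 Q7)) (x : Fin 7 → E7 Q7) :
    T *ᵥ (w.P *ᵥ x) = w.P *ᵥ (w.co T *ᵥ x) := by
  have h : T * w.P = w.P * w.co T := by
    have h2 := w.P_co_Q T
    calc T * w.P = (w.P * w.co T * w.Q) * w.P := by rw [h2]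
      _ = w.P * w.co T * (w.Q * w.P) := by rw [Matrix.mul_assoc]
      _ = w.P * w.co T := by rw [w.QP, Matrix.mul_one]
  rw [Matrix.mulVec_mulVec, Matrix.mulVec_mulVec, h]

theorem exists_vec {H X : M7 (E7 Q7)} (hH : Sk H) (w : WB H) (d : ℕ) (hd4 : 4 ≤ d) (hd6 : d ≤ 6)
    (hw : ∀ i, |w.a i| ≤ d) (hX : Sk X) (hX2 : X ∈ gr H (-2)) (hXd : X ^ d ≠ 0)
    (h52 : d = 4 → ∃ z, w.a z = 0 ∧ ∀ i, w.a i = 0 → i = z) (B : M7 (E7 Q7))
    (hB : ∀ i j, w.a i - w.a j ≤ -2 → w.co B i j = w.co ((-7 * wE : E7 Q7) • X) i j) :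
    ∃ v : Fin 7 → E7 Q7, (∀ k < 4, hf v (B ^ k *ᵥ v) = 0) ∧
      (∃ k, 4 ≤ k ∧ k ≤ 6 ∧ hf v (B ^ k *ᵥ v) ≠ 0) ∧
      ∃ z : E7 Q7, hf v (B ^ 4 *ᵥ v) = z * star z := by
  obtain ⟨x, hx, hne⟩ := exists_top hH w d hw hX2 hXd
  obtain ⟨m1, m2⟩ := moments hH w d hX2 B (-7 * wE) hB x hx
  refine ⟨w.P *ᵥ x, fun k hk => m1 k (lt_of_lt_of_le hk hd4), ⟨d, hd4, hd6, ?_⟩, ?_⟩
  · rw [m2]
    exact mul_ne_zero (pow_ne_zero _ thmA_cne) hne
  · rcases Nat.lt_or_ge 4 d with h4 | h4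
    · exact ⟨0, by rw [m1 4 h4, zero_mul]⟩
    · have hd : d = 4 := le_antisymm h4 hd4
      subst hd
      obtain ⟨z, hz, hz1⟩ := h52 rfl
      obtain ⟨y', hy'⟩ := zero_norm hH w z hz hz1
      have hco : ∀ i j, w.a i - w.a j ≠ -2 → w.co X i j = 0 := by
        exact (w.mem_gr_iff isUnit_int X (-2)).1 hX2
      set y : E7 Q7 := (w.co X ^ 2 *ᵥ x) z with hy
      have hvec : w.co X ^ 2 *ᵥ x = Pi.single z y := by
        funext i
        by_cases hi : i = z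
        · subst hi
          rw [Pi.single_eq_same]
        · rw [Pi.single_eq_of_ne hi]
          show ∑ j, (w.co X ^ 2) i j * x j = 0
          refine Finset.sum_eq_zero fun j _ => ?_
          by_cases hj : w.a j = (4 : ℕ)
          · rw [xi_pow hco 2 i j ?_, zero_mul]
            intro h
            apply hi
            apply hz1
            push_cast at h hj
            omega
          · rw [hx j hj, mul_zero]
      have hX2v : X ^ 2 *ᵥ (w.P *ᵥ x) = y • (fun k => w.P k z) := by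
        rw [thmA_mulP, w.co_pow, hvec, Matrix.mulVec_single]
        funext k
        simp [mul_comm]
      have h1 : hf (w.P *ᵥ x) (X ^ 4 *ᵥ (w.P *ᵥ x))
          = hf (X ^ 2 *ᵥ (w.P *ᵥ x)) (X ^ 2 *ᵥ (w.P *ᵥ x)) := by
        rw [hf_adj (X ^ 2), adj_pow, (sk_iff X).1 hX, neg_sq,
          Matrix.mulVec_mulVec _ (X ^ 2) (X ^ 2), ← pow_add]
      refine ⟨7 ^ 3 * (y * y'), ?_⟩
      rw [m2, thmA_c4, h1, hX2v, hf_smul_left, hf_smul_right, hy']
      rw [StarMul.star_mul (7 ^ 3 : E7 Q7) (y * y'), StarMul.star_mul y y']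
      ring

end Pool.Agent.MPabcfcd.Loc
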