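import Pool.Agent.Lib.MP_abcfcd_nt.X.Fld

/-!
# The valuation of `ℚ₇(√-7)`

`‖re² + 7 im²‖ = max (‖re‖²) (‖im‖² / 7)` because the two terms have valuations of different parity.
So `z` is integral if and only if `‖N z‖ ≤ 1` (the norm of `im` is a power of seven, so
`‖im‖² ≤ 7` implies `‖im‖ ≤ 1`).
-/

set_option autoImplicit false

open Matrix

namespace Pool.Agent.MPabcfcd.Loc

private theorem norm_zpow {x : Q7} (hx : x ≠ 0) : ∃ k : ℤ, ‖x‖ = (7 : ℝ) ^ k := by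
  refine ⟨-x.valuation, ?_⟩
  have h2 := Padic.norm_eq_zpow_neg_valuation hx
  rw [cast_p7] at h2
  exact h2

theorem norm_norm_eq (z : E7 Q7) :
    ‖QuadraticAlgebra.norm z‖ = max (‖z.re‖ ^ 2) (‖z.im‖ ^ 2 / 7) := by
  have h0 : QuadraticAlgebra.norm z = z.re * z.re + 7 * (z.im * z.im) := by
    rw [QuadraticAlgebra.norm_def]
    ring
  have h1 : ‖z.re * z.re‖ = ‖z.re‖ ^ 2 := by rw [norm_mul, pow_two]
  have h2 : ‖7 * (z.im * z.im)‖ = ‖z.im‖ ^ 2 / 7 := by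
    rw [norm_mul, norm_mul, norm_seven]
    ring
  rw [h0]
  by_cases hr : z.re = 0
  · rw [hr]
    simp only [mul_zero, zero_add, norm_zero, ne_eq, OfNat.ofNat_ne_zero, not_false_eq_true,
      zero_pow]
    rw [h2, max_eq_right (by positivity)]
  by_cases hi : z.im = 0
  · rw [hi]
    simp only [mul_zero, add_zero, norm_zero, ne_eq, OfNat.ofNat_ne_zero, not_false_eq_true,
      zero_pow, zero_div]
    rw [h1, max_eq_left (by positivity)]
  have hne : ‖z.re * z.re‖ ≠ ‖7 * (z.im * z.im)‖ := by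
    rw [h1, h2]
    obtain ⟨k, hk⟩ := norm_zpow hr
    obtain ⟨l, hl⟩ := norm_zpow hi
    rw [hk, hl]
    intro h
    have h3 : (7 : ℝ) ^ (2 * k + 1) = (7 : ℝ) ^ (2 * l) := by
      rw [zpow_add₀ (by norm_num), zpow_one, _root_.zpow_mul', _root_.zpow_mul']
      have h4 : ((7 : ℝ) ^ k) ^ 2 * 7 = ((7 : ℝ) ^ l) ^ 2 := by
        rw [h]
        ring
      exact_mod_cast h4
    have h5 := zpow_right_injective₀ (by norm_num : (0 : ℝ) < 7) (by norm_num) h3
    omega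
  rw [IsUltrametricDist.norm_add_eq_max_of_norm_ne_norm hne, h1, h2]

theorem OO_iff (z : E7 Q7) : OO z ↔ ‖QuadraticAlgebra.norm z‖ ≤ 1 := by
  rw [norm_norm_eq, max_le_iff]
  constructor
  · rintro ⟨h1, h2⟩
    refine ⟨pow_le_one₀ (norm_nonneg _) h1, ?_⟩
    have h3 : ‖z.im‖ ^ 2 ≤ 1 := pow_le_one₀ (norm_nonneg _) h2
    linarith
  · rintro ⟨h1, h2⟩
    refine ⟨(sq_le_one_iff₀ (norm_nonneg _)).1 h1, ?_⟩
    by_cases hi : z.im = 0
    · rw [hi, norm_zero]
      exact zero_le_one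
    obtain ⟨l, hl⟩ := norm_zpow hi
    rw [hl] at h2 ⊢
    by_contra h
    have hl1 : 1 ≤ l := by
      by_contra hlt
      exact h (zpow_le_one_of_nonpos₀ (by norm_num) (by omega))
    have h3 : (7 : ℝ) ^ (1 : ℤ) ≤ (7 : ℝ) ^ l := zpow_le_zpow_right₀ (by norm_num) hl1
    rw [zpow_one] at h3
    nlinarith

/-- A coordinate of maximal norm: all quotients by it are integral. -/
theorem exists_max {ι : Type} [Fintype ι] (v : ι → E7 Q7) (hv : v ≠ 0) :
    ∃ j, v j ≠ 0 ∧ ∀ k, OO (v k / v j) := by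
  obtain ⟨i, hi⟩ := Function.ne_iff.1 hv
  rw [Pi.zero_apply] at hi
  have : Nonempty ι := ⟨i⟩
  obtain ⟨j, hj⟩ := Finite.exists_max (fun k => ‖QuadraticAlgebra.norm (v k)‖)
  have hN : ∀ z : E7 Q7, z ≠ 0 → 0 < ‖QuadraticAlgebra.norm z‖ := fun z hz =>
    norm_pos_iff.2 fun h => hz (QuadraticAlgebra.norm_eq_zero_iff_eq_zero.1 h)
  have hj0 : v j ≠ 0 := by
    intro h
    have h1 := hj i
    have h2 := hN _ hi
    simp only [h, QuadraticAlgebra.norm_zero, norm_zero] at h1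
    linarith
  refine ⟨j, hj0, fun k => ?_⟩
  rw [OO_iff]
  have h3 : QuadraticAlgebra.norm (v k / v j) * QuadraticAlgebra.norm (v j) =
      QuadraticAlgebra.norm (v k) := by
    rw [← map_mul, div_mul_cancel₀ _ hj0]
  have h4 : ‖QuadraticAlgebra.norm (v k / v j)‖ * ‖QuadraticAlgebra.norm (v j)‖ ≤
      1 * ‖QuadraticAlgebra.norm (v j)‖ := by
    rw [← norm_mul, h3, one_mul]
    exact hj k
  exact le_of_mul_le_mul_right h4 (hN _ hj0)

end Pool.Agent.MPabcfcd.Loc
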