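import Pool.Agent.Lib.MP_abcfcd_nt.X.Bmod
import Pool.Agent.Lib.MP_abcfcd_nt.X.Cl
import Pool.Agent.Lib.MP_abcfcd_nt.X.Val

/-!
# Norms of eigenvectors

`v = z u` with `z ≠ 0` and `u` integral with a coordinate equal to one (`exists_max`). Then
`B0 u = l u` over `ℤ₇[√-7]` (`io_injective`), so the reduction `x j = rd (u j)` is an eigenvector of
`B7` for `i`, and `hf v v = N z * hf u u`, `rd (hf u u) = ∑ j, x j * x j.rev` (`rd (star y) = rd y`).
Use `ker_B7`, `cl_mul`, `cl_norm`, `cl_unit`.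
-/

set_option autoImplicit false

open Matrix

namespace Pool.Agent.MPabcfcd.Loc

theorem exists_prim (v : Fin 7 → E7 Q7) (hv : v ≠ 0) :
    ∃ z : E7 Q7, z ≠ 0 ∧ ∃ u : Fin 7 → E7 Z7, (∃ j, rd (u j) ≠ 0) ∧ ∀ j, v j = z * io (u j) := by
  obtain ⟨j0, hj0, h⟩ := exists_max v hv
  choose u hu using fun k => exists_io (h k)
  refine ⟨v j0, hj0, u, ⟨j0, ?_⟩, fun k => ?_⟩
  · have h1 : u j0 = 1 := io_injective (by rw [hu, div_self hj0, map_one])
    rw [h1, map_one]
    exact one_ne_zero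
  · rw [hu, mul_div_cancel₀ _ hj0]

private theorem Eig_rd_star (y : E7 Z7) : rd (star y) = rd y := by
  rw [rd_apply, rd_apply, QuadraticAlgebra.re_star, zero_mul, add_zero]

private theorem Eig_io_hf (u : Fin 7 → E7 Z7) :
    hf (fun j => io (u j)) (fun j => io (u j)) = io (hf u u) := by
  rw [hf_apply, hf_apply, map_sum]
  refine Finset.sum_congr rfl fun j _ => ?_
  rw [map_mul, io_star]

private theorem Eig_rd_hf (u : Fin 7 → E7 Z7) :
    rd (hf u u) = ∑ j, rd (u j) * rd (u j.rev) := by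
  rw [hf_apply, map_sum]
  refine Finset.sum_congr rfl fun j _ => ?_
  rw [map_mul, Eig_rd_star]

theorem eig_norm (B0 : M7 (E7 Z7)) (hr : ∀ i j, rd (B0 i j) = ((Bm i j : ℤ) : ZMod 7)) (i : Fin 7)
    (l : Z7) (hl : toZ l = ((i : ℕ) : ZMod 7)) (v : Fin 7 → E7 Q7) (hv : v ≠ 0)
    (h : mio B0 *ᵥ v = algebraMap Q7 (E7 Q7) (l : Q7) • v) : cl (hf v v).re = dl i := by
  obtain ⟨z, hz, u, ⟨j1, hj1⟩, hu⟩ := exists_prim v hv
  set w : Fin 7 → E7 Q7 := fun j => io (u j) with hw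
  have hvw : v = z • w := by
    funext j
    rw [hu j]
    rfl
  have hA : mio B0 *ᵥ w = algebraMap Q7 (E7 Q7) (l : Q7) • w := by
    rw [hvw, Matrix.mulVec_smul, smul_comm] at h
    funext k
    have h2 := congrFun h k
    simp only [Pi.smul_apply, smul_eq_mul] at h2
    exact mul_left_cancel₀ hz h2
  have hB : ∀ k, (B0 *ᵥ u) k = (⟨l, 0⟩ : E7 Z7) * u k := by
    intro k
    apply io_injective
    have h2 := congrFun hA k
    have h3 : (mio B0 *ᵥ w) k = io ((B0 *ᵥ u) k) := by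
      unfold Matrix.mulVec dotProduct
      rw [map_sum]
      refine Finset.sum_congr rfl fun j _ => ?_
      rw [map_mul]
      rfl
    rw [← h3, h2, map_mul]
    rfl
  have hC : B7 *ᵥ (fun j => rd (u j)) = ((i : ℕ) : ZMod 7) • (fun j => rd (u j)) := by
    funext k
    have h2 := congrArg rd (hB k)
    rw [map_mul, rd_apply (⟨l, 0⟩ : E7 Z7)] at h2
    have h3 : rd ((B0 *ᵥ u) k) = (B7 *ᵥ (fun j => rd (u j))) k := by
      unfold Matrix.mulVec dotProduct
      rw [map_sum]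
      refine Finset.sum_congr rfl fun j _ => ?_
      rw [map_mul, hr]
      rfl
    rw [← h3, h2, hl]
    rfl
  have hx : (fun j => rd (u j)) ≠ 0 := fun h0 => hj1 (congrFun h0 j1)
  have hD := ker_B7 i _ hx hC
  have hE : toZ (hf u u).re = ∑ j, rd (u j) * rd (u j.rev) := by
    rw [← rd_apply, Eig_rd_hf]
  have hdl : ∀ i : Fin 7, dl i ≠ 0 := by decide
  have hne : toZ (hf u u).re ≠ 0 := by
    intro h0
    rw [← hE, h0] at hD
    exact hdl i (by rw [← hD]; exact (leg_eq_zero 0).2 rfl)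
  have hF : (hf v v).re = QuadraticAlgebra.norm z * ((hf u u).re : Q7) := by
    rw [hvw, hf_smul_left, hf_smul_right, ← mul_assoc, mul_comm (star z) z,
      ← QuadraticAlgebra.algebraMap_norm_eq_mul_star, hw, Eig_io_hf, QuadraticAlgebra.re_mul]
    simp
    left
    rfl
  rw [hF, cl_mul, cl_norm hz, one_mul, cl_unit _ hne, hE]
  exact hD

end Pool.Agent.MPabcfcd.Loc
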