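import Pool.Agent.Lib.MP_abcfcd_nt.X.Bmod

/-!
# The characteristic polynomial and its roots

`adj B0 = B0` gives `charpoly B0 = (charpoly B0).map star` (`Matrix.charpoly_transpose`, conjugation
by `J7`), so its coefficients are star-fixed, i.e. in `ℤ₇`. Its reduction is `charpoly B7`, and
`f' (i) = ∏_{j ≠ i} (i - j) = -1` modulo seven. Roots by `hensels_lemma`.
-/

set_option autoImplicit false

open Matrix

namespace Pool.Agent.MPabcfcd.Loc

private theorem Hens_charpoly (B0 : M7 (E7 Z7)) (hB : adj B0 = B0) :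
    B0.charpoly.map (starRingEnd (E7 Z7)) = B0.charpoly := by
  have h1 : B0ᴴ = (B0.map (starRingEnd (E7 Z7)))ᵀ := by
    ext i j
    · rfl
    · rfl
  have h2 : (adj B0).charpoly = B0ᴴ.charpoly := by
    unfold adj
    rw [Matrix.charpoly_mul_comm, ← Matrix.mul_assoc, J7_sq, Matrix.one_mul]
  rw [hB, h1, Matrix.charpoly_transpose, Matrix.charpoly_map] at h2
  exact h2.symm

private theorem Hens_im {c : E7 Z7} (h : star c = c) : c = algebraMap Z7 (E7 Z7) c.re := by
  have h2 := congrArg QuadraticAlgebra.im h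
  rw [QuadraticAlgebra.im_star] at h2
  have h3 : c.im = 0 := by
    have h4 : (2 : Z7) * c.im = 0 := by linear_combination -h2
    exact (mul_eq_zero.1 h4).resolve_left (by norm_num)
  ext
  · simp
  · simpa using h3

private theorem Hens_exists (B0 : M7 (E7 Z7)) (hB : adj B0 = B0) :
    ∃ f : Polynomial Z7, f.Monic ∧ f.natDegree = 7 ∧
      f.map (algebraMap Z7 (E7 Z7)) = B0.charpoly := by
  have hl : B0.charpoly ∈ Polynomial.lifts (algebraMap Z7 (E7 Z7)) := by
    rw [Polynomial.lifts_iff_coeff_lifts]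
    intro n
    have h1 := congrArg (fun p => Polynomial.coeff p n) (Hens_charpoly B0 hB)
    simp only [Polynomial.coeff_map] at h1
    exact ⟨(B0.charpoly.coeff n).re, (Hens_im h1).symm⟩
  obtain ⟨q, hq1, hq2, hq3⟩ := Polynomial.lifts_and_natDegree_eq_and_monic hl
    (Matrix.charpoly_monic B0)
  refine ⟨q, hq3, ?_, hq1⟩
  rw [hq2, Matrix.charpoly_natDegree_eq_dim]
  simp

private theorem Hens_prod : ∀ i : Fin 7,
    ∏ j ∈ Finset.univ.erase i, (((i : ℕ) : ZMod 7) - ((j : ℕ) : ZMod 7)) = -1 := by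
  decide +kernel

private theorem Hens_prod0 : ∀ i : Fin 7,
    ∏ j : Fin 7, (((i : ℕ) : ZMod 7) - ((j : ℕ) : ZMod 7)) = 0 := by
  decide +kernel

private theorem Hens_red (B0 : M7 (E7 Z7))
    (hr : ∀ i j, rd (B0 i j) = ((Bm i j : ℤ) : ZMod 7)) (f : Polynomial Z7)
    (hf : f.map (algebraMap Z7 (E7 Z7)) = B0.charpoly) :
    f.map toZ = ∏ i : Fin 7, (Polynomial.X - Polynomial.C (((i : ℕ) : ZMod 7))) := by
  have h1 : f.map toZ = (f.map (algebraMap Z7 (E7 Z7))).map rd := by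
    rw [Polynomial.map_map]
    congr 1
  rw [h1, hf, ← Matrix.charpoly_map, ← charpoly_B7]
  congr 1
  ext i j
  rw [Matrix.map_apply, hr]
  simp [B7]

private theorem Hens_eval (f : Polynomial Z7) (x : Z7) :
    toZ (f.eval x) = (f.map toZ).eval (toZ x) := by
  rw [Polynomial.eval_map, Polynomial.eval₂_at_apply]

theorem exists_roots (B0 : M7 (E7 Z7)) (hB : adj B0 = B0)
    (hr : ∀ i j, rd (B0 i j) = ((Bm i j : ℤ) : ZMod 7)) :
    ∃ f : Polynomial Z7, f.Monic ∧ f.natDegree = 7 ∧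
      f.map (algebraMap Z7 (E7 Z7)) = B0.charpoly ∧
      ∃ l : Fin 7 → Z7, (∀ i, f.eval (l i) = 0) ∧ (∀ i, toZ (l i) = ((i : ℕ) : ZMod 7)) ∧
        ∀ i, toZ (f.derivative.eval (l i)) = -1 := by
  obtain ⟨f, hf1, hf2, hf3⟩ := Hens_exists B0 hB
  have hred := Hens_red B0 hr f hf3
  have hd : ∀ (i : Fin 7) (x : Z7), toZ x = ((i : ℕ) : ZMod 7) →
      toZ (f.derivative.eval x) = -1 := by
    intro i x hx
    rw [Hens_eval, ← Polynomial.derivative_map, hred, hx]
    have h1 := Lagrange.eval_nodal_derivative_eval_node_eq (s := Finset.univ)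
      (v := fun j : Fin 7 => (((j : ℕ) : ZMod 7))) (Finset.mem_univ i)
    rw [Lagrange.eval_nodal] at h1
    rw [← Hens_prod i, ← h1]
    rfl
  have hz : ∀ (i : Fin 7), ∃ z : Z7, f.eval z = 0 ∧ toZ z = ((i : ℕ) : ZMod 7) := by
    intro i
    have hc : toZ (((i : ℕ) : Z7)) = ((i : ℕ) : ZMod 7) := map_natCast _ _
    have h0 : ‖f.eval (((i : ℕ) : Z7))‖ < 1 := by
      rw [← toZ_eq_zero, Hens_eval, hred, hc, Polynomial.eval_prod, ← Hens_prod0 i]
      simp
    have h1 : ‖f.derivative.eval (((i : ℕ) : Z7))‖ = 1 := by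
      have h2 := hd i _ hc
      have h3 : ¬ ‖f.derivative.eval (((i : ℕ) : Z7))‖ < 1 := by
        rw [← toZ_eq_zero, h2]
        decide
      exact le_antisymm (PadicInt.norm_le_one _) (not_lt.1 h3)
    have h4 : ‖Polynomial.aeval (((i : ℕ) : Z7)) f‖ <
        ‖Polynomial.aeval (((i : ℕ) : Z7)) f.derivative‖ ^ 2 := by
      rw [Polynomial.coe_aeval_eq_eval, h1]
      simpa using h0
    obtain ⟨z, hz1, hz2, -, -⟩ := hensels_lemma h4
    rw [Polynomial.coe_aeval_eq_eval, h1] at hz2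
    rw [Polynomial.coe_aeval_eq_eval] at hz1
    refine ⟨z, hz1, ?_⟩
    rw [← toZ_eq_zero, map_sub, sub_eq_zero] at hz2
    rw [hz2, hc]
  choose l hl1 hl2 using hz
  exact ⟨f, hf1, hf2, hf3, l, hl1, hl2, fun i => hd i _ (hl2 i)⟩

end Pool.Agent.MPabcfcd.Loc
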