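import Pool.Agent.Lib.MP_abcfcd_nt.X.Fld

/-!
# Lagrange interpolation of the moments

`G = ∑_{k=1}^{7} f_k ∑_{a+b=k-1} l^a B^b`, `u = G v`. Then `(B - l) G = f(B) - f(l) = 0`, so
`B u = l u`. `hf v u = ∑_k f_k ∑_{a+b=k-1} l^a μ_b` with `μ_b = hf v (B^b v) = 0` for `b < 4`, so only
`b = 4, 5, 6` remain (`k = 7: μ_6 + l μ_5 + l² μ_4`; `k = 6: f_6 (μ_5 + l μ_4)`; `k = 5: f_5 μ_4`).
`hf u u = hf (G v) (G v) = hf v (G (G v))` (`G` is self-adjoint: `l` and the coefficients are in `ℚ₇`),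
and `G u = f'(l) u` because `B u = l u`.
-/

set_option autoImplicit false

open Matrix

namespace Pool.Agent.MPabcfcd.Loc

private theorem lag_star (c : Q7) : star (algebraMap Q7 (E7 Q7) c) = algebraMap Q7 (E7 Q7) c := by
  ext
  · simp
  · simp

private theorem lag_smul_right (c : Q7) (x y : Fin 7 → E7 Q7) :
    hf x (c • y) = algebraMap Q7 (E7 Q7) c * hf x y := by
  rw [← algebraMap_smul (E7 Q7) c y, hf_smul_right]

private theorem lag_smul_left (c : Q7) (x y : Fin 7 → E7 Q7) :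
    hf (c • x) y = algebraMap Q7 (E7 Q7) c * hf x y := by
  rw [← algebraMap_smul (E7 Q7) c x, hf_smul_left, lag_star]

/-- Polynomials in a self-adjoint matrix, with coefficients in `ℚ₇`, are self-adjoint. -/
private theorem lag_self (B : M7 (E7 Q7)) (hB : adj B = B) (g : Polynomial Q7)
    (x y : Fin 7 → E7 Q7) :
    hf (Polynomial.aeval B g *ᵥ x) y = hf x (Polynomial.aeval B g *ᵥ y) := by
  induction g using Polynomial.induction_on' with
  | add p q hp hq =>
    rw [map_add, Matrix.add_mulVec, Matrix.add_mulVec, hf_add_left, hf_add_right, hp, hq]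
  | monomial n a =>
    rw [Polynomial.aeval_monomial, ← Algebra.smul_def, Matrix.smul_mulVec, Matrix.smul_mulVec,
      lag_smul_left, lag_smul_right, hf_adj, adj_pow, hB]

/-- Polynomials of `B` act on an eigenvector through their values. -/
private theorem lag_eig (B : M7 (E7 Q7)) (l : Q7) (u : Fin 7 → E7 Q7)
    (hu : B *ᵥ u = algebraMap Q7 (E7 Q7) l • u) (g : Polynomial Q7) :
    Polynomial.aeval B g *ᵥ u = g.eval l • u := by
  have hpow : ∀ n : ℕ, B ^ n *ᵥ u = (l ^ n) • u := by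
    intro n
    induction n with
    | zero => simp
    | succ n ih =>
      rw [pow_succ, ← Matrix.mulVec_mulVec, hu, algebraMap_smul, Matrix.mulVec_smul, ih,
        smul_smul, mul_comm, ← pow_succ]
  induction g using Polynomial.induction_on' with
  | add p q hp hq =>
    rw [map_add, Matrix.add_mulVec, hp, hq, Polynomial.eval_add, add_smul]
  | monomial n a =>
    rw [Polynomial.aeval_monomial, ← Algebra.smul_def, Matrix.smul_mulVec, hpow, smul_smul,
      Polynomial.eval_monomial]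

/-- The form on a polynomial of `B`. -/
private theorem lag_sum (B : M7 (E7 Q7)) (v : Fin 7 → E7 Q7) (g : Polynomial Q7)
    (hg : g.natDegree < 7) :
    hf v (Polynomial.aeval B g *ᵥ v)
      = ∑ i ∈ Finset.range 7, algebraMap Q7 (E7 Q7) (g.coeff i) * hf v (B ^ i *ᵥ v) := by
  rw [Polynomial.aeval_eq_sum_range' hg]
  simp only [Finset.sum_range_succ, Finset.sum_range_zero, zero_add, Matrix.add_mulVec,
    hf_add_right, Matrix.smul_mulVec, lag_smul_right]

theorem lag (B : M7 (E7 Q7)) (hB : adj B = B) (f : Polynomial Q7) (hm : f.Monic)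
    (h7 : f.natDegree = 7) (hf0 : Polynomial.aeval B f = 0) (l : Q7) (hl : f.eval l = 0)
    (v : Fin 7 → E7 Q7) (h0 : ∀ k < 4, hf v (B ^ k *ᵥ v) = 0) (m4 m5 m6 : Q7)
    (h4 : hf v (B ^ 4 *ᵥ v) = algebraMap Q7 (E7 Q7) m4)
    (h5 : hf v (B ^ 5 *ᵥ v) = algebraMap Q7 (E7 Q7) m5)
    (h6 : hf v (B ^ 6 *ᵥ v) = algebraMap Q7 (E7 Q7) m6) :
    ∃ u : Fin 7 → E7 Q7, B *ᵥ u = algebraMap Q7 (E7 Q7) l • u ∧
      hf v u = algebraMap Q7 (E7 Q7)
        (m4 * l ^ 2 + (m5 + f.coeff 6 * m4) * l + (m6 + f.coeff 6 * m5 + f.coeff 5 * m4)) ∧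
      hf u u = algebraMap Q7 (E7 Q7) (f.derivative.eval l *
        (m4 * l ^ 2 + (m5 + f.coeff 6 * m4) * l + (m6 + f.coeff 6 * m5 + f.coeff 5 * m4))) := by
  obtain ⟨g, hg⟩ := Polynomial.dvd_iff_isRoot.2 (show f.IsRoot l from hl)
  have hg' : f = g * (Polynomial.X - Polynomial.C l) := by rw [hg, mul_comm]
  have hf00 : f ≠ 0 := hm.ne_zero
  have hg0 : g ≠ 0 := by
    rintro rfl
    exact hf00 (by rw [hg', zero_mul])
  have hgd : g.natDegree = 6 := by
    have h := congrArg Polynomial.natDegree hg'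
    rw [Polynomial.natDegree_mul hg0 (Polynomial.X_sub_C_ne_zero l),
      Polynomial.natDegree_X_sub_C, h7] at h
    omega
  have hc : ∀ a, f.coeff (a + 1) = g.coeff a - g.coeff (a + 1) * l := by
    intro a
    conv_lhs => rw [hg']
    exact Polynomial.coeff_mul_X_sub_C
  have hg7 : g.coeff 7 = 0 := Polynomial.coeff_eq_zero_of_natDegree_lt (by omega)
  have hf7 : f.coeff 7 = 1 := by
    have h := hm.coeff_natDegree
    rwa [h7] at h
  have hg6 : g.coeff 6 = 1 := by
    have h := hc 6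
    norm_num at h
    rw [hf7, hg7] at h
    linear_combination -h
  have hg5 : g.coeff 5 = f.coeff 6 + l := by
    have h := hc 5
    norm_num at h
    rw [hg6] at h
    linear_combination -h
  have hg4 : g.coeff 4 = f.coeff 5 + (f.coeff 6 + l) * l := by
    have h := hc 4
    norm_num at h
    rw [hg5] at h
    linear_combination -h
  have hBu : B *ᵥ (Polynomial.aeval B g *ᵥ v)
      = algebraMap Q7 (E7 Q7) l • (Polynomial.aeval B g *ᵥ v) := by
    have h : (B - algebraMap Q7 (M7 (E7 Q7)) l) * Polynomial.aeval B g = 0 := by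
      rw [← hf0, hg, map_mul, map_sub, Polynomial.aeval_X, Polynomial.aeval_C]
    have h2 := congrArg (fun M => M *ᵥ v) h
    simp only [Matrix.zero_mulVec] at h2
    rw [← Matrix.mulVec_mulVec, Matrix.sub_mulVec, sub_eq_zero] at h2
    rw [h2, Algebra.algebraMap_eq_smul_one, Matrix.smul_mulVec, Matrix.one_mulVec,
      algebraMap_smul]
  have hvu : hf v (Polynomial.aeval B g *ᵥ v) = algebraMap Q7 (E7 Q7)
        (m4 * l ^ 2 + (m5 + f.coeff 6 * m4) * l + (m6 + f.coeff 6 * m5 + f.coeff 5 * m4)) := by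
    rw [lag_sum B v g (by omega)]
    simp only [Finset.sum_range_succ, Finset.sum_range_zero, zero_add]
    rw [h0 0 (by norm_num), h0 1 (by norm_num), h0 2 (by norm_num), h0 3 (by norm_num), h4, h5,
      h6, hg4, hg5, hg6, mul_zero, mul_zero, mul_zero, mul_zero, add_zero, add_zero, add_zero,
      zero_add, ← map_mul, ← map_mul, ← map_mul, ← map_add, ← map_add]
    congr 1
    ring
  refine ⟨Polynomial.aeval B g *ᵥ v, hBu, hvu, ?_⟩
  rw [lag_self B hB, lag_eig B l _ hBu, lag_smul_right, hvu, ← map_mul]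
  congr 2
  rw [hg]
  simp [Polynomial.derivative_mul]

end Pool.Agent.MPabcfcd.Loc
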