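import Pool.Agent.Lib.MP_abcfcd_nt.X.Quad
import Pool.Agent.Lib.MP_abcfcd_nt.X.Hens
import Pool.Agent.Lib.MP_abcfcd_nt.X.Eig
import Pool.Agent.Lib.MP_abcfcd_nt.X.Lag

/-!
# Theorem B: the arithmetic obstruction

`m_k` = the moment `hf v (B^k v)`, star-fixed because `B` is self-adjoint. `f`, `l i` by
`exists_roots`; `f(B) = 0` by Cayley-Hamilton (mapped to `ℚ₇(√-7)`). By `lag` and `eig_norm` for every
`i`: either `u = 0` and `q(l_i) = 0`, or `dl i = cl (f'(l_i)) cl (q(l_i)) = - cl (q(l_i))`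
(`cl (f'(l_i)) = leg (-1) = -1` by `cl_unit`). The coefficients of `q` are not all zero because
`m_4, m_5, m_6` are not all zero. So `cl m_4 = -1` by `quad_class`, but the class of a norm is `0` or
`1` (`cl_norm`; `z * star z` is the image of `norm z`).
-/

set_option autoImplicit false

open Matrix

namespace Pool.Agent.MPabcfcd.Loc

private theorem ThmB_adj (B0 : M7 (E7 Z7)) (hB : adj B0 = B0) : adj (mio B0) = mio B0 := by
  ext1 i j
  rw [adj_apply]
  have h : (mio B0) j.rev i.rev = io (B0 j.rev i.rev) := rfl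
  rw [h, ← io_star]
  have h2 : adj B0 i j = B0 i j := by rw [hB]
  rw [adj_apply] at h2
  rw [h2]
  rfl

private theorem ThmB_inj {x y : Q7} (h : algebraMap Q7 (E7 Q7) x = algebraMap Q7 (E7 Q7) y) :
    x = y := by
  have h2 := congrArg QuadraticAlgebra.re h
  simpa using h2

private theorem ThmB_re (x : Q7) : (algebraMap Q7 (E7 Q7) x).re = x := by simp

private theorem ThmB_zero {x : Q7} (h : algebraMap Q7 (E7 Q7) x = 0) : x = 0 :=
  ThmB_inj (by rw [h, map_zero])

private theorem ThmB_moment (B : M7 (E7 Q7)) (hB : adj B = B) (v : Fin 7 → E7 Q7) (k : ℕ) :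
    ∃ m : Q7, hf v (B ^ k *ᵥ v) = algebraMap Q7 (E7 Q7) m := by
  refine ⟨_, eq_algebraMap_re ?_⟩
  rw [star_hf, hf_adj, adj_pow, hB]

private theorem ThmB_CH (B0 : M7 (E7 Z7)) (f0 : Polynomial Z7)
    (hf : f0.map (algebraMap Z7 (E7 Z7)) = B0.charpoly) :
    Polynomial.aeval (mio B0) (f0.map (algebraMap Z7 Q7)) = 0 := by
  have h1 : (mio B0).charpoly = B0.charpoly.map io := by
    have h := Matrix.charpoly_map B0 io
    rw [← h]
    rfl
  have h2 : ((f0.map (algebraMap Z7 Q7)).map (algebraMap Q7 (E7 Q7))) = (mio B0).charpoly := by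
    rw [h1, ← hf, Polynomial.map_map, Polynomial.map_map]
    congr 1
  have h3 := Matrix.aeval_self_charpoly (mio B0)
  rw [← h2, Polynomial.aeval_map_algebraMap] at h3
  exact h3

private theorem ThmB_norm (z : E7 Q7) :
    z * star z = algebraMap Q7 (E7 Q7) (QuadraticAlgebra.norm z) := by
  rw [QuadraticAlgebra.norm_def]
  ext
  · simp
  · simp
    ring

private theorem ThmB_cl_norm (z : E7 Q7) : cl (QuadraticAlgebra.norm z) ≠ -1 := by
  by_cases hz : z = 0
  · rw [hz]
    have h : QuadraticAlgebra.norm (0 : E7 Q7) = 0 := by simp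
    rw [h, cl_zero]
    norm_num
  · rw [cl_norm hz]
    norm_num

theorem thmB (B0 : M7 (E7 Z7)) (hB : adj B0 = B0)
    (hr : ∀ i j, rd (B0 i j) = ((Bm i j : ℤ) : ZMod 7)) (v : Fin 7 → E7 Q7)
    (h0 : ∀ k < 4, hf v (mio B0 ^ k *ᵥ v) = 0)
    (h1 : ∃ k, 4 ≤ k ∧ k ≤ 6 ∧ hf v (mio B0 ^ k *ᵥ v) ≠ 0) (z : E7 Q7) :
    hf v (mio B0 ^ 4 *ᵥ v) ≠ z * star z := by
  intro hz
  obtain ⟨f0, hm, h7, hch, l, hl0, hl, hd⟩ := exists_roots B0 hB hr
  have hBB := ThmB_adj B0 hB
  obtain ⟨m4, h4⟩ := ThmB_moment (mio B0) hBB v 4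
  obtain ⟨m5, h5⟩ := ThmB_moment (mio B0) hBB v 5
  obtain ⟨m6, h6⟩ := ThmB_moment (mio B0) hBB v 6
  have hn : m4 = QuadraticAlgebra.norm z := by
    apply ThmB_inj
    rw [← h4, hz, ThmB_norm]
  have hf1 := ThmB_CH B0 f0 hch
  have hm1 : (f0.map (algebraMap Z7 Q7)).Monic := hm.map _
  have h71 : (f0.map (algebraMap Z7 Q7)).natDegree = 7 := by
    rw [hm.natDegree_map, h7]
  have hev : ∀ i, (f0.map (algebraMap Z7 Q7)).eval (l i : Q7) = 0 := by
    intro i
    have h := Polynomial.eval_map_apply (p := f0) (f := algebraMap Z7 Q7) (x := l i)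
    have h2 : (algebraMap Z7 Q7) (l i) = (l i : Q7) := rfl
    rw [h2] at h
    rw [h, hl0 i, map_zero]
  have hder : ∀ i, cl ((f0.map (algebraMap Z7 Q7)).derivative.eval (l i : Q7)) = -1 := by
    intro i
    have h := Polynomial.eval_map_apply (p := f0.derivative) (f := algebraMap Z7 Q7) (x := l i)
    have h2 : (algebraMap Z7 Q7) (l i) = (l i : Q7) := rfl
    rw [h2] at h
    rw [Polynomial.derivative_map, h]
    have h3 : (algebraMap Z7 Q7) (f0.derivative.eval (l i)) =
      ((f0.derivative.eval (l i) : Z7) : Q7) := rfl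
    rw [h3, cl_unit]
    · rw [hd i]
      decide
    · rw [hd i]
      decide
  generalize f0.map (algebraMap Z7 Q7) = f at hf1 hm1 h71 hev hder
  have key : cl m4 = -1 := by
    refine quad_class m4 (m5 + f.coeff 6 * m4) (m6 + f.coeff 6 * m5 + f.coeff 5 * m4) ?_ l hl ?_
    · rintro ⟨q2, q1, q0⟩
      rw [q2, mul_zero, add_zero] at q1
      rw [q2, q1, mul_zero, mul_zero, add_zero, add_zero] at q0
      obtain ⟨k, hk1, hk2, hk3⟩ := h1
      interval_cases k
      · exact hk3 (by rw [h4, q2, map_zero])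
      · exact hk3 (by rw [h5, q1, map_zero])
      · exact hk3 (by rw [h6, q0, map_zero])
    · intro i
      obtain ⟨u, hu1, hu2, hu3⟩ := lag (mio B0) hBB f hm1 h71 hf1 (l i : Q7) (hev i) v h0 m4 m5 m6
        h4 h5 h6
      by_cases hu : u = 0
      · left
        rw [hu, hf_zero_right] at hu2
        exact ThmB_zero hu2.symm
      · right
        have h8 := eig_norm B0 hr i (l i) (hl i) u hu hu1
        rw [hu3] at h8
        rw [ThmB_re, cl_mul, hder i] at h8
        omega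
  rw [hn] at key
  exact ThmB_cl_norm z key

end Pool.Agent.MPabcfcd.Loc
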