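import Pool.Agent.Lib.MP_abcfcd_nt.X.Dual
import Pool.Agent.Lib.MP_abcfcd_nt.X.ThmA
import Pool.Agent.Lib.MP_abcfcd_nt.X.ThmB

/-!
# Local exclusion for a graded nilpotent matrix over `ℚ₇(√-7)`

By contradiction: `exists_B0` (`d ≤ 6`), `exists_vec` with `B = mio B0`, `thmB`.
-/

set_option autoImplicit false

open Matrix

namespace Pool.Agent.MPabcfcd.Loc

theorem core {H X : M7 (E7 Q7)} (hH : Sk H) (w : WB H) (d : ℕ) (hd4 : 4 ≤ d) (hd6 : d ≤ 6)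
    (hw : ∀ i, |w.a i| ≤ d) (hX : Sk X) (hX2 : X ∈ gr H (-2)) (hXd : X ^ d ≠ 0)
    (h52 : d = 4 → ∃ z, w.a z = 0 ∧ ∀ i, w.a i = 0 → i = z) :
    ∃ l ∈ uni H hH, l ∈ JJ ∧ ¬ ‖(Matrix.trace (X * (l.mat - 1))).re + trB l / 7‖ ≤ 1 := by
  by_contra hcon
  push Not at hcon
  have hw6 : ∀ i, |w.a i| ≤ 6 := fun i => (hw i).trans (by exact_mod_cast hd6)
  obtain ⟨B0, h1, h2, h3⟩ := exists_B0 hH w hw6 hX hX2 (fun l hl hJ => hcon l hl hJ)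
  obtain ⟨v, h4, h5, z, h6⟩ := exists_vec hH w d hd4 hd6 hw hX hX2 hXd h52 (mio B0) h3
  exact thmB B0 h1 h2 v h4 h5 z h6

end Pool.Agent.MPabcfcd.Loc
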