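import Pool.Agent.Lib.MP_abcfcd_nt.X.Fld

/-!
# The finite lemma on quadratic polynomials modulo seven
-/

set_option autoImplicit false

open Matrix

namespace Pool.Agent.MPabcfcd.Loc

theorem dec_lemma : ∀ a b c : ZMod 7, ¬ (a = 0 ∧ b = 0 ∧ c = 0) →
    (∀ i : Fin 7, a * ((i : ℕ) : ZMod 7) ^ 2 + b * ((i : ℕ) : ZMod 7) + c = 0 ∨
      leg (a * ((i : ℕ) : ZMod 7) ^ 2 + b * ((i : ℕ) : ZMod 7) + c) = - dl i) → leg a = -1 := by
  decide

end Pool.Agent.MPabcfcd.Loc
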