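import Pool.Agent.Lib.MP_abcfcd_nt.X.Val

/-!
# Extension of integral functionals

Induction on the dimension of `S`. If `S = 0` take `c = 0`. Otherwise take `0 ≠ z ∈ S`, with
`z j = 1` for some `j` and all coordinates integral (divide by a coordinate of maximal norm,
`exists_max`). Let `S' = {s ∈ S : s j = 0}` (smaller), and `c'` for `S'` by induction. Then
`c = c' + t e_j` with `t = φ z - ∑ c'_i z_i`, integral. Every `s ∈ S` is `s j • z + (s - s j • z)` and
the second term is in `S'`.
-/

set_option autoImplicit false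

open Matrix

namespace Pool.Agent.MPabcfcd.Loc

theorem ext_int {ι : Type} [Fintype ι] [DecidableEq ι] (S : Submodule (E7 Q7) (ι → E7 Q7))
    (φ : (ι → E7 Q7) →ₗ[E7 Q7] E7 Q7) (h : ∀ s ∈ S, (∀ i, OO (s i)) → OO (φ s)) :
    ∃ c : ι → E7 Q7, (∀ i, OO (c i)) ∧ ∀ s ∈ S, φ s = ∑ i, c i * s i := by
  induction hn : Module.finrank (E7 Q7) S using Nat.strong_induction_on generalizing S with
  | _ n ih =>
    by_cases hS : S = ⊥
    · refine ⟨0, fun i => OO_zero, fun s hs => ?_⟩
      rw [hS, Submodule.mem_bot] at hs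
      rw [hs, map_zero]
      simp
    · obtain ⟨z₀, hz₀, hne⟩ := (Submodule.ne_bot_iff S).1 hS
      obtain ⟨j, hj, hk⟩ := exists_max z₀ hne
      obtain ⟨z, hz, hzj, hzO⟩ : ∃ z ∈ S, z j = 1 ∧ ∀ i, OO (z i) := by
        refine ⟨(z₀ j)⁻¹ • z₀, S.smul_mem _ hz₀, ?_, fun i => ?_⟩
        · rw [Pi.smul_apply, smul_eq_mul, inv_mul_cancel₀ hj]
        · rw [Pi.smul_apply, smul_eq_mul, mul_comm, ← div_eq_mul_inv]
          exact hk i
      have hlt : S ⊓ LinearMap.ker (LinearMap.proj (R := E7 Q7) (φ := fun _ : ι => E7 Q7) j) < S := by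
        refine lt_of_le_of_ne inf_le_left fun he => ?_
        have h1 : z ∈ S ⊓ LinearMap.ker
            (LinearMap.proj (R := E7 Q7) (φ := fun _ : ι => E7 Q7) j) := by
          rw [he]
          exact hz
        have h2 : z j = 0 := (Submodule.mem_inf.1 h1).2
        rw [hzj] at h2
        exact one_ne_zero h2
      have hlt2 := Submodule.finrank_lt_finrank_of_lt hlt
      rw [hn] at hlt2
      obtain ⟨c', hc', hφ⟩ := ih _ hlt2
        (S ⊓ LinearMap.ker (LinearMap.proj (R := E7 Q7) (φ := fun _ : ι => E7 Q7) j))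
        (fun s hs => h s (Submodule.mem_inf.1 hs).1) rfl
      have ht : OO (φ z - ∑ i, c' i * z i) :=
        (h z hz hzO).sub (OO.sum fun i _ => (hc' i).mul (hzO i))
      refine ⟨fun i => c' i + if i = j then φ z - ∑ i, c' i * z i else 0, fun i => ?_,
        fun s hs => ?_⟩
      · refine (hc' i).add ?_
        split_ifs
        · exact ht
        · exact OO_zero
      · have hr : s - s j • z ∈ S ⊓ LinearMap.ker
            (LinearMap.proj (R := E7 Q7) (φ := fun _ : ι => E7 Q7) j) := by
          refine Submodule.mem_inf.2 ⟨S.sub_mem hs (S.smul_mem _ hz), ?_⟩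
          rw [LinearMap.mem_ker, LinearMap.proj_apply, Pi.sub_apply, Pi.smul_apply, hzj,
            smul_eq_mul, mul_one, sub_self]
        have h1 := hφ _ hr
        rw [map_sub, map_smul, smul_eq_mul] at h1
        have h2 : ∑ i, c' i * (s - s j • z) i = ∑ i, c' i * s i - s j * ∑ i, c' i * z i := by
          rw [Finset.mul_sum, ← Finset.sum_sub_distrib]
          refine Finset.sum_congr rfl fun i _ => ?_
          rw [Pi.sub_apply, Pi.smul_apply, smul_eq_mul]
          ring
        have h3 : ∑ i, (c' i + if i = j then φ z - ∑ i, c' i * z i else 0) * s i =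
            ∑ i, c' i * s i + (φ z - ∑ i, c' i * z i) * s j := by
          simp only [add_mul, ite_mul, zero_mul, Finset.sum_add_distrib, Finset.sum_ite_eq',
            Finset.mem_univ, if_true]
        rw [h3]
        rw [h2] at h1
        linear_combination h1

end Pool.Agent.MPabcfcd.Loc
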