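import Pool.Agent.Lib.MP_abcfcd_nt.X.WtB
import Pool.Agent.Lib.MP_abcfcd_nt.X.Ext

/-!
# From integrality on the filtration to a decomposition

`ext_int` for `ι = Fin 7 × Fin 7`, `S = fil H 2` and `φ Z = 7 tr (A Z)` gives an
integral `W'` with `tr (W' Z) = 7 tr (A Z)` on `fil H 2`. So `V' = A - W'/7` has `tr (V' Z) = 0` for all
`Z ∈ fil H 2`. Put `W = (W' - adj W') / 2` and `V = A - W/7 = (V' - adj V') / 2` (`A` is skew); also
`tr (V Z) = 0` on `fil H 2`, because `tr (adj V' Z) = star (tr (adj Z V'))` and `adj Z ∈ fil H 2`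
(`adj_mem_fil`). Take `Z = P E_ji Q`, in `fil H 2` if `a j - a i ≥ 2` (`WB.mem_fil_iff`):
`co V i j = tr (V P E_ji Q) = 0`.
-/

set_option autoImplicit false

open Matrix

namespace Pool.Agent.MPabcfcd.Loc

private theorem trace_adj_mul {V Z : M7 (E7 Q7)} :
    Matrix.trace (adj V * Z) = star (Matrix.trace (V * adj Z)) := by
  rw [← trace_adj, adj_mul, adj_adj, Matrix.trace_mul_comm]

private theorem two_ne : (2 : E7 Q7) ≠ 0 := OfNat.ofNat_ne_zero 2

private theorem seven_ne : (7 : E7 Q7) ≠ 0 := OfNat.ofNat_ne_zero 7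

private theorem star_seven : star (1 / 7 : E7 Q7) = 1 / 7 := by
  rw [star_div₀, star_one, star_ofNat]

private theorem star_two : star (1 / 2 : E7 Q7) = 1 / 2 := by
  rw [star_div₀, star_one, star_ofNat]

private theorem OO_half : OO (1 / 2 : E7 Q7) := by
  have h1 : (1 / 2 : E7 Q7) = algebraMap Q7 (E7 Q7) (1 / 2) := by
    rw [map_div₀, map_one, map_ofNat]
  have h2 : ‖(1 / 2 : Q7)‖ ≤ 1 := by
    have h3 : ‖(2 : Q7)‖ = 1 := by
      have h4 := (Padic.norm_natCast_eq_one_iff (p := (p7 : ℕ)) (n := 2)).2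
        (by show Nat.Coprime 7 2; norm_num)
      exact_mod_cast h4
    rw [norm_div, norm_one, h3, div_one]
  have h5 : ∀ x : Q7, (algebraMap Q7 (E7 Q7) x).re = x ∧ (algebraMap Q7 (E7 Q7) x).im = 0 :=
    fun x => ⟨by simp, by simp⟩
  rw [h1]
  refine ⟨?_, ?_⟩
  · rw [(h5 _).1]
    exact h2
  · rw [(h5 _).2, norm_zero]
    exact zero_le_one

private theorem adj_smul_rat {c : E7 Q7} (hc : star c = c) (A : M7 (E7 Q7)) :
    adj (c • A) = c • adj A := by
  rw [adj_smul, hc]

/-- The functional `Z ↦ 7 tr (A Z)` on the functions on pairs. -/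
noncomputable def low_phi (A : M7 (E7 Q7)) : (Fin 7 × Fin 7 → E7 Q7) →ₗ[E7 Q7] E7 Q7 where
  toFun z := 7 * Matrix.trace (A * Matrix.of fun i j => z (i, j))
  map_add' y z := by
    have h : (Matrix.of fun i j => (y + z) (i, j) : M7 (E7 Q7)) =
        (Matrix.of fun i j => y (i, j)) + Matrix.of fun i j => z (i, j) := by
      ext1 i j
      rfl
    rw [h, mul_add, Matrix.trace_add, mul_add]
  map_smul' c z := by
    have h : (Matrix.of fun i j => (c • z) (i, j) : M7 (E7 Q7)) =
        c • (Matrix.of fun i j => z (i, j)) := by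
      ext1 i j
      rfl
    rw [h, Matrix.mul_smul, Matrix.trace_smul, smul_eq_mul, RingHom.id_apply, smul_eq_mul]
    ring

/-- The functions on pairs attached to the matrices of the filtration. -/
noncomputable def low_S (H : M7 (E7 Q7)) : Submodule (E7 Q7) (Fin 7 × Fin 7 → E7 Q7) where
  carrier := {z | (Matrix.of fun i j => z (i, j) : M7 (E7 Q7)) ∈ fil H 2}
  add_mem' {y z} hy hz := by
    have h : (Matrix.of fun i j => (y + z) (i, j) : M7 (E7 Q7)) =
        (Matrix.of fun i j => y (i, j)) + Matrix.of fun i j => z (i, j) := by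
      ext1 i j
      rfl
    show (Matrix.of fun i j => (y + z) (i, j) : M7 (E7 Q7)) ∈ fil H 2
    rw [h]
    exact Submodule.add_mem _ hy hz
  zero_mem' := by
    have h : (Matrix.of fun i j => (0 : Fin 7 × Fin 7 → E7 Q7) (i, j) : M7 (E7 Q7)) = 0 := by
      ext1 i j
      rfl
    show (Matrix.of fun i j => (0 : Fin 7 × Fin 7 → E7 Q7) (i, j) : M7 (E7 Q7)) ∈ fil H 2
    rw [h]
    exact Submodule.zero_mem _
  smul_mem' c z hz := by
    have h : (Matrix.of fun i j => (c • z) (i, j) : M7 (E7 Q7)) =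
        c • (Matrix.of fun i j => z (i, j)) := by
      ext1 i j
      rfl
    show (Matrix.of fun i j => (c • z) (i, j) : M7 (E7 Q7)) ∈ fil H 2
    rw [h]
    exact Submodule.smul_mem _ c hz

/-- The integral matrix of the extended functional. -/
private theorem low_W {H A : M7 (E7 Q7)}
    (h : ∀ Z ∈ fil H 2, (∀ i j, OO (Z i j)) → OO (7 * Matrix.trace (A * Z))) :
    ∃ W : M7 (E7 Q7), (∀ i j, OO (W i j)) ∧
      ∀ Z ∈ fil H 2, Matrix.trace (W * Z) = 7 * Matrix.trace (A * Z) := by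
  obtain ⟨c, hc, hφ⟩ := ext_int (low_S H) (low_phi A) (fun s hs hO =>
    h _ hs fun i j => hO (i, j))
  refine ⟨Matrix.of fun i j => c (j, i), fun i j => hc (j, i), fun Z hZ => ?_⟩
  have h1 := hφ (fun x => Z x.1 x.2) hZ
  have h2 : low_phi A (fun x => Z x.1 x.2) = 7 * Matrix.trace (A * Z) := rfl
  rw [← h2, h1, Fintype.sum_prod_type]
  unfold Matrix.trace
  simp only [Matrix.diag_apply, Matrix.mul_apply, Matrix.of_apply]
  exact Finset.sum_comm

theorem exists_low {H A : M7 (E7 Q7)} (hH : Sk H) (w : WB H) (hA : adj A = -A)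
    (h : ∀ Z ∈ fil H 2, (∀ i j, OO (Z i j)) → OO (7 * Matrix.trace (A * Z))) :
    ∃ W : M7 (E7 Q7), (∀ i j, OO (W i j)) ∧ adj W = -W ∧
      ∀ i j, w.a i - w.a j ≤ -2 → w.co (A - (1 / 7 : E7 Q7) • W) i j = 0 := by
  have h7 : (7 : E7 Q7) ≠ 0 := seven_ne
  have hs7 : star (1 / 7 : E7 Q7) = 1 / 7 := star_seven
  have hs2 : star (1 / 2 : E7 Q7) = 1 / 2 := star_two
  obtain ⟨W', hW', hWt⟩ := low_W h
  refine ⟨(1 / 2 : E7 Q7) • (W' - adj W'), fun i j => ?_, ?_, fun i j hij => ?_⟩
  · rw [Matrix.smul_apply, Matrix.sub_apply, smul_eq_mul, adj_apply]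
    exact OO_half.mul ((hW' i j).sub (hW' _ _).star)
  · rw [adj_smul_rat hs2, adj_sub, adj_adj, ← smul_neg, neg_sub]
  · -- the matrix `V = A - W / 7` is orthogonal to the filtration
    have hV : ∀ Z ∈ fil H 2, Matrix.trace
        ((A - (1 / 7 : E7 Q7) • ((1 / 2 : E7 Q7) • (W' - adj W'))) * Z) = 0 := by
      intro Z hZ
      have h1 := hWt Z hZ
      have h2 : Matrix.trace (W' * adj Z) = 7 * Matrix.trace (A * adj Z) :=
        hWt _ (adj_mem_fil hH hZ)
      have h3 : Matrix.trace (adj W' * Z) = -(7 * Matrix.trace (A * Z)) := by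
        have h4 : Matrix.trace (A * Z) = -star (Matrix.trace (A * adj Z)) := by
          rw [← trace_adj_mul, hA, neg_mul, Matrix.trace_neg, neg_neg]
        rw [trace_adj_mul, h2, star_mul', h4, star_ofNat]
        ring
      rw [sub_mul, Matrix.trace_sub, Matrix.smul_mul, Matrix.smul_mul, Matrix.trace_smul,
        Matrix.trace_smul, sub_mul, Matrix.trace_sub, h1, h3, smul_eq_mul, smul_eq_mul]
      field_simp
      ring
    have hZ : w.P * Matrix.single j i (1 : E7 Q7) * w.Q ∈ fil H 2 := by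
      rw [w.mem_fil_iff isUnit_int]
      intro k l hkl
      have h1 : w.co (w.P * Matrix.single j i (1 : E7 Q7) * w.Q) = Matrix.single j i 1 := by
        unfold WB.co
        calc w.Q * (w.P * Matrix.single j i (1 : E7 Q7) * w.Q) * w.P
            = (w.Q * w.P) * Matrix.single j i (1 : E7 Q7) * (w.Q * w.P) := by
              simp only [Matrix.mul_assoc]
          _ = Matrix.single j i 1 := by rw [w.QP, Matrix.one_mul, Matrix.mul_one]
      rw [h1]
      apply Matrix.single_apply_of_ne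
      rintro ⟨rfl, rfl⟩
      omega
    have h1 := hV _ hZ
    rw [← Matrix.mul_assoc, Matrix.trace_mul_comm, ← Matrix.mul_assoc, ← Matrix.mul_assoc,
      Matrix.trace_mul_single] at h1
    simpa [WB.co] using h1

end Pool.Agent.MPabcfcd.Loc
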