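import Pool.Agent.Lib.MP_abcfcd_nt.X.Sym
import Pool.Agent.Lib.MP_abcfcd_nt.X.Low

/-!
# The matrix `B0`

`A = X - YB` (skew, `adj_YB`), `exists_low` with `dual_int`: `W`. `V = A - W/7`,
`B0 = -7 √-7 (YB + W/7) = Bm - √-7 W` (because `-7 √-7 √-7 / 49 = 1`). It is integral, its reduction
is `Bm`, it is self-adjoint (`Bm j.rev i.rev = Bm i j` by `decide`; `adj (√-7 W) = √-7 W`), and
`mio B0 = -7 √-7 (X - V)`, where `co V i j = 0` for `a i - a j ≤ -2`.
-/

set_option autoImplicit false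

open Matrix

namespace Pool.Agent.MPabcfcd.Loc

theorem exists_B0 {H X : M7 (E7 Q7)} (hH : Sk H) (w : WB H) (hw : ∀ i, |w.a i| ≤ 6) (hX : Sk X)
    (hX2 : X ∈ gr H (-2))
    (hyp : ∀ l ∈ uni H hH, l ∈ JJ →
      ‖(Matrix.trace (X * (l.mat - 1))).re + trB l / 7‖ ≤ 1) :
    ∃ B0 : M7 (E7 Z7), adj B0 = B0 ∧ (∀ i j, rd (B0 i j) = ((Bm i j : ℤ) : ZMod 7)) ∧
      ∀ i j, w.a i - w.a j ≤ -2 → w.co (mio B0) i j = w.co ((-7 * wE : E7 Q7) • X) i j := by
  have hA : adj (X - YB) = -(X - YB) := by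
    rw [adj_sub, adj_YB, (sk_iff X).1 hX]
    abel
  obtain ⟨W, hWO, hWa, hWV⟩ := exists_low hH w hA
    (fun Z hZ hO => dual_int hH w hw hX hX2 hyp Z hZ hO)
  choose y hy using fun i j => exists_io (hWO i j)
  have hiow : io (wE : E7 Z7) = (wE : E7 Q7) := by
    refine QuadraticAlgebra.ext ?_ ?_
    · show (algebraMap Z7 Q7) (wE : E7 Z7).re = (wE : E7 Q7).re
      rw [wE_re, wE_re, map_zero]
    · show (algebraMap Z7 Q7) (wE : E7 Z7).im = (wE : E7 Q7).im
      rw [wE_im, wE_im, map_one]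
  have hsym : ∀ i j : Fin 7, Bm j.rev i.rev = Bm i j := by decide
  set B0 : M7 (E7 Z7) := Matrix.of fun i j => ((Bm i j : ℤ) : E7 Z7) - wE * y i j with hB0
  have hio : ∀ i j, io (B0 i j) = ((Bm i j : ℤ) : E7 Q7) - wE * W i j := by
    intro i j
    rw [hB0, Matrix.of_apply, map_sub, map_mul, map_intCast, hiow, hy]
  refine ⟨B0, ?_, ?_, ?_⟩
  · ext1 i j
    apply io_injective
    rw [adj_apply, io_star, hio, hio]
    have h1 : star (W j.rev i.rev) = -W i j := by
      rw [← adj_apply, hWa]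
      rfl
    rw [star_sub, star_mul, h1, star_wE, star_intCast, hsym]
    ring
  · intro i j
    have h1 : rd (wE : E7 Z7) = 0 := by
      rw [rd_apply, wE_re, map_zero]
    rw [hB0, Matrix.of_apply, map_sub, map_mul, h1, zero_mul, sub_zero, map_intCast]
  · intro i j hij
    have h0 := hWV i j hij
    have hm : mio B0 = (-7 * wE : E7 Q7) • (YB + (1 / 7 : E7 Q7) • W) := by
      ext1 a b
      have e1 : mio B0 a b = io (B0 a b) := rfl
      rw [e1, hio, Matrix.smul_apply, Matrix.add_apply, Matrix.smul_apply, smul_eq_mul,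
        smul_eq_mul]
      have e2 : YB a b = wE * (((Bm a b : ℤ) : E7 Q7) / 49) := by
        have h49 : (49 : E7 Q7) ≠ 0 := by norm_num
        rw [← mul_div_assoc, eq_div_iff h49]
        have h49' : (49 : Q7) ≠ 0 := by norm_num
        refine QuadraticAlgebra.ext ?_ ?_
        · simp [YB, QuadraticAlgebra.im_ofNat]
        · simp [YB, QuadraticAlgebra.re_ofNat, QuadraticAlgebra.im_ofNat]
      rw [e2]
      have h7 : (7 : E7 Q7) ≠ 0 := by norm_num
      have hw2 := wE_sq (R := Q7)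
      field_simp
      linear_combination ((7 : E7 Q7) * ((Bm a b : ℤ) : E7 Q7)) * hw2
    have hX3 : (-7 * wE : E7 Q7) • X =
        (-7 * wE : E7 Q7) • (X - YB - (1 / 7 : E7 Q7) • W) + mio B0 := by
      rw [hm, ← smul_add]
      congr 1
      abel
    rw [hX3]
    have hco : ∀ (c : E7 Q7) (S T : M7 (E7 Q7)), w.co (c • S + T) i j =
        c * w.co S i j + w.co T i j := by
      intro c S T
      unfold WB.co
      rw [Matrix.mul_add, Matrix.add_mul, Matrix.mul_smul, Matrix.smul_mul, Matrix.add_apply,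
        Matrix.smul_apply, smul_eq_mul]
    rw [hco, h0, mul_zero, zero_add]

end Pool.Agent.MPabcfcd.Loc
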