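import Pool.Agent.Lib.MP_abcfcd_nt.X.Fld

/-!
# The three types

`HasType`: the ranks of the powers. `(7)`: `rank X^7 = 0`, `rank X^6 = 1`, `d = 6`. `(6,1)`:
`rank X^6 = 0`, `rank X^5 = 1`, `d = 5`. `(5,2)`: `rank X^5 = 0`, `rank X^4 = 1`, `rank X = 5`, `d = 4`.
-/

set_option autoImplicit false

open Matrix

namespace Pool.Agent.MPabcfcd.Loc

private theorem typ_zero {A : M7 (E7 ℚ)} (h : A.rank = 0) : A = 0 := by
  have h1 : LinearMap.range A.mulVecLin = ⊥ := Submodule.finrank_eq_zero.1 h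
  have h2 : A.mulVecLin = 0 := LinearMap.range_eq_bot.1 h1
  have h3 : A.mulVecLin = (0 : M7 (E7 ℚ)).mulVecLin := by rw [h2, Matrix.mulVecLin_zero]
  exact Matrix.toLin'.injective h3

private theorem typ_ne {A : M7 (E7 ℚ)} {k : ℕ} (h : A.rank = k) (hk : k ≠ 0) : A ≠ 0 := by
  rintro rfl
  rw [Matrix.rank_zero] at h
  exact hk h.symm

theorem type_data (t : Sl2) (p : Nat.Partition 7) (hp : HasType p t.X)
    (h : p.parts = {7} ∨ p.parts = {6, 1} ∨ p.parts = {5, 2}) :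
    ∃ d : ℕ, 4 ≤ d ∧ d ≤ 6 ∧ t.X ^ (d + 1) = 0 ∧ t.X ^ d ≠ 0 ∧ (d = 4 → t.X.rank = 5) := by
  rcases h with h | h | h
  · refine ⟨6, by norm_num, by norm_num, typ_zero ?_, typ_ne (k := 1) ?_ one_ne_zero,
      fun h => by norm_num at h⟩
    · rw [hp, h]
      simp
    · rw [hp, h]
      simp
  · refine ⟨5, by norm_num, by norm_num, typ_zero ?_, typ_ne (k := 1) ?_ one_ne_zero,
      fun h => by norm_num at h⟩
    · rw [hp, h]
      simp
    · rw [hp, h]
      simp
  · refine ⟨4, by norm_num, by norm_num, typ_zero ?_, typ_ne (k := 1) ?_ one_ne_zero,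
      fun _ => ?_⟩
    · rw [hp, h]
      simp
    · rw [hp, h]
      simp
    · have h1 := hp 1
      rw [pow_one, h] at h1
      rw [h1]
      simp

end Pool.Agent.MPabcfcd.Loc
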