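import Pool.Agent.Lib.MP_abcfcd_nt.X.Fld

/-!
# Leading parts of powers

`lead_pow`: induction on `k`; `(β^(k+1)) i j = ∑ l, (β^k) i l * β l j` with
`a i - a j ≤ -2k - 2`. If `a i - a l > -2k` then `a l - a j < -2` and `β l j = ξ l j = 0`; if
`a l - a j > -2` then `a i - a l < -2k` and `(β^k) i l = (ξ^k) i l = 0`.
-/

set_option autoImplicit false

open Matrix

namespace Pool.Agent.MPabcfcd.Loc

section
variable {R : Type} [CommRing R]

theorem xi_pow {a : Fin 7 → ℤ} {ξ : M7 (E7 R)} (hξ : ∀ i j, a i - a j ≠ -2 → ξ i j = 0) (k : ℕ)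
    (i j : Fin 7) (h : a i - a j ≠ -2 * (k : ℤ)) : (ξ ^ k) i j = 0 := by
  induction k generalizing i j with
  | zero =>
    rw [pow_zero]
    refine Matrix.one_apply_ne ?_
    rintro rfl
    exact h (by simp)
  | succ k ih =>
    rw [pow_succ, Matrix.mul_apply]
    refine Finset.sum_eq_zero fun l _ => ?_
    by_cases hl : a i - a l = -2 * (k : ℤ)
    · rw [hξ l j (fun h2 => h (by push_cast; omega)), mul_zero]
    · rw [ih i l hl, zero_mul]

theorem lead_pow {a : Fin 7 → ℤ} {β ξ : M7 (E7 R)} (hξ : ∀ i j, a i - a j ≠ -2 → ξ i j = 0)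
    (hβ : ∀ i j, a i - a j ≤ -2 → β i j = ξ i j) (k : ℕ) (i j : Fin 7)
    (h : a i - a j ≤ -2 * (k : ℤ)) : (β ^ k) i j = (ξ ^ k) i j := by
  induction k generalizing i j with
  | zero => rw [pow_zero, pow_zero]
  | succ k ih =>
    push_cast at h
    rw [pow_succ, pow_succ, Matrix.mul_apply, Matrix.mul_apply]
    refine Finset.sum_congr rfl fun l _ => ?_
    by_cases hl : a i - a l ≤ -2 * (k : ℤ)
    · rw [ih i l hl]
      by_cases hl2 : a l - a j ≤ -2
      · rw [hβ l j hl2]
      · rw [xi_pow hξ k i l (by omega), zero_mul, zero_mul]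
    · have h2 : ξ l j = 0 := hξ l j (by omega)
      have h3 : β l j = 0 := by rw [hβ l j (by omega), h2]
      rw [h2, h3, mul_zero, mul_zero]

end

end Pool.Agent.MPabcfcd.Loc
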