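import Pool.Agent.Lib.MP_abcfcd_nt.X.WtG
import Pool.Agent.Lib.MP_abcfcd_nt.X.Lead

/-!
# Type `(5, 2)`: the weight zero has multiplicity one

`co X ^ 4 ≠ 0` and `co X` is supported on `a i - a j = -2` with `|a| ≤ 4`: so the weights
`4, 2, 0, -2, -4` occur. By `WB.perm` the numbers of positive and of negative weights are equal, so
the number of zero weights is odd, and it is at most three. If it is three, then the weights are
`4, 2, 0, 0, 0, -2, -4` and the rank of `co X` is at most four: the kernel contains the vector of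
weight `-4` and a plane in the space of weight zero (its image is in a line, the weight space `-2`).
But the rank of `X` is five.
-/

set_option autoImplicit false

open Matrix

namespace Pool.Agent.MPabcfcd.Loc

section field

variable {R : Type} [Field R] [CharZero R] [Fact (∀ r : R, r ^ 2 ≠ (-7 : R) + 0 * r)]

private theorem wt52_add {K : Type} [Field K] (A B : M7 K) :
    (A + B).rank ≤ A.rank + B.rank := by
  unfold Matrix.rank
  rw [Matrix.mulVecLin_add]
  refine (Submodule.finrank_mono ?_).trans (Submodule.finrank_add_le_finrank_add_finrank _ _)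
  rintro _ ⟨x, rfl⟩
  exact Submodule.add_mem_sup ⟨x, rfl⟩ ⟨x, rfl⟩

private theorem wt52_rank {K : Type} [Field K] {a : Fin 7 → ℤ} {C : M7 K}
    (ha : ∀ i, |a i| ≤ 4) (hC : ∀ i j, a i - a j ≠ -2 → C i j = 0) (p4 p2 m2 m4 : Fin 7)
    (h4 : a m4 = -4) (hall : ∀ j, a j = 0 ∨ j = p4 ∨ j = p2 ∨ j = m2 ∨ j = m4)
    (hneg : ∀ i, a i = -2 → i = m2) (hm2 : a m2 = -2) : C.rank ≤ 4 := by
  classical
  have hdec : C = (vecMulVec (fun i => if a p4 = 0 then 0 else C i p4) (Pi.single p4 1) +
      vecMulVec (fun i => if a p2 = 0 ∨ p2 = p4 then 0 else C i p2) (Pi.single p2 1)) +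
      (vecMulVec (fun i => if m2 = p4 ∨ m2 = p2 then 0 else C i m2) (Pi.single m2 1) +
      vecMulVec (Pi.single m2 1) (fun j => if a j = 0 then C m2 j else 0)) := by
    refine Matrix.ext fun i j => ?_
    simp only [Matrix.add_apply, vecMulVec_apply]
    by_cases hj0 : a j = 0
    · have hi : (Pi.single m2 (1 : K) : Fin 7 → K) i * (if a j = 0 then C m2 j else 0) = C i j := by
        rw [if_pos hj0]
        by_cases hi2 : i = m2
        · subst hi2
          rw [Pi.single_eq_same, one_mul]
        · rw [Pi.single_eq_of_ne hi2, zero_mul]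
          refine (hC i j fun h => hi2 (hneg i (by omega))).symm
      rw [hi]
      have k1 : (if a p4 = 0 then 0 else C i p4) * (Pi.single p4 (1 : K) : Fin 7 → K) j = 0 := by
        by_cases h : j = p4
        · subst h
          rw [if_pos hj0, zero_mul]
        · rw [Pi.single_eq_of_ne h, mul_zero]
      have k2 : (if a p2 = 0 ∨ p2 = p4 then 0 else C i p2) *
          (Pi.single p2 (1 : K) : Fin 7 → K) j = 0 := by
        by_cases h : j = p2
        · subst h
          rw [if_pos (Or.inl hj0), zero_mul]
        · rw [Pi.single_eq_of_ne h, mul_zero]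
      have k3 : (if m2 = p4 ∨ m2 = p2 then 0 else C i m2) *
          (Pi.single m2 (1 : K) : Fin 7 → K) j = 0 := by
        have h : j ≠ m2 := fun h => by
          rw [h, hm2] at hj0
          norm_num at hj0
        rw [Pi.single_eq_of_ne h, mul_zero]
      rw [k1, k2, k3]
      ring
    · rw [if_neg hj0, mul_zero, add_zero]
      by_cases e4 : j = p4
      · subst e4
        rw [if_neg hj0, Pi.single_eq_same, mul_one]
        have k2 : (if a p2 = 0 ∨ p2 = j then 0 else C i p2) *
            (Pi.single p2 (1 : K) : Fin 7 → K) j = 0 := by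
          by_cases h : j = p2
          · rw [if_pos (Or.inr h.symm), zero_mul]
          · rw [Pi.single_eq_of_ne h, mul_zero]
        have k3 : (if m2 = j ∨ m2 = p2 then 0 else C i m2) *
            (Pi.single m2 (1 : K) : Fin 7 → K) j = 0 := by
          by_cases h : j = m2
          · rw [if_pos (Or.inl h.symm), zero_mul]
          · rw [Pi.single_eq_of_ne h, mul_zero]
        rw [k2, k3]
        ring
      · rw [Pi.single_eq_of_ne (i := p4) e4, mul_zero, zero_add]
        by_cases e2 : j = p2
        · subst e2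
          rw [if_neg (by tauto), Pi.single_eq_same, mul_one]
          have k3 : (if m2 = p4 ∨ m2 = j then 0 else C i m2) *
              (Pi.single m2 (1 : K) : Fin 7 → K) j = 0 := by
            by_cases h : j = m2
            · rw [if_pos (Or.inr h.symm), zero_mul]
            · rw [Pi.single_eq_of_ne h, mul_zero]
          rw [k3, add_zero]
        · rw [Pi.single_eq_of_ne (i := p2) e2, mul_zero, zero_add]
          by_cases e3 : j = m2
          · subst e3
            rw [if_neg (by tauto), Pi.single_eq_same, mul_one]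
          · rw [Pi.single_eq_of_ne (i := m2) e3, mul_zero]
            have e5 : j = m4 := by
              rcases hall j with h | h | h | h | h
              · exact absurd h hj0
              · exact absurd h e4
              · exact absurd h e2
              · exact absurd h e3
              · exact h
            refine hC i j fun h => ?_
            have h6 := abs_le.1 (ha i)
            rw [e5, h4] at h
            omega
  rw [hdec]
  refine (wt52_add _ _).trans ?_
  have e1 := wt52_add
    (vecMulVec (fun i => if a p4 = 0 then 0 else C i p4) (Pi.single p4 1))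
    (vecMulVec (fun i => if a p2 = 0 ∨ p2 = p4 then 0 else C i p2) (Pi.single p2 1))
  have e2 := wt52_add
    (vecMulVec (fun i => if m2 = p4 ∨ m2 = p2 then 0 else C i m2) (Pi.single m2 1))
    (vecMulVec (Pi.single m2 1) (fun j => if a j = 0 then C m2 j else 0))
  have f1 := Matrix.rank_vecMulVec_le (fun i => if a p4 = 0 then 0 else C i p4)
    (Pi.single p4 (1 : K) : Fin 7 → K)
  have f2 := Matrix.rank_vecMulVec_le (fun i => if a p2 = 0 ∨ p2 = p4 then 0 else C i p2)
    (Pi.single p2 (1 : K) : Fin 7 → K)
  have f3 := Matrix.rank_vecMulVec_le (fun i => if m2 = p4 ∨ m2 = p2 then 0 else C i m2)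
    (Pi.single m2 (1 : K) : Fin 7 → K)
  have f4 := Matrix.rank_vecMulVec_le (Pi.single m2 (1 : K) : Fin 7 → K)
    (fun j => if a j = 0 then C m2 j else 0)
  omega

private theorem wt52_comb {a : Fin 7 → ℤ} (σ : Equiv.Perm (Fin 7)) (hσ : ∀ i, a (σ i) = -a i)
    {p4 p2 m2 m4 z z' : Fin 7} (h4 : a p4 = 4) (h2 : a p2 = 2) (k2 : a m2 = -2) (k4 : a m4 = -4)
    (hz : a z = 0) (hz' : a z' = 0) (hne : z' ≠ z) :
    ∀ j, a j = 0 ∨ j = p4 ∨ j = p2 ∨ j = m2 ∨ j = m4 := by
  classical
  have c1 : (Finset.univ.filter fun i => 0 < a i).card =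
      (Finset.univ.filter fun i => a i < 0).card := by
    refine Finset.card_bij (fun i _ => σ i) ?_ ?_ ?_
    · intro i hi
      rw [Finset.mem_filter] at hi ⊢
      refine ⟨Finset.mem_univ _, ?_⟩
      rw [hσ]
      have := hi.2
      omega
    · intro i _ j _ h
      exact σ.injective h
    · intro b hb
      rw [Finset.mem_filter] at hb
      refine ⟨σ.symm b, ?_, σ.apply_symm_apply b⟩
      rw [Finset.mem_filter]
      refine ⟨Finset.mem_univ _, ?_⟩
      have h := hσ (σ.symm b)
      rw [σ.apply_symm_apply] at h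
      have := hb.2
      omega
  have c2 : (Finset.univ.filter fun i => 0 < a i).card +
      (Finset.univ.filter fun i => a i < 0).card +
      (Finset.univ.filter fun i => a i = 0).card = 7 := by
    rw [Finset.card_filter, Finset.card_filter, Finset.card_filter, ← Finset.sum_add_distrib,
      ← Finset.sum_add_distrib]
    have h : ∀ i : Fin 7, ((if 0 < a i then 1 else 0) + (if a i < 0 then 1 else 0) +
        (if a i = 0 then 1 else 0) : ℕ) = 1 := by
      intro i
      rcases lt_trichotomy (a i) 0 with h | h | h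
      · rw [if_neg (by omega), if_pos h, if_neg (by omega)]
      · rw [if_neg (by omega), if_neg (by omega), if_pos h]
      · rw [if_pos h, if_neg (by omega), if_neg (by omega)]
    rw [Finset.sum_congr rfl fun i _ => h i]
    simp
  have c3 : ({z, z'} : Finset (Fin 7)) ⊆ Finset.univ.filter fun i => a i = 0 := by
    intro i hi
    rw [Finset.mem_insert, Finset.mem_singleton] at hi
    rw [Finset.mem_filter]
    rcases hi with rfl | rfl
    · exact ⟨Finset.mem_univ _, hz⟩
    · exact ⟨Finset.mem_univ _, hz'⟩
  have c4 : ({p4, p2} : Finset (Fin 7)) ⊆ Finset.univ.filter fun i => 0 < a i := by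
    intro i hi
    rw [Finset.mem_insert, Finset.mem_singleton] at hi
    rw [Finset.mem_filter]
    rcases hi with rfl | rfl
    · exact ⟨Finset.mem_univ _, by omega⟩
    · exact ⟨Finset.mem_univ _, by omega⟩
  have c5 : ({m2, m4} : Finset (Fin 7)) ⊆ Finset.univ.filter fun i => a i < 0 := by
    intro i hi
    rw [Finset.mem_insert, Finset.mem_singleton] at hi
    rw [Finset.mem_filter]
    rcases hi with rfl | rfl
    · exact ⟨Finset.mem_univ _, by omega⟩
    · exact ⟨Finset.mem_univ _, by omega⟩
  have n3 : ({z, z'} : Finset (Fin 7)).card = 2 := Finset.card_pair hne.symm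
  have n4 : ({p4, p2} : Finset (Fin 7)).card = 2 := Finset.card_pair fun h => by
    rw [h, h2] at h4
    norm_num at h4
  have n5 : ({m2, m4} : Finset (Fin 7)).card = 2 := Finset.card_pair fun h => by
    rw [h, k4] at k2
    norm_num at k2
  have d3 := Finset.card_le_card c3
  have d4 := Finset.card_le_card c4
  have d5 := Finset.card_le_card c5
  have q4 := Finset.eq_of_subset_of_card_le c4 (by omega)
  have q5 := Finset.eq_of_subset_of_card_le c5 (by omega)
  intro j
  rcases lt_trichotomy (a j) 0 with h | h | h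
  · have h1 : j ∈ ({m2, m4} : Finset (Fin 7)) := by
      rw [q5, Finset.mem_filter]
      exact ⟨Finset.mem_univ _, h⟩
    rw [Finset.mem_insert, Finset.mem_singleton] at h1
    rcases h1 with h1 | h1
    · exact Or.inr (Or.inr (Or.inr (Or.inl h1)))
    · exact Or.inr (Or.inr (Or.inr (Or.inr h1)))
  · exact Or.inl h
  · have h1 : j ∈ ({p4, p2} : Finset (Fin 7)) := by
      rw [q4, Finset.mem_filter]
      exact ⟨Finset.mem_univ _, h⟩
    rw [Finset.mem_insert, Finset.mem_singleton] at h1
    rcases h1 with h1 | h1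
    · exact Or.inr (Or.inl h1)
    · exact Or.inr (Or.inr (Or.inl h1))

theorem one_zero {H X : M7 (E7 R)} (hH : Sk H) (w : WB H) (hw : ∀ i, |w.a i| ≤ 4)
    (hX2 : X ∈ gr H (-2)) (hX4 : X ^ 4 ≠ 0) (hr : X.rank = 5) :
    ∃ z, w.a z = 0 ∧ ∀ i, w.a i = 0 → i = z := by
  classical
  have hC : ∀ i j, w.a i - w.a j ≠ -2 → w.co X i j = 0 := (w.mem_gr_iff isUnit_int X (-2)).1 hX2
  have hC4 : (w.co X) ^ 4 ≠ 0 := by
    intro h
    apply hX4
    apply w.co_injective
    rw [w.co_pow, h]
    simp [WB.co]
  obtain ⟨i, j, hij⟩ : ∃ i j, ((w.co X) ^ 4) i j ≠ 0 := by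
    by_contra hcon
    push Not at hcon
    exact hC4 (Matrix.ext hcon)
  have e4 : (w.co X) ^ 4 = w.co X * (w.co X * (w.co X * w.co X)) := by
    rw [pow_succ', pow_succ', pow_succ', pow_one]
  rw [e4, Matrix.mul_apply] at hij
  obtain ⟨l1, -, h1⟩ := Finset.exists_ne_zero_of_sum_ne_zero hij
  have r1 := right_ne_zero_of_mul h1
  rw [Matrix.mul_apply] at r1
  obtain ⟨l2, -, h2⟩ := Finset.exists_ne_zero_of_sum_ne_zero r1
  have r2 := right_ne_zero_of_mul h2
  rw [Matrix.mul_apply] at r2
  obtain ⟨l3, -, h3⟩ := Finset.exists_ne_zero_of_sum_ne_zero r2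
  have key : ∀ i j, w.co X i j ≠ 0 → w.a i - w.a j = -2 := fun i j h => by
    by_contra h'
    exact h (hC i j h')
  have a1 := key _ _ (left_ne_zero_of_mul h1)
  have a2 := key _ _ (left_ne_zero_of_mul h2)
  have a3 := key _ _ (left_ne_zero_of_mul h3)
  have a4 := key _ _ (right_ne_zero_of_mul h3)
  have b1 := abs_le.1 (hw i)
  have b2 := abs_le.1 (hw j)
  refine ⟨l2, by omega, ?_⟩
  by_contra hcon
  push Not at hcon
  obtain ⟨z', hz', hne⟩ := hcon
  obtain ⟨σ, hσ⟩ := w.perm hH
  have hall := wt52_comb σ hσ (p4 := j) (p2 := l3) (m2 := l1) (m4 := i) (by omega) (by omega)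
    (by omega) (by omega) (z := l2) (by omega) hz' hne
  have hneg : ∀ k, w.a k = -2 → k = l1 := by
    intro k hk
    rcases hall k with h | h | h | h | h
    · omega
    · rw [h] at hk
      omega
    · rw [h] at hk
      omega
    · exact h
    · rw [h] at hk
      omega
  have hrk := wt52_rank hw hC j l3 l1 i (by omega) hall hneg (by omega)
  have hle : X.rank ≤ (w.co X).rank := by
    have h := w.P_co_Q X
    calc X.rank = (w.P * w.co X * w.Q).rank := by rw [h]
      _ ≤ (w.P * w.co X).rank := Matrix.rank_mul_le_left _ _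
      _ ≤ (w.co X).rank := Matrix.rank_mul_le_right _ _
  omega

end field

end Pool.Agent.MPabcfcd.Loc
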