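import Pool.Agent.Lib.MP_abcfcd_nt.X.Core
import Pool.Agent.Lib.MP_abcfcd_nt.X.Wt52
import Pool.Agent.Lib.MP_abcfcd_nt.X.Typ
import Pool.Agent.Lib.MP_abcfcd_nt.N.Diag

/-!
# Local exclusion at the prime seven

For nilpotent elements of the types `(7)`, `(6,1)`, `(5,2)` the character `ψ_X` of `V_X` and the
character of `J` are never compatible.

`type_data` gives `d`; weight basis `w` over `ℚ` with `|a| ≤ d` by `exists_WB`; for `d = 4` `one_zero`
over `ℚ`. Then `H = g⁻¹ h g`, `X' = g⁻¹ X g` over `ℚ₇(√-7)`, weight basis `(w.map _).conj g`, `core`,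
and `u = g l g⁻¹`.
-/

set_option autoImplicit false

open Matrix Topology MeasureTheory

namespace Pool.Agent.MPabcfcd

open Loc

section LXgen

variable {R : Type} [CommRing R]

private theorem lx_gg (g : U7 R) : g.mat * (g⁻¹).mat = 1 := by
  rw [← U7.mat_mul, mul_inv_cancel, U7.mat_one]

private theorem lx_gg' (g : U7 R) : (g⁻¹).mat * g.mat = 1 := by
  rw [← U7.mat_mul, inv_mul_cancel, U7.mat_one]

private theorem lx_adj (g : U7 R) : adj g.mat = (g⁻¹).mat := rfl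

private theorem lx_adj' (g : U7 R) : adj (g⁻¹).mat = g.mat := by
  rw [← lx_adj, adj_adj]

private theorem lx_sk (g : U7 R) {Z : M7 (E7 R)} (hZ : Sk Z) :
    Sk ((g⁻¹).mat * Z * g.mat) := by
  rw [sk_iff] at hZ ⊢
  rw [adj_mul, adj_mul, hZ, lx_adj, lx_adj', neg_mul, mul_neg, Matrix.mul_assoc]

private theorem lx_mul (g : U7 R) (S T : M7 (E7 R)) :
    ((g⁻¹).mat * S * g.mat) * ((g⁻¹).mat * T * g.mat) = (g⁻¹).mat * (S * T) * g.mat := by
  calc ((g⁻¹).mat * S * g.mat) * ((g⁻¹).mat * T * g.mat)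
      = (g⁻¹).mat * S * (g.mat * (g⁻¹).mat) * T * g.mat := by
        simp only [Matrix.mul_assoc]
    _ = (g⁻¹).mat * (S * T) * g.mat := by
        rw [lx_gg, Matrix.mul_one]
        simp only [Matrix.mul_assoc]

private theorem lx_pow (g : U7 R) (S : M7 (E7 R)) (k : ℕ) :
    ((g⁻¹).mat * S * g.mat) ^ k = (g⁻¹).mat * S ^ k * g.mat := by
  induction k with
  | zero => rw [pow_zero, pow_zero, Matrix.mul_one, lx_gg']
  | succ k ih => rw [pow_succ, ih, lx_mul, ← pow_succ]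

private theorem lx_gr (g : U7 R) {H T : M7 (E7 R)} {k : ℤ} (hT : T ∈ gr H k) :
    (g⁻¹).mat * T * g.mat ∈ gr ((g⁻¹).mat * H * g.mat) k := by
  rw [mem_gr] at hT ⊢
  rw [lx_mul, lx_mul, ← sub_mul, ← mul_sub, hT, Matrix.mul_smul, Matrix.smul_mul]

private theorem lx_gr' (g : U7 R) {H T : M7 (E7 R)} {k : ℤ}
    (hT : T ∈ gr ((g⁻¹).mat * H * g.mat) k) : g.mat * T * (g⁻¹).mat ∈ gr H k := by
  have h1 := lx_gr g⁻¹ hT
  rw [inv_inv] at h1
  have h2 : g.mat * ((g⁻¹).mat * H * g.mat) * (g⁻¹).mat = H := by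
    calc g.mat * ((g⁻¹).mat * H * g.mat) * (g⁻¹).mat
        = (g.mat * (g⁻¹).mat) * H * (g.mat * (g⁻¹).mat) := by
          simp only [Matrix.mul_assoc]
      _ = H := by rw [lx_gg, Matrix.one_mul, Matrix.mul_one]
  rwa [h2] at h1

private theorem lx_fil' (g : U7 R) {H T : M7 (E7 R)} {k : ℤ}
    (hT : T ∈ fil ((g⁻¹).mat * H * g.mat) k) : g.mat * T * (g⁻¹).mat ∈ fil H k := by
  refine fil_induction (p := fun T => g.mat * T * (g⁻¹).mat ∈ fil H k) ?_ ?_ ?_ hT
  · intro i hi T hT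
    exact gr_le_fil H hi (lx_gr' g hT)
  · rw [mul_zero, zero_mul]
    exact Submodule.zero_mem _
  · intro A B hA hB
    rw [mul_add, add_mul]
    exact Submodule.add_mem _ hA hB

private theorem lx_mapM_mul {S : Type} [CommRing S] (f : R →+* S) (A B : M7 (E7 R)) :
    mapM f (A * B) = mapM f A * mapM f B := by
  simp only [mapM]
  rw [Matrix.map_mul]

private theorem lx_mapM_pow {S : Type} [CommRing S] (f : R →+* S) (A : M7 (E7 R)) (k : ℕ) :
    mapM f (A ^ k) = mapM f A ^ k := by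
  induction k with
  | zero =>
    rw [pow_zero, pow_zero]
    exact Matrix.map_one _ (map_zero _) (map_one _)
  | succ k ih => rw [pow_succ, lx_mapM_mul, ih, ← pow_succ]

private theorem lx_mapM_inj {S : Type} [CommRing S] {f : R →+* S} (hf : Function.Injective f)
    {A : M7 (E7 R)} (h : mapM f A = 0) : A = 0 := by
  refine Matrix.ext fun i j => ?_
  have h1 := congrFun (congrFun h i) j
  have h2 : E7.map f (A i j) = 0 := h1
  have h3 := congrArg QuadraticAlgebra.re h2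
  have h4 := congrArg QuadraticAlgebra.im h2
  refine QuadraticAlgebra.ext ?_ ?_
  · exact hf (h3.trans (map_zero f).symm)
  · exact hf (h4.trans (map_zero f).symm)

private theorem lx_mapM_gr {S : Type} [CommRing S] (f : R →+* S) {H T : M7 (E7 R)} {k : ℤ}
    (hT : T ∈ gr H k) : mapM f T ∈ gr (mapM f H) k := by
  rw [mem_gr] at hT ⊢
  have h1 := congrArg (mapM f) hT
  have h2 : mapM f (H * T - T * H) = mapM f H * mapM f T - mapM f T * mapM f H := by
    rw [← lx_mapM_mul, ← lx_mapM_mul]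
    refine Matrix.ext fun i j => ?_
    exact map_sub (E7.map f) _ _
  have h3 : mapM f ((k : E7 R) • T) = (k : E7 S) • mapM f T := by
    refine Matrix.ext fun i j => ?_
    have h4 : E7.map f ((k : E7 R) * T i j) = (k : E7 S) * E7.map f (T i j) := by
      rw [map_mul, map_intCast]
    exact h4
  rw [← h2, h1, h3]

private theorem lx_one (g l : U7 R) :
    (g * l * g⁻¹).mat - 1 = g.mat * (l.mat - 1) * (g⁻¹).mat := by
  rw [U7.mat_mul, U7.mat_mul, mul_sub, sub_mul, Matrix.mul_one, lx_gg]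

private theorem lx_tr (g l : U7 R) (X : M7 (E7 R)) :
    Matrix.trace (X * ((g * l * g⁻¹).mat - 1)) =
      Matrix.trace ((g⁻¹).mat * X * g.mat * (l.mat - 1)) := by
  have h3 : X * (g.mat * (l.mat - 1) * (g⁻¹).mat) = (X * g.mat * (l.mat - 1)) * (g⁻¹).mat := by
    simp only [Matrix.mul_assoc]
  rw [lx_one, h3, Matrix.trace_mul_comm]
  congr 1
  simp only [Matrix.mul_assoc]

private theorem lx_zero (g : U7 R) {S : M7 (E7 R)} (h : (g⁻¹).mat * S * g.mat = 0) : S = 0 := by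
  have h3 : g.mat * ((g⁻¹).mat * S * g.mat) * (g⁻¹).mat = S := by
    calc g.mat * ((g⁻¹).mat * S * g.mat) * (g⁻¹).mat
        = (g.mat * (g⁻¹).mat) * S * (g.mat * (g⁻¹).mat) := by
          simp only [Matrix.mul_assoc]
      _ = S := by rw [lx_gg, Matrix.one_mul, Matrix.mul_one]
  rw [← h3, h, mul_zero, zero_mul]

private theorem lx_uni (g l : U7 R) {H : M7 (E7 R)} (hH : Sk H)
    (hH' : Sk ((g⁻¹).mat * H * g.mat)) (hl : l ∈ uni _ hH') : g * l * g⁻¹ ∈ uni H hH := by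
  show (g * l * g⁻¹).mat - 1 ∈ fil H 2
  rw [lx_one]
  exact lx_fil' g hl

end LXgen

private theorem lx_X_gr (t : Sl2) : t.X ∈ gr t.h (-2) := by
  rw [mem_gr, t.h_X, two_nsmul]
  push_cast
  rw [neg_smul, two_smul]

theorem local_excl (t : Sl2) (p : Nat.Partition 7) (hp : HasType p t.X)
    (h : p.parts = {7} ∨ p.parts = {6, 1} ∨ p.parts = {5, 2}) (g : U7 ℚ_[p7]) :
    ∃ u ∈ uni (mapM (Rat.castHom ℚ_[p7]) t.h) (t.sk_h.map _), g⁻¹ * u * g ∈ JJ ∧
      ¬ ‖(Matrix.trace (mapM (Rat.castHom ℚ_[p7]) t.X * (u.mat - 1))).re +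
        trB (g⁻¹ * u * g) / 7‖ ≤ 1 := by
  obtain ⟨d, hd4, hd6, hX1, hX2, hr⟩ := type_data t p hp h
  obtain ⟨w, hw⟩ := exists_WB t
  have hwd := hw d hX1
  have hH := lx_sk g (t.sk_h.map (Rat.castHom ℚ_[p7]))
  have hXd : ((g⁻¹).mat * mapM (Rat.castHom ℚ_[p7]) t.X * g.mat) ^ d ≠ 0 := by
    rw [lx_pow, ← lx_mapM_pow]
    intro h1
    exact hX2 (lx_mapM_inj (Rat.castHom ℚ_[p7]).injective (lx_zero g h1))
  have h52 : d = 4 → ∃ z, ((w.map (Rat.castHom ℚ_[p7])).conj g).a z = 0 ∧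
      ∀ i, ((w.map (Rat.castHom ℚ_[p7])).conj g).a i = 0 → i = z := by
    rintro rfl
    exact one_zero t.sk_h w (fun i => by exact_mod_cast hwd i) (lx_X_gr t) hX2 (hr rfl)
  obtain ⟨l, hl, hlJ, hn⟩ := core hH ((w.map (Rat.castHom ℚ_[p7])).conj g) d
    hd4 hd6 hwd (lx_sk g (t.sk_X.map _)) (lx_gr g (lx_mapM_gr _ (lx_X_gr t))) hXd h52
  have hu : g⁻¹ * (g * l * g⁻¹) * g = l := by group
  refine ⟨g * l * g⁻¹, lx_uni g l _ hH hl, ?_, ?_⟩
  · rw [hu]
    exact hlJ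
  · rw [hu, lx_tr]
    exact hn

end Pool.Agent.MPabcfcd
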