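import Pool.Agent.Lib.MP_abcfcd_nt.X.Lead
import Pool.Agent.Lib.MP_abcfcd_nt.X.WtG

/-!
# Moments of vectors of highest weight

`hf (P x) (B^k P x) = star x ⬝ gm (co B)^k x` (`WB.hf_P`, `B^k P = P (co B)^k`); nonzero terms have
`a i = d`, `a j = -d` (`gm_zero`), `a l = d`, and `(co B ^ k) j l` is `((c co X)^k) j l` for `k ≤ d` by
`lead_pow` with `ξ = co (c • X)`; this is `0` for `k < d` (`xi_pow`) and `(c^d co X ^ d) j l` for
`k = d`. `isUnit_int`: nonzero integers are units of `ℚ₇`.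
-/

set_option autoImplicit false

open Matrix

namespace Pool.Agent.MPabcfcd.Loc

private theorem Mom_congr {R : Type} [CommRing R] (hZ : ∀ n : ℤ, n ≠ 0 → IsUnit (n : R))
    {H : M7 (E7 R)} (hH : Sk H) (w : WB H) (d : ℤ) (x : Fin 7 → E7 R)
    (hx : ∀ i, w.a i ≠ d → x i = 0) (M N : M7 (E7 R))
    (h : ∀ j l, w.a j = -d → w.a l = d → w.co M j l = w.co N j l) :
    hf (w.P *ᵥ x) (M *ᵥ (w.P *ᵥ x)) = hf (w.P *ᵥ x) (N *ᵥ (w.P *ᵥ x)) := by
  have h1 : ∀ T : M7 (E7 R), T *ᵥ (w.P *ᵥ x) = w.P *ᵥ (w.co T *ᵥ x) := by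
    intro T
    rw [Matrix.mulVec_mulVec, Matrix.mulVec_mulVec]
    congr 1
    unfold WB.co
    rw [← Matrix.mul_assoc, ← Matrix.mul_assoc, w.PQ, Matrix.one_mul]
  have e : ∀ (T : M7 (E7 R)) (v : Fin 7 → E7 R) (i : Fin 7),
      (T *ᵥ v) i = ∑ j, T i j * v j := fun _ _ _ => rfl
  have e2 : ∀ u v : Fin 7 → E7 R, u ⬝ᵥ v = ∑ i, u i * v i := fun _ _ => rfl
  rw [h1 M, h1 N, w.hf_P, w.hf_P, e2, e2]
  refine Finset.sum_congr rfl fun i _ => ?_
  by_cases hi : w.a i = d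
  · rw [e, e]
    congr 1
    refine Finset.sum_congr rfl fun j _ => ?_
    by_cases hj : w.a j = -d
    · rw [e, e]
      congr 1
      refine Finset.sum_congr rfl fun l _ => ?_
      by_cases hl : w.a l = d
      · rw [h j l hj hl]
      · rw [hx l hl, mul_zero, mul_zero]
    · have h3 : w.gm i j = 0 := w.gm_zero hZ hH i j (by
        rw [hi]
        intro h2
        exact hj (by linarith))
      rw [h3, zero_mul, zero_mul]
  · have h2 : (star x) i = 0 := by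
      rw [Pi.star_apply, hx i hi, star_zero]
    rw [h2, zero_mul, zero_mul]

private theorem Mom_gen {R : Type} [CommRing R] (hZ : ∀ n : ℤ, n ≠ 0 → IsUnit (n : R))
    {H X : M7 (E7 R)} (hH : Sk H) (w : WB H) (d : ℕ) (hX2 : X ∈ gr H (-2))
    (B : M7 (E7 R)) (c : E7 R)
    (hB : ∀ i j, w.a i - w.a j ≤ -2 → w.co B i j = w.co (c • X) i j) (x : Fin 7 → E7 R)
    (hx : ∀ i, w.a i ≠ d → x i = 0) :
    (∀ k < d, hf (w.P *ᵥ x) (B ^ k *ᵥ (w.P *ᵥ x)) = 0) ∧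
      hf (w.P *ᵥ x) (B ^ d *ᵥ (w.P *ᵥ x)) = c ^ d * hf (w.P *ᵥ x) (X ^ d *ᵥ (w.P *ᵥ x)) := by
  have hξ : ∀ i j, w.a i - w.a j ≠ -2 → w.co (c • X) i j = 0 := by
    intro i j hij
    have h2 := (w.mem_gr_iff hZ (c • X) (-2)).1 (Submodule.smul_mem _ c hX2)
    exact h2 i j hij
  refine ⟨fun k hk => ?_, ?_⟩
  · have h2 := Mom_congr hZ hH w d x hx (B ^ k) 0 (fun j l hj hl => by
      have hjl : w.a j - w.a l = -2 * (d : ℤ) := by
        rw [hj, hl]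
        ring
      have hkd : (k : ℤ) < d := by exact_mod_cast hk
      rw [w.co_pow, lead_pow (ξ := w.co (c • X)) hξ hB k j l (by rw [hjl]; linarith),
        xi_pow hξ k j l (by rw [hjl]; intro h3; linarith)]
      unfold WB.co
      simp)
    rw [h2, Matrix.zero_mulVec, hf_zero_right]
  · have h2 := Mom_congr hZ hH w d x hx (B ^ d) ((c • X) ^ d) (fun j l hj hl => by
      have hjl : w.a j - w.a l = -2 * (d : ℤ) := by
        rw [hj, hl]
        ring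
      rw [w.co_pow, lead_pow (ξ := w.co (c • X)) hξ hB d j l (by rw [hjl]), w.co_pow])
    rw [h2, smul_pow, Matrix.smul_mulVec, hf_smul_right]

theorem moments {H X : M7 (E7 Q7)} (hH : Sk H) (w : WB H) (d : ℕ) (hX2 : X ∈ gr H (-2))
    (B : M7 (E7 Q7)) (c : E7 Q7)
    (hB : ∀ i j, w.a i - w.a j ≤ -2 → w.co B i j = w.co (c • X) i j) (x : Fin 7 → E7 Q7)
    (hx : ∀ i, w.a i ≠ d → x i = 0) :
    (∀ k < d, hf (w.P *ᵥ x) (B ^ k *ᵥ (w.P *ᵥ x)) = 0) ∧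
      hf (w.P *ᵥ x) (B ^ d *ᵥ (w.P *ᵥ x)) = c ^ d * hf (w.P *ᵥ x) (X ^ d *ᵥ (w.P *ᵥ x)) := by
  exact Mom_gen isUnit_int hH w d hX2 B c hB x hx

end Pool.Agent.MPabcfcd.Loc
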