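import Pool.Agent.Lib.MP_abcfcd_nt.X.Cl
import Pool.Agent.Lib.MP_abcfcd_nt.X.Dec

/-!
# Quadratic polynomials over the `7`-adic numbers

Scale `(q2, q1, q0)` by a power of seven to a primitive integral vector `(a, b, c)`; the class does
not change. For every `i` the value `a l² + b l + c` is `a i² + b i + c` modulo seven. If this is not
zero, then the value is a unit, so it is not zero and `leg (a i² + b i + c) = cl (value) = - dl i`.
By `dec_lemma`, `leg a = -1` modulo seven; so `a` is a unit and `cl q2 = cl a = -1`.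
-/

set_option autoImplicit false

open Matrix

namespace Pool.Agent.MPabcfcd.Loc

private theorem Quad_norm {a : Q7} (ha : a ≠ 0) : ‖(7 : Q7) ^ (-a.valuation) * a‖ = 1 := by
  rw [mul_comm, norm_mul, norm_zpow, norm_seven, Padic.norm_eq_zpow_neg_valuation ha, cast_p7,
    one_div, ← mul_zpow, mul_inv_cancel₀ (by norm_num : (7 : ℝ) ≠ 0), _root_.one_zpow]

private theorem Quad_max (q2 q1 q0 : Q7) : ∃ x : Q7, (x = q2 ∨ x = q1 ∨ x = q0) ∧
    ‖q2‖ ≤ ‖x‖ ∧ ‖q1‖ ≤ ‖x‖ ∧ ‖q0‖ ≤ ‖x‖ := by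
  rcases le_total ‖q2‖ ‖q1‖ with h | h
  · rcases le_total ‖q1‖ ‖q0‖ with h' | h'
    · exact ⟨q0, Or.inr (Or.inr rfl), h.trans h', h', le_rfl⟩
    · exact ⟨q1, Or.inr (Or.inl rfl), h, le_rfl, h'⟩
  · rcases le_total ‖q2‖ ‖q0‖ with h' | h'
    · exact ⟨q0, Or.inr (Or.inr rfl), h', h.trans h', le_rfl⟩
    · exact ⟨q2, Or.inl rfl, le_rfl, h, h'⟩

theorem quad_class (q2 q1 q0 : Q7) (h : ¬ (q2 = 0 ∧ q1 = 0 ∧ q0 = 0)) (l : Fin 7 → Z7)
    (hl : ∀ i, toZ (l i) = ((i : ℕ) : ZMod 7))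
    (hc : ∀ i, q2 * (l i : Q7) ^ 2 + q1 * (l i : Q7) + q0 = 0 ∨
      cl (q2 * (l i : Q7) ^ 2 + q1 * (l i : Q7) + q0) = - dl i) : cl q2 = -1 := by
  obtain ⟨x, hx, h2, h1, h0⟩ := Quad_max q2 q1 q0
  have hx0 : x ≠ 0 := by
    intro h3
    rw [h3, norm_zero] at h2 h1 h0
    exact h ⟨norm_le_zero_iff.1 h2, norm_le_zero_iff.1 h1, norm_le_zero_iff.1 h0⟩
  set s : Q7 := (7 : Q7) ^ (-x.valuation) with hs
  have hsx : ‖s * x‖ = 1 := Quad_norm hx0
  have hle : ∀ y : Q7, ‖y‖ ≤ ‖x‖ → ‖s * y‖ ≤ 1 := by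
    intro y hy
    rw [← hsx, norm_mul, norm_mul]
    exact mul_le_mul_of_nonneg_left hy (norm_nonneg _)
  have hcs : ∀ y : Q7, cl (s * y) = cl y := by
    intro y
    rw [cl_mul, hs, cl_seven_zpow, one_mul]
  let a : Z7 := ⟨s * q2, hle q2 h2⟩
  let b : Z7 := ⟨s * q1, hle q1 h1⟩
  let c : Z7 := ⟨s * q0, hle q0 h0⟩
  have hne : ¬ (toZ a = 0 ∧ toZ b = 0 ∧ toZ c = 0) := by
    rintro ⟨ha, hb, hc'⟩
    rw [toZ_eq_zero] at ha hb hc'
    have ha' : ‖s * q2‖ < 1 := ha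
    have hb' : ‖s * q1‖ < 1 := hb
    have hc'' : ‖s * q0‖ < 1 := hc'
    rcases hx with h3 | h3 | h3
    · rw [h3] at hsx
      exact ha'.ne hsx
    · rw [h3] at hsx
      exact hb'.ne hsx
    · rw [h3] at hsx
      exact hc''.ne hsx
  have key : leg (toZ a) = -1 := by
    refine dec_lemma (toZ a) (toZ b) (toZ c) hne fun i => ?_
    have hV : toZ (a * l i ^ 2 + b * l i + c) = toZ a * ((i : ℕ) : ZMod 7) ^ 2 +
        toZ b * ((i : ℕ) : ZMod 7) + toZ c := by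
      rw [map_add, map_add, map_mul, map_mul, map_pow, hl]
    have hV2 : ((a * l i ^ 2 + b * l i + c : Z7) : Q7) =
        s * (q2 * (l i : Q7) ^ 2 + q1 * (l i : Q7) + q0) := by
      have e1 : (a : Q7) = s * q2 := rfl
      have e2 : (b : Q7) = s * q1 := rfl
      have e3 : (c : Q7) = s * q0 := rfl
      push_cast
      rw [e1, e2, e3]
      ring
    rw [← hV]
    by_cases h3 : toZ (a * l i ^ 2 + b * l i + c) = 0
    · exact Or.inl h3
    · right
      rw [← cl_unit _ h3, hV2, hcs]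
      rcases hc i with h4 | h4
      · exfalso
        rw [h4, mul_zero] at hV2
        apply h3
        have h5 : a * l i ^ 2 + b * l i + c = 0 := Subtype.ext hV2
        rw [h5, map_zero]
      · exact h4
  have ha : toZ a ≠ 0 := by
    intro h3
    rw [h3] at key
    exact absurd key (by decide)
  have h5 := cl_unit a ha
  rw [key] at h5
  rw [← hcs q2]
  exact h5

end Pool.Agent.MPabcfcd.Loc
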