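import Pool.Agent.Lib.MP_abcfcd_nt.X.Test

/-!
# Symmetrisation

`A = X - YB` is skew (`adj A = -A`). For `Z' ∈ fil H 2` with entries in `√-7 O` (`re` in `7 ℤ₇`, `im` in
`ℤ₇`) put `Z = (Z' - adj Z') / 2`; it is in `fil H 2` (`adj_mem_fil`), skew, and again has entries in
`√-7 O`. `test_elt` and `hyp` give `‖re tr (X Z) + (∑ B_ij im Z_ji) / 7‖ ≤ 1`, and
`re tr (YB Z) = - (∑ B_ij im Z_ji) / 7`; so `‖re tr (A Z)‖ ≤ 1`. Now
`tr (A (adj Z')) = - star (tr (A Z'))` (`trace_adj`, `adj_mul`, `trace_mul_comm`), so `tr (A Z)` is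
the real part of `tr (A Z')`. For integral `Z ∈ fil H 2` take `Z' = √-7 Z` and `Z' = 7 Z`: with
`τ = tr (A Z)`, `re (√-7 τ) = -7 im τ` and `re (7 τ)` are integral, so `7 τ` is integral.
-/

set_option autoImplicit false

open Matrix

namespace Pool.Agent.MPabcfcd.Loc

/-- The matrix `(√-7 / 49) B`. -/
noncomputable def YB : M7 (E7 Q7) := Matrix.of fun i j => ⟨0, (Bm i j : Q7) / 49⟩

private theorem sym_Bm : ∀ i j : Fin 7, Bm j.rev i.rev = Bm i j := by decide

theorem adj_YB : adj YB = -YB := by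
  refine Matrix.ext fun i j => ?_
  rw [adj_apply, Matrix.neg_apply]
  have h := sym_Bm i j
  ext
  · simp [YB]
  · simp [YB, h]

/-- one half -/
private noncomputable def sym_h : E7 Q7 := ⟨1 / 2, 0⟩

private theorem sym_norm : ‖(1 / 2 : Q7)‖ = 1 := by
  have h : ‖((2 : ℕ) : Q7)‖ = 1 := by
    rw [Padic.norm_natCast_eq_one_iff]
    decide
  rw [norm_div, norm_one]
  have h2 : ((2 : ℕ) : Q7) = 2 := by norm_num
  rw [← h2, h, div_one]

private theorem sym_star : star sym_h = sym_h := by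
  ext <;> simp [sym_h]

private theorem sym_re (z : E7 Q7) : (sym_h * z).re = 1 / 2 * z.re := by
  rw [QuadraticAlgebra.re_mul]
  simp [sym_h]

private theorem sym_im (z : E7 Q7) : (sym_h * z).im = 1 / 2 * z.im := by
  rw [QuadraticAlgebra.im_mul]
  simp [sym_h]

/-- the real part -/
private noncomputable def sym_R : E7 Q7 →+ Q7 where
  toFun z := z.re
  map_zero' := rfl
  map_add' _ _ := rfl

private theorem sym_sum_re (f : Fin 7 → E7 Q7) : (∑ i, f i).re = ∑ i, (f i).re := by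
  have h := map_sum sym_R f Finset.univ
  exact h

private theorem sym_trace_re (M : M7 (E7 Q7)) : (Matrix.trace M).re = ∑ i, (M i i).re :=
  sym_sum_re fun i => M i i

private theorem sym_YB (Z : M7 (E7 Q7)) :
    (Matrix.trace (YB * Z)).re = -((∑ i, ∑ j, (Bm i j : Q7) * (Z j i).im) / 7) := by
  rw [sym_trace_re, Finset.sum_div, ← Finset.sum_neg_distrib]
  refine Finset.sum_congr rfl fun i _ => ?_
  rw [Matrix.mul_apply, sym_sum_re, Finset.sum_div, ← Finset.sum_neg_distrib]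
  refine Finset.sum_congr rfl fun j _ => ?_
  rw [QuadraticAlgebra.re_mul]
  simp only [YB, Matrix.of_apply]
  ring

private theorem sym_key {H X : M7 (E7 Q7)} (hH : Sk H) (w : WB H) (hw : ∀ i, |w.a i| ≤ 6)
    (hX : Sk X) (hX2 : X ∈ gr H (-2))
    (hyp : ∀ l ∈ uni H hH, l ∈ JJ →
      ‖(Matrix.trace (X * (l.mat - 1))).re + trB l / 7‖ ≤ 1)
    (Z : M7 (E7 Q7)) (hZ : Z ∈ fil H 2) (hre : ∀ i j, ‖(Z i j).re‖ ≤ 1 / 7)
    (him : ∀ i j, ‖(Z i j).im‖ ≤ 1) : ‖(Matrix.trace ((X - YB) * Z)).re‖ ≤ 1 := by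
  have hA : adj (X - YB) = -(X - YB) := by
    rw [adj_sub, (sk_iff X).1 hX, adj_YB]
    abel
  have h1 : Matrix.trace ((X - YB) * adj Z) = -star (Matrix.trace ((X - YB) * Z)) := by
    rw [← trace_adj, adj_mul, hA, mul_neg, Matrix.trace_neg, neg_neg, Matrix.trace_mul_comm]
  have hW : sym_h • (Z - adj Z) ∈ fil H 2 :=
    Submodule.smul_mem _ _ (Submodule.sub_mem _ hZ (adj_mem_fil hH hZ))
  have hs : adj (sym_h • (Z - adj Z)) = -(sym_h • (Z - adj Z)) := by
    rw [adj_smul, sym_star, adj_sub, adj_adj, ← smul_neg, neg_sub]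
  have hwr : ∀ i j, ‖((sym_h • (Z - adj Z)) i j).re‖ ≤ 1 / 7 := by
    intro i j
    rw [Matrix.smul_apply, smul_eq_mul, sym_re, norm_mul, sym_norm, one_mul, Matrix.sub_apply,
      QuadraticAlgebra.re_sub, adj_apply, QuadraticAlgebra.re_star, zero_mul, add_zero,
      sub_eq_add_neg]
    refine (IsUltrametricDist.norm_add_le_max _ _).trans (max_le (hre _ _) ?_)
    rw [norm_neg]
    exact hre _ _
  have hwi : ∀ i j, ‖((sym_h • (Z - adj Z)) i j).im‖ ≤ 1 := by
    intro i j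
    rw [Matrix.smul_apply, smul_eq_mul, sym_im, norm_mul, sym_norm, one_mul, Matrix.sub_apply,
      QuadraticAlgebra.im_sub, adj_apply, QuadraticAlgebra.im_star, sub_neg_eq_add]
    exact (IsUltrametricDist.norm_add_le_max _ _).trans (max_le (him _ _) (him _ _))
  obtain ⟨l, hl, hlJ, hlB, hlX⟩ := test_elt hH w hw hW hs hwr hwi
  have h2 := hyp l hl hlJ
  rw [hlX X hX2] at h2
  have h3 : (Matrix.trace ((X - YB) * (sym_h • (Z - adj Z)))).re =
      (Matrix.trace ((X - YB) * Z)).re := by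
    rw [Matrix.mul_smul, Matrix.trace_smul, smul_eq_mul, sym_re, mul_sub, Matrix.trace_sub, h1,
      sub_neg_eq_add, QuadraticAlgebra.re_add, QuadraticAlgebra.re_star]
    ring
  rw [← h3, Matrix.sub_mul, Matrix.trace_sub, QuadraticAlgebra.re_sub, sym_YB]
  have h4 : ‖(∑ i, ∑ j, (Bm i j : Q7) * ((sym_h • (Z - adj Z)) j i).im) / 7 - trB l / 7‖ ≤ 1 := by
    rw [← sub_div, norm_div, norm_seven, norm_sub_rev]
    linarith
  have h5 : (Matrix.trace (X * (sym_h • (Z - adj Z)))).re -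
      -((∑ i, ∑ j, (Bm i j : Q7) * ((sym_h • (Z - adj Z)) j i).im) / 7) =
      ((Matrix.trace (X * (sym_h • (Z - adj Z)))).re + trB l / 7) +
      ((∑ i, ∑ j, (Bm i j : Q7) * ((sym_h • (Z - adj Z)) j i).im) / 7 - trB l / 7) := by ring
  rw [h5]
  exact (IsUltrametricDist.norm_add_le_max _ _).trans (max_le h2 h4)

theorem dual_int {H X : M7 (E7 Q7)} (hH : Sk H) (w : WB H) (hw : ∀ i, |w.a i| ≤ 6) (hX : Sk X)
    (hX2 : X ∈ gr H (-2))
    (hyp : ∀ l ∈ uni H hH, l ∈ JJ →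
      ‖(Matrix.trace (X * (l.mat - 1))).re + trB l / 7‖ ≤ 1)
    (Z : M7 (E7 Q7)) (hZ : Z ∈ fil H 2) (hO : ∀ i j, OO (Z i j)) :
    OO (7 * Matrix.trace ((X - YB) * Z)) := by
  have h7 : ∀ x : Q7, ‖x‖ ≤ 1 → ‖7 * x‖ ≤ 1 / 7 := fun x hx => by
    rw [norm_mul, norm_seven]
    linarith
  have hre7 : ∀ z : E7 Q7, (7 * z).re = 7 * z.re := fun z => by
    rw [QuadraticAlgebra.re_mul, QuadraticAlgebra.re_ofNat, QuadraticAlgebra.im_ofNat]
    ring
  have him7 : ∀ z : E7 Q7, (7 * z).im = 7 * z.im := fun z => by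
    rw [QuadraticAlgebra.im_mul, QuadraticAlgebra.re_ofNat, QuadraticAlgebra.im_ofNat]
    ring
  have hrew : ∀ z : E7 Q7, (wE * z).re = -(7 * z.im) := fun z => by
    rw [QuadraticAlgebra.re_mul, wE_re, wE_im]
    ring
  have himw : ∀ z : E7 Q7, (wE * z).im = z.re := fun z => by
    rw [QuadraticAlgebra.im_mul, wE_re, wE_im]
    ring
  have h1 := sym_key hH w hw hX hX2 hyp ((7 : E7 Q7) • Z) (Submodule.smul_mem _ _ hZ)
    (fun i j => by
      rw [Matrix.smul_apply, smul_eq_mul, hre7]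
      exact h7 _ (hO i j).1)
    (fun i j => by
      rw [Matrix.smul_apply, smul_eq_mul, him7]
      exact (h7 _ (hO i j).2).trans (by norm_num))
  have h2 := sym_key hH w hw hX hX2 hyp ((wE : E7 Q7) • Z) (Submodule.smul_mem _ _ hZ)
    (fun i j => by
      rw [Matrix.smul_apply, smul_eq_mul, hrew, norm_neg]
      exact h7 _ (hO i j).2)
    (fun i j => by
      rw [Matrix.smul_apply, smul_eq_mul, himw]
      exact (hO i j).1)
  rw [Matrix.mul_smul, Matrix.trace_smul, smul_eq_mul] at h1 h2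
  rw [hrew, norm_neg] at h2
  refine ⟨h1, ?_⟩
  rw [him7]
  exact h2

end Pool.Agent.MPabcfcd.Loc
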