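import Pool.Agent.Lib.MP_abcfcd_nt.X.WtB

/-!
# Test elements

`l = (1 + Z/2) (1 - Z/2)⁻¹ = 1 + Z + Z²/2 + Z³/4 + ... + Z⁶/32` (`Z⁷ = 0` by `WB.fil_pow`). It is
unitary: `adj l = (1 + Z/2)⁻¹ (1 - Z/2) = l⁻¹` (`adj Z = -Z`, everything commutes). `Z` is in
`√-7 M₇(O)`: `Z = √-7 Z'`, `Z' = im + (-re/7) √-7` integral. So `Z^k` is in `7 M₇(O)` for `k ≥ 2` and
`l - 1 - Z` is in `7 M₇(O)` (`1/2` is integral). So `l ∈ JJ`, and `im (l - Z)` is in `7 ℤ₇`. For `X` of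
degree `-2`, `X Z^k` has degree at least `2k - 2 > 0` for `k ≥ 2` and its trace is zero
(`trace_fil`, `mul_mem_fil`).
-/

set_option autoImplicit false

open Matrix

namespace Pool.Agent.MPabcfcd.Loc

/-- the elements of `√-7 O` -/
private def W1 (z : E7 Q7) : Prop := ‖z.re‖ ≤ 1 / 7 ∧ ‖z.im‖ ≤ 1

/-- the elements of `7 O` -/
private def W2 (z : E7 Q7) : Prop := ‖z.re‖ ≤ 1 / 7 ∧ ‖z.im‖ ≤ 1 / 7

private theorem W2.toW1 {z : E7 Q7} (h : W2 z) : W1 z := ⟨h.1, h.2.trans (by norm_num)⟩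

private theorem W2.add {y z : E7 Q7} (hy : W2 y) (hz : W2 z) : W2 (y + z) :=
  ⟨(IsUltrametricDist.norm_add_le_max _ _).trans (max_le hy.1 hz.1),
    (IsUltrametricDist.norm_add_le_max _ _).trans (max_le hy.2 hz.2)⟩

private theorem W2_zero : W2 0 := by
  refine ⟨?_, ?_⟩
  · rw [QuadraticAlgebra.re_zero, norm_zero]
    norm_num
  · rw [QuadraticAlgebra.im_zero, norm_zero]
    norm_num

private theorem W2.sum {ι : Type} {s : Finset ι} {f : ι → E7 Q7} (h : ∀ i ∈ s, W2 (f i)) :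
    W2 (∑ i ∈ s, f i) := by
  classical
  induction s using Finset.induction_on with
  | empty =>
    rw [Finset.sum_empty]
    exact W2_zero
  | insert a s ha ih =>
    rw [Finset.sum_insert ha]
    exact (h a (Finset.mem_insert_self _ _)).add (ih fun i hi => h i (Finset.mem_insert_of_mem hi))

private theorem W1.mul {y z : E7 Q7} (hy : W1 y) (hz : W1 z) : W2 (y * z) := by
  refine ⟨?_, ?_⟩
  · rw [QuadraticAlgebra.re_mul]
    refine (IsUltrametricDist.norm_add_le_max _ _).trans (max_le ?_ ?_)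
    · rw [norm_mul]
      calc ‖y.re‖ * ‖z.re‖ ≤ 1 / 7 * (1 / 7) :=
            mul_le_mul hy.1 hz.1 (norm_nonneg _) (by norm_num)
        _ ≤ 1 / 7 := by norm_num
    · rw [norm_mul, norm_mul, norm_neg, norm_seven]
      calc 1 / 7 * ‖y.im‖ * ‖z.im‖ ≤ 1 / 7 * 1 * 1 :=
            mul_le_mul (mul_le_mul_of_nonneg_left hy.2 (by norm_num)) hz.2 (norm_nonneg _)
              (by norm_num)
        _ = 1 / 7 := by norm_num
  · rw [QuadraticAlgebra.im_mul]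
    refine (IsUltrametricDist.norm_add_le_max _ _).trans (max_le ?_ ?_)
    · refine (IsUltrametricDist.norm_add_le_max _ _).trans (max_le ?_ ?_)
      · rw [norm_mul]
        calc ‖y.re‖ * ‖z.im‖ ≤ 1 / 7 * 1 :=
              mul_le_mul hy.1 hz.2 (norm_nonneg _) (by norm_num)
          _ = 1 / 7 := by norm_num
      · rw [norm_mul]
        calc ‖y.im‖ * ‖z.re‖ ≤ 1 * (1 / 7) :=
              mul_le_mul hy.2 hz.1 (norm_nonneg _) (by norm_num)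
          _ = 1 / 7 := by norm_num
    · rw [zero_mul, zero_mul, norm_zero]
      norm_num

private theorem W1_mat_mul {A B : M7 (E7 Q7)} (hA : ∀ i j, W1 (A i j)) (hB : ∀ i j, W1 (B i j)) :
    ∀ i j, W2 ((A * B) i j) := fun i j => by
  rw [Matrix.mul_apply]
  exact W2.sum fun k _ => (hA i k).mul (hB k j)

private theorem cay_mul {A : Type} [Ring A] (Y : A) (hY : Y ^ 7 = 0) :
    (1 + (-(Y + Y) + ((Y * Y - Y * Y * Y + Y * Y * Y * Y - Y * Y * Y * Y * Y +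
      Y * Y * Y * Y * Y * Y) + (Y * Y - Y * Y * Y + Y * Y * Y * Y - Y * Y * Y * Y * Y +
      Y * Y * Y * Y * Y * Y)))) * (1 + (Y + Y + ((Y * Y + Y * Y * Y + Y * Y * Y * Y +
      Y * Y * Y * Y * Y + Y * Y * Y * Y * Y * Y) + (Y * Y + Y * Y * Y + Y * Y * Y * Y +
      Y * Y * Y * Y * Y + Y * Y * Y * Y * Y * Y)))) = 1 := by
  have h2 : (1 + (-(Y + Y) + ((Y * Y - Y * Y * Y + Y * Y * Y * Y - Y * Y * Y * Y * Y +
      Y * Y * Y * Y * Y * Y) + (Y * Y - Y * Y * Y + Y * Y * Y * Y - Y * Y * Y * Y * Y +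
      Y * Y * Y * Y * Y * Y)))) * (1 + (Y + Y + ((Y * Y + Y * Y * Y + Y * Y * Y * Y +
      Y * Y * Y * Y * Y + Y * Y * Y * Y * Y * Y) + (Y * Y + Y * Y * Y + Y * Y * Y * Y +
      Y * Y * Y * Y * Y + Y * Y * Y * Y * Y * Y)))) =
      1 + Y ^ 7 * (4 * Y * (1 + Y ^ 2 + Y ^ 4)) := by
    noncomm_ring
  rw [h2, hY, zero_mul, add_zero]

private theorem cay_adj {Y : M7 (E7 Q7)} (hYa : adj Y = -Y) :
    adj (1 + (Y + Y + ((Y * Y + Y * Y * Y + Y * Y * Y * Y +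
      Y * Y * Y * Y * Y + Y * Y * Y * Y * Y * Y) + (Y * Y + Y * Y * Y + Y * Y * Y * Y +
      Y * Y * Y * Y * Y + Y * Y * Y * Y * Y * Y)))) =
    (1 + (-(Y + Y) + ((Y * Y - Y * Y * Y + Y * Y * Y * Y - Y * Y * Y * Y * Y +
      Y * Y * Y * Y * Y * Y) + (Y * Y - Y * Y * Y + Y * Y * Y * Y - Y * Y * Y * Y * Y +
      Y * Y * Y * Y * Y * Y)))) := by
  have h2 : adj (Y * Y) = Y * Y := by rw [adj_mul, hYa, neg_mul_neg]
  have h3 : adj (Y * Y * Y) = -(Y * Y * Y) := by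
    rw [adj_mul, h2, hYa, neg_mul, Matrix.mul_assoc]
  have h4 : adj (Y * Y * Y * Y) = Y * Y * Y * Y := by
    rw [adj_mul, h3, hYa, neg_mul_neg]
    simp only [Matrix.mul_assoc]
  have h5 : adj (Y * Y * Y * Y * Y) = -(Y * Y * Y * Y * Y) := by
    rw [adj_mul, h4, hYa, neg_mul]
    simp only [Matrix.mul_assoc]
  have h6 : adj (Y * Y * Y * Y * Y * Y) = Y * Y * Y * Y * Y * Y := by
    rw [adj_mul, h5, hYa, neg_mul_neg]
    simp only [Matrix.mul_assoc]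
  rw [adj_add, adj_add, adj_add, adj_add, adj_add, adj_add, adj_add, adj_add, adj_one, hYa, h2, h3,
    h4, h5, h6]
  abel

private theorem tnorm_two : ‖(2 : Q7)‖ = 1 := by
  have h := Padic.norm_natCast_eq_one_iff (p := (p7 : ℕ)) (n := 2)
  have h3 : ‖((2 : ℕ) : Q7)‖ = 1 := h.2 (by
    show Nat.Coprime 7 2
    norm_num)
  simpa using h3

private theorem tnorm_half : ‖(1 / 2 : Q7)‖ = 1 := by
  rw [norm_div, tnorm_two, norm_one, div_one]

/-- one half -/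
private noncomputable def hlf : E7 Q7 := ⟨1 / 2, 0⟩

private theorem hlf_add : hlf + hlf = 1 := by
  unfold hlf
  ext
  · show (1 / 2 : Q7) + 1 / 2 = 1
    norm_num
  · show (0 : Q7) + 0 = 0
    norm_num

private theorem hlf_star : star hlf = hlf := by
  unfold hlf
  ext
  · simp
  · simp

private theorem hlf_mul {z : E7 Q7} (h : W1 z) : W1 (hlf * z) := by
  unfold hlf
  refine ⟨?_, ?_⟩
  · rw [QuadraticAlgebra.re_mul]
    have h3 : (1 / 2 : Q7) * z.re + -7 * 0 * z.im = 1 / 2 * z.re := by ring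
    show ‖(1 / 2 : Q7) * z.re + -7 * 0 * z.im‖ ≤ 1 / 7
    rw [h3, norm_mul, tnorm_half, one_mul]
    exact h.1
  · rw [QuadraticAlgebra.im_mul]
    have h3 : (1 / 2 : Q7) * z.im + 0 * z.re + 0 * 0 * z.im = 1 / 2 * z.im := by ring
    show ‖(1 / 2 : Q7) * z.im + 0 * z.re + 0 * 0 * z.im‖ ≤ 1
    rw [h3, norm_mul, tnorm_half, one_mul]
    exact h.2

private theorem test_mul {H S T : M7 (E7 Q7)} {i j k : ℤ} (h : k ≤ i + j) (hS : S ∈ fil H i)
    (hT : T ∈ fil H j) : S * T ∈ fil H k :=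
  fil_anti H h (mul_mem_fil hS hT)

/-- The Cayley transform. -/
private theorem cay {H : M7 (E7 Q7)} (w : WB H) (hw : ∀ i, |w.a i| ≤ 6)
    {Z : M7 (E7 Q7)} (hZ : Z ∈ fil H 2) (hs : adj Z = -Z) (hre : ∀ i j, ‖(Z i j).re‖ ≤ 1 / 7)
    (him : ∀ i j, ‖(Z i j).im‖ ≤ 1) :
    ∃ T : M7 (E7 Q7), T ∈ fil H 4 ∧ (∀ i j, W2 (T i j)) ∧ adj (1 + (Z + T)) * (1 + (Z + T)) = 1 := by
  obtain ⟨Y, hY⟩ : ∃ Y : M7 (E7 Q7), Y = hlf • Z := ⟨_, rfl⟩
  have hYZ : Y + Y = Z := by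
    rw [hY, ← add_smul, hlf_add, one_smul]
  have hYa : adj Y = -Y := by
    rw [hY, adj_smul, hlf_star, hs, smul_neg]
  have hYf : Y ∈ fil H 2 := by
    rw [hY]
    exact Submodule.smul_mem _ _ hZ
  have hY7 : Y ^ 7 = 0 := w.fil_pow isUnit_int hw hYf
  have hYW : ∀ i j, W1 (Y i j) := by
    intro i j
    have h : Y i j = hlf * Z i j := by
      rw [hY, Matrix.smul_apply, smul_eq_mul]
    rw [h]
    exact hlf_mul ⟨hre i j, him i j⟩
  have hY2 : ∀ i j, W2 ((Y * Y) i j) := W1_mat_mul hYW hYW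
  have hY3 : ∀ i j, W2 ((Y * Y * Y) i j) := W1_mat_mul (fun i j => (hY2 i j).toW1) hYW
  have hY4 : ∀ i j, W2 ((Y * Y * Y * Y) i j) := W1_mat_mul (fun i j => (hY3 i j).toW1) hYW
  have hY5 : ∀ i j, W2 ((Y * Y * Y * Y * Y) i j) := W1_mat_mul (fun i j => (hY4 i j).toW1) hYW
  have hY6 : ∀ i j, W2 ((Y * Y * Y * Y * Y * Y) i j) :=
    W1_mat_mul (fun i j => (hY5 i j).toW1) hYW
  have hf2 : Y * Y ∈ fil H 4 := test_mul (by norm_num) hYf hYf
  have hf3 : Y * Y * Y ∈ fil H 4 := test_mul (by norm_num) hf2 hYf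
  have hf4 : Y * Y * Y * Y ∈ fil H 4 := test_mul (by norm_num) hf3 hYf
  have hf5 : Y * Y * Y * Y * Y ∈ fil H 4 := test_mul (by norm_num) hf4 hYf
  have hf6 : Y * Y * Y * Y * Y * Y ∈ fil H 4 := test_mul (by norm_num) hf5 hYf
  have hf : Y * Y + Y * Y * Y + Y * Y * Y * Y + Y * Y * Y * Y * Y + Y * Y * Y * Y * Y * Y ∈
      fil H 4 := Submodule.add_mem _ (Submodule.add_mem _ (Submodule.add_mem _
        (Submodule.add_mem _ hf2 hf3) hf4) hf5) hf6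
  have hW : ∀ i j, W2 ((Y * Y + Y * Y * Y + Y * Y * Y * Y + Y * Y * Y * Y * Y +
      Y * Y * Y * Y * Y * Y) i j) := fun i j =>
    ((((hY2 i j).add (hY3 i j)).add (hY4 i j)).add (hY5 i j)).add (hY6 i j)
  refine ⟨(Y * Y + Y * Y * Y + Y * Y * Y * Y + Y * Y * Y * Y * Y + Y * Y * Y * Y * Y * Y) +
    (Y * Y + Y * Y * Y + Y * Y * Y * Y + Y * Y * Y * Y * Y + Y * Y * Y * Y * Y * Y),
    Submodule.add_mem _ hf hf, fun i j => (hW i j).add (hW i j), ?_⟩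
  rw [← hYZ, cay_adj hYa]
  exact cay_mul Y hY7

private theorem uni_of_adj {L : M7 (E7 Q7)} (hadj : adj L * L = 1) :
    Lᴴ * J7 (E7 Q7) * L = J7 (E7 Q7) := by
  have h1 : J7 (E7 Q7) * (adj L * L) = J7 (E7 Q7) := by rw [hadj, mul_one]
  unfold adj at h1
  calc Lᴴ * J7 (E7 Q7) * L = 1 * Lᴴ * J7 (E7 Q7) * L := by rw [Matrix.one_mul]
    _ = (J7 (E7 Q7) * J7 (E7 Q7)) * Lᴴ * J7 (E7 Q7) * L := by rw [J7_sq]
    _ = J7 (E7 Q7) * (J7 (E7 Q7) * Lᴴ * J7 (E7 Q7) * L) := by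
      simp only [Matrix.mul_assoc]
    _ = J7 (E7 Q7) := h1

private theorem test_JJ {l : U7 Q7}
    (hent : ∀ i j, ‖((l.mat - 1) i j).re‖ ≤ 1 / 7 ∧ ‖((l.mat - 1) i j).im‖ ≤ 1) : l ∈ JJ := by
  refine ⟨?_, fun i j => (hent i j).1⟩
  intro i j
  have h : l.mat i j = (1 : M7 (E7 Q7)) i j + (l.mat - 1) i j := by
    rw [Matrix.sub_apply]
    ring
  have h1 : OO ((1 : M7 (E7 Q7)) i j) := by
    rw [Matrix.one_apply]
    split_ifs
    · refine ⟨?_, ?_⟩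
      · rw [QuadraticAlgebra.re_one, norm_one]
      · rw [QuadraticAlgebra.im_one, norm_zero]
        norm_num
    · exact OO_zero
  have h3 : OO ((l.mat - 1) i j) := ⟨(hent i j).1.trans (by norm_num), (hent i j).2⟩
  rw [h]
  exact h1.add h3

private theorem test_trB {l : U7 Q7} {Z T : M7 (E7 Q7)} (hl : l.mat = 1 + (Z + T))
    (hT : ∀ i j, W2 (T i j)) :
    ‖trB l - ∑ i, ∑ j, (Bm i j : Q7) * (Z j i).im‖ ≤ 1 / 7 := by
  have h : trB l - ∑ i, ∑ j, (Bm i j : Q7) * (Z j i).im =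
      ∑ i, ∑ j, (Bm i j : Q7) * (T j i).im := by
    unfold trB
    rw [← Finset.sum_sub_distrib]
    refine Finset.sum_congr rfl fun i _ => ?_
    rw [← Finset.sum_sub_distrib]
    refine Finset.sum_congr rfl fun j _ => ?_
    rw [← mul_sub]
    have h3 : l.mat j i = (1 : M7 (E7 Q7)) j i + (Z j i + T j i) := by
      rw [hl]
      rfl
    have h4 : ((1 : M7 (E7 Q7)) j i).im = 0 := by
      rw [Matrix.one_apply]
      split_ifs
      · rw [QuadraticAlgebra.im_one]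
      · rw [QuadraticAlgebra.im_zero]
    have h5 : (l.mat j i).im - (Z j i).im = (T j i).im := by
      rw [h3, QuadraticAlgebra.im_add, QuadraticAlgebra.im_add, h4]
      ring
    rw [h5]
  rw [h]
  refine IsUltrametricDist.norm_sum_le_of_forall_le_of_nonneg (by norm_num) fun i _ => ?_
  refine IsUltrametricDist.norm_sum_le_of_forall_le_of_nonneg (by norm_num) fun j _ => ?_
  rw [norm_mul]
  calc ‖(Bm i j : Q7)‖ * ‖(T j i).im‖ ≤ 1 * (1 / 7) :=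
        mul_le_mul (Padic.norm_int_le_one _) (hT j i).2 (norm_nonneg _) (by norm_num)
    _ = 1 / 7 := by norm_num

theorem test_elt {H : M7 (E7 Q7)} (hH : Sk H) (w : WB H) (hw : ∀ i, |w.a i| ≤ 6)
    {Z : M7 (E7 Q7)} (hZ : Z ∈ fil H 2) (hs : adj Z = -Z) (hre : ∀ i j, ‖(Z i j).re‖ ≤ 1 / 7)
    (him : ∀ i j, ‖(Z i j).im‖ ≤ 1) :
    ∃ l ∈ uni H hH, l ∈ JJ ∧ ‖trB l - ∑ i, ∑ j, (Bm i j : Q7) * (Z j i).im‖ ≤ 1 / 7 ∧
      ∀ X ∈ gr H (-2), Matrix.trace (X * (l.mat - 1)) = Matrix.trace (X * Z) := by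
  obtain ⟨T, hTf, hTW, hadj⟩ := cay w hw hZ hs hre him
  obtain ⟨l, hl⟩ : ∃ l : U7 Q7, l.mat = 1 + (Z + T) := ⟨⟨1 + (Z + T), uni_of_adj hadj⟩, rfl⟩
  have hl1 : l.mat - 1 = Z + T := by rw [hl, add_sub_cancel_left]
  have hent : ∀ i j, ‖((l.mat - 1) i j).re‖ ≤ 1 / 7 ∧ ‖((l.mat - 1) i j).im‖ ≤ 1 := by
    intro i j
    rw [hl1]
    exact ⟨(IsUltrametricDist.norm_add_le_max _ _).trans (max_le (hre i j) (hTW i j).1),
      (IsUltrametricDist.norm_add_le_max _ _).trans (max_le (him i j) (hTW i j).toW1.2)⟩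
  refine ⟨l, ?_, test_JJ hent, test_trB hl hTW, ?_⟩
  · show l.mat - 1 ∈ fil H 2
    rw [hl1]
    exact Submodule.add_mem _ hZ (fil_anti H (by norm_num) hTf)
  · intro X hX
    rw [hl1, mul_add, Matrix.trace_add]
    have h : X * T ∈ fil H 2 := test_mul (by norm_num) (gr_le_fil H le_rfl hX) hTf
    rw [trace_fil isUnit_int (by norm_num) h, add_zero]

end Pool.Agent.MPabcfcd.Loc
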