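import Pool.Agent.Lib.MP_abcfcd_nt.X.Fld

/-!
# Weight bases

Everything is computed in the weight basis: `co (S T) = co S co T`, `co H = diagonal a`, so
`co (H T - T H) i j = (a i - a j) co T i j`. A matrix `T` is the sum of the matrices
`co T i j • P E_ij Q`, of degrees `a i - a j`.
-/

set_option autoImplicit false

open Matrix

namespace Pool.Agent.MPabcfcd.Loc

section generic

variable {R : Type} [CommRing R] {H : M7 (E7 R)} (w : WB H)

theorem WB.co_mul (S T : M7 (E7 R)) : w.co (S * T) = w.co S * w.co T := by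
  unfold WB.co
  calc w.Q * (S * T) * w.P = w.Q * S * 1 * T * w.P := by
        simp only [Matrix.mul_assoc, Matrix.one_mul]
    _ = w.Q * S * w.P * (w.Q * T * w.P) := by
        rw [← w.PQ]
        simp only [Matrix.mul_assoc]

theorem WB.co_one : w.co 1 = 1 := by
  unfold WB.co
  rw [Matrix.mul_one, w.QP]

theorem WB.co_pow (T : M7 (E7 R)) (k : ℕ) : w.co (T ^ k) = w.co T ^ k := by
  induction k with
  | zero => rw [pow_zero, pow_zero, WB.co_one]
  | succ k ih => rw [pow_succ, pow_succ, WB.co_mul, ih]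

theorem WB.co_add (S T : M7 (E7 R)) : w.co (S + T) = w.co S + w.co T := by
  unfold WB.co
  rw [mul_add, add_mul]

theorem WB.co_sub (S T : M7 (E7 R)) : w.co (S - T) = w.co S - w.co T := by
  unfold WB.co
  rw [mul_sub, sub_mul]

theorem WB.co_smul (c : E7 R) (T : M7 (E7 R)) : w.co (c • T) = c • w.co T := by
  unfold WB.co
  rw [Matrix.mul_smul, Matrix.smul_mul]

theorem WB.P_co_Q (T : M7 (E7 R)) : w.P * w.co T * w.Q = T := by
  unfold WB.co
  calc w.P * (w.Q * T * w.P) * w.Q = (w.P * w.Q) * T * (w.P * w.Q) := by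
        simp only [Matrix.mul_assoc]
    _ = T := by rw [w.PQ, Matrix.one_mul, Matrix.mul_one]

theorem WB.co_injective : Function.Injective w.co := by
  intro S T h
  rw [← w.P_co_Q S, ← w.P_co_Q T, h]

private theorem wtb_co_H : w.co H = Matrix.diagonal (fun i => (w.a i : E7 R)) := by
  unfold WB.co
  rw [Matrix.mul_assoc, w.HP, ← Matrix.mul_assoc, w.QP, Matrix.one_mul]

private theorem wtb_unit (hZ : ∀ n : ℤ, n ≠ 0 → IsUnit (n : R)) (n : ℤ) (hn : n ≠ 0) :
    IsUnit (n : E7 R) := by
  obtain ⟨u, hu⟩ := hZ n hn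
  refine IsUnit.of_mul_eq_one (⟨((u⁻¹ : Rˣ) : R), 0⟩ : E7 R) ?_
  have h : (n : R) * ((u⁻¹ : Rˣ) : R) = 1 := by rw [← hu, Units.mul_inv]
  ext
  · simp [h, QuadraticAlgebra.re_one]
  · simp [QuadraticAlgebra.im_one]

private theorem wtb_comm (T : M7 (E7 R)) (i j : Fin 7) :
    w.co (H * T - T * H) i j = ((w.a i - w.a j : ℤ) : E7 R) * w.co T i j := by
  rw [WB.co_sub, WB.co_mul, WB.co_mul, wtb_co_H, Matrix.sub_apply, Matrix.diagonal_mul,
    Matrix.mul_diagonal]
  push_cast
  ring

theorem WB.mem_gr_iff (hZ : ∀ n : ℤ, n ≠ 0 → IsUnit (n : R)) (T : M7 (E7 R)) (k : ℤ) :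
    T ∈ gr H k ↔ ∀ i j, w.a i - w.a j ≠ k → w.co T i j = 0 := by
  rw [mem_gr]
  constructor
  · intro h i j hij
    have h1 := congrArg (fun M => w.co M i j) h
    beta_reduce at h1
    rw [wtb_comm, WB.co_smul, Matrix.smul_apply, smul_eq_mul] at h1
    have h2 : ((w.a i - w.a j - k : ℤ) : E7 R) * w.co T i j = 0 := by
      push_cast at h1 ⊢
      linear_combination h1
    exact (wtb_unit hZ _ (sub_ne_zero.2 hij)).mul_right_eq_zero.1 h2
  · intro h
    refine w.co_injective (Matrix.ext fun i j => ?_)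
    rw [wtb_comm, WB.co_smul, Matrix.smul_apply, smul_eq_mul]
    by_cases hij : w.a i - w.a j = k
    · rw [hij]
    · rw [h i j hij, mul_zero, mul_zero]

theorem WB.mem_fil_iff (hZ : ∀ n : ℤ, n ≠ 0 → IsUnit (n : R)) (T : M7 (E7 R)) (k : ℤ) :
    T ∈ fil H k ↔ ∀ i j, w.a i - w.a j < k → w.co T i j = 0 := by
  constructor
  · intro h
    refine fil_induction (p := fun T => ∀ i j, w.a i - w.a j < k → w.co T i j = 0) ?_ ?_ ?_ h
    · intro m hm T hT i j hij
      exact (w.mem_gr_iff hZ T m).1 hT i j (by omega)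
    · intro i j _
      unfold WB.co
      rw [mul_zero, zero_mul, Matrix.zero_apply]
    · intro S T hS hT i j hij
      rw [WB.co_add, Matrix.add_apply, hS i j hij, hT i j hij, add_zero]
  · intro h
    have h1 : T = ∑ i, ∑ j, w.P * Matrix.single i j (w.co T i j) * w.Q := by
      conv_lhs => rw [← w.P_co_Q T, Matrix.matrix_eq_sum_single (w.co T)]
      rw [Finset.mul_sum, Finset.sum_mul]
      refine Finset.sum_congr rfl fun i _ => ?_
      rw [Finset.mul_sum, Finset.sum_mul]
    rw [h1]
    refine Submodule.sum_mem _ fun i _ => Submodule.sum_mem _ fun j _ => ?_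
    by_cases hij : w.a i - w.a j < k
    · rw [h i j hij, Matrix.single_zero, mul_zero, zero_mul]
      exact Submodule.zero_mem _
    · refine gr_le_fil H (not_lt.1 hij) ((w.mem_gr_iff hZ _ _).2 ?_)
      intro a b hab
      have h2 : w.co (w.P * Matrix.single i j (w.co T i j) * w.Q) =
          Matrix.single i j (w.co T i j) := by
        show w.Q * (w.P * Matrix.single i j (w.co T i j) * w.Q) * w.P = _
        calc w.Q * (w.P * Matrix.single i j (w.co T i j) * w.Q) * w.P
            = (w.Q * w.P) * Matrix.single i j (w.co T i j) * (w.Q * w.P) := by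
              simp only [Matrix.mul_assoc]
          _ = Matrix.single i j (w.co T i j) := by
              rw [w.QP, Matrix.one_mul, Matrix.mul_one]
      rw [h2, Matrix.single_apply]
      refine if_neg ?_
      rintro ⟨rfl, rfl⟩
      exact hab rfl

/-- Products of `n` matrices of degree at least two have degree at least `2 n`; the differences of
the weights are at most `12`. -/
theorem WB.fil_pow (hZ : ∀ n : ℤ, n ≠ 0 → IsUnit (n : R)) (hw : ∀ i, |w.a i| ≤ 6) {Z : M7 (E7 R)}
    (h : Z ∈ fil H 2) : Z ^ 7 = 0 := by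
  have h1 : ∀ n : ℕ, Z ^ (n + 1) ∈ fil H (2 * ((n : ℤ) + 1)) := by
    intro n
    induction n with
    | zero =>
      rw [zero_add, pow_one]
      exact h
    | succ n ih =>
      rw [pow_succ]
      have h2 := mul_mem_fil ih h
      have h3 : 2 * ((n : ℤ) + 1) + 2 = 2 * (((n + 1 : ℕ) : ℤ) + 1) := by
        push_cast
        ring
      rwa [h3] at h2
  have h4 := (w.mem_fil_iff hZ _ _).1 (h1 6)
  refine w.co_injective (Matrix.ext fun i j => ?_)
  rw [h4 i j ?_]
  · unfold WB.co
    rw [mul_zero, zero_mul, Matrix.zero_apply]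
  · have h5 := abs_le.1 (hw i)
    have h6 := abs_le.1 (hw j)
    push_cast
    omega

/-- Matrices of positive degree have trace zero: `i • tr T = tr (H T - T H) = 0`. -/
theorem trace_fil (hZ : ∀ n : ℤ, n ≠ 0 → IsUnit (n : R)) {k : ℤ} (hk : 0 < k) {T : M7 (E7 R)}
    (h : T ∈ fil H k) : Matrix.trace T = 0 := by
  refine fil_induction (p := fun T => Matrix.trace T = 0) ?_ ?_ ?_ h
  · intro m hm T hT
    rw [mem_gr] at hT
    have h1 := congrArg Matrix.trace hT
    rw [Matrix.trace_sub, Matrix.trace_mul_comm H T, sub_self, Matrix.trace_smul,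
      smul_eq_mul] at h1
    exact (wtb_unit hZ m (by omega)).mul_right_eq_zero.1 h1.symm
  · exact Matrix.trace_zero _ _
  · intro S T hS hT
    rw [Matrix.trace_add, hS, hT, add_zero]

private theorem wtb_map_mul {S : Type} [CommRing S] (f : R →+* S) (A B : M7 (E7 R)) :
    mapM f A * mapM f B = mapM f (A * B) := by
  unfold mapM
  rw [Matrix.map_mul]

private theorem wtb_map_one {S : Type} [CommRing S] (f : R →+* S) :
    mapM f (1 : M7 (E7 R)) = 1 := by
  unfold mapM
  rw [Matrix.map_one _ (map_zero _) (map_one _)]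

/-- The image of a weight basis under extension of scalars. -/
def WB.map {S : Type} [CommRing S] (f : R →+* S) : WB (mapM f H) where
  P := mapM f w.P
  Q := mapM f w.Q
  a := w.a
  PQ := by rw [wtb_map_mul, w.PQ, wtb_map_one]
  QP := by rw [wtb_map_mul, w.QP, wtb_map_one]
  HP := by
    rw [wtb_map_mul, w.HP, ← wtb_map_mul]
    congr 1
    unfold mapM
    rw [Matrix.diagonal_map (map_zero _)]
    congr 1
    funext i
    exact map_intCast _ _

/-- The image of a weight basis under conjugation. -/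
def WB.conj (g : U7 R) : WB ((g⁻¹).mat * H * g.mat) where
  P := (g⁻¹).mat * w.P
  Q := w.Q * g.mat
  a := w.a
  PQ := by
    have h : (g⁻¹).mat * g.mat = 1 := by rw [← U7.mat_mul, inv_mul_cancel, U7.mat_one]
    calc (g⁻¹).mat * w.P * (w.Q * g.mat) = (g⁻¹).mat * (w.P * w.Q) * g.mat := by
          simp only [Matrix.mul_assoc]
      _ = 1 := by rw [w.PQ, Matrix.mul_one, h]
  QP := by
    have h : g.mat * (g⁻¹).mat = 1 := by rw [← U7.mat_mul, mul_inv_cancel, U7.mat_one]
    calc w.Q * g.mat * ((g⁻¹).mat * w.P) = w.Q * (g.mat * (g⁻¹).mat) * w.P := by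
          simp only [Matrix.mul_assoc]
      _ = 1 := by rw [h, Matrix.mul_one, w.QP]
  HP := by
    have h : g.mat * (g⁻¹).mat = 1 := by rw [← U7.mat_mul, mul_inv_cancel, U7.mat_one]
    calc (g⁻¹).mat * H * g.mat * ((g⁻¹).mat * w.P)
        = (g⁻¹).mat * H * (g.mat * (g⁻¹).mat) * w.P := by simp only [Matrix.mul_assoc]
      _ = (g⁻¹).mat * (H * w.P) := by rw [h, Matrix.mul_one, Matrix.mul_assoc]
      _ = (g⁻¹).mat * w.P * Matrix.diagonal (fun i => (w.a i : E7 R)) := by
          rw [w.HP, Matrix.mul_assoc]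

end generic

end Pool.Agent.MPabcfcd.Loc
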